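import Pool.Agent.Lib_MP_22d2c8_few.MulAt
import Pool.Agent.Lib_MP_22d2c8_few.PolyExact

/-!
# Exceptional gates

The purity lemma needs the rule of a gate only for the pure gates. So the gates of any set `E` may
be evaluated exactly (their ternary value is corrected to the true one): each of them is pure for few
of the sets.
-/

set_option autoImplicit false

namespace Pool.Agent.Lib_MP_22d2c8_hz

open Finset

section

variable {ι : Type} [Fintype ι] {N : ℕ} {pred : Fin N → Finset (ι ⊕ Fin N)}
  {c : ι ⊕ Fin N → Finset ι → Prop} {e : ℕ} {A : Finset ι}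

/-- The main lemma, with a rule only for the pure gates. -/
theorem boundaryE (he : 1 ≤ e) (hlt : ∀ g h, Sum.inr h ∈ pred g → h < g)
    (c0 : ∀ i z, c (Sum.inl i) z → i ∈ z)
    (hm : ∀ (w : ι ⊕ Fin N) (i : ι) (z : Finset ι), i ∈ z → c w {i} → c w z)
    (o : Fin N) (ho : L c (Sum.inr o) = A) (hA : e < A.card) (d : ℕ)
    (cm : ∀ g ∈ P c e A, ∀ (i : ι) (z : Finset ι), z.card ≤ d →
      (∀ w ∈ pred g, c w {i} → c w z) → c (Sum.inr g) {i} → c (Sum.inr g) z)
    (hd : ∀ z : Finset ι, z.card ≤ d → Disjoint z A → ¬ c (Sum.inr o) z) :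
    min A.card (e * (d + 1)) ≤ e * (B pred c e A o).card := by
  classical
  have hoP : o ∈ P c e A := mem_P.2 ⟨ho.le, ho ▸ hA⟩
  set I := (B pred c e A o).filter fun w => ¬ L c w ⊆ A with hI
  rcases Nat.lt_or_ge d I.card with h | h
  · exact (min_le_right _ _).trans
      (Nat.mul_le_mul_left _ (h.trans_le (card_le_card (filter_subset _ _))))
  · refine (min_le_left _ _).trans ?_
    -- elements outside `A`
    have hex : ∀ w : ι ⊕ Fin N, ∃ u : Option ι, w ∈ I → ∃ i, u = some i ∧ i ∈ L c w ∧ i ∉ A := by
      intro w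
      by_cases hw : w ∈ I
      · obtain ⟨i, hi, hiA⟩ := not_subset.1 (mem_filter.1 hw).2
        exact ⟨some i, fun _ => ⟨i, rfl, hi, hiA⟩⟩
      · exact ⟨none, fun h => absurd h hw⟩
    choose u hu using hex
    set z : Finset ι := I.biUnion fun w => (u w).toFinset with hz
    have hzc : z.card ≤ d := by
      refine (card_biUnion_le.trans (sum_le_card_nsmul _ _ 1 fun w _ => ?_)).trans ?_
      · rw [Option.card_toFinset]
        cases u w <;> simp
      · simpa using h
    have hzA : Disjoint z A := by
      rw [disjoint_left]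
      intro i hi hiA
      obtain ⟨w, hw, hiw⟩ := mem_biUnion.1 hi
      obtain ⟨j, hj, -, hjA⟩ := hu w hw
      rw [hj] at hiw
      simp only [Option.toFinset_some, mem_singleton] at hiw
      exact hjA (hiw ▸ hiA)
    have hcover : A ⊆ (B pred c e A o \ I).biUnion fun w => L c w := by
      intro i hi
      by_contra hni
      have hni' : ∀ w ∈ B pred c e A o \ I, ¬ c w {i} := by
        intro w hw hc
        exact hni (mem_biUnion.2 ⟨w, hw, mem_L.2 hc⟩)
      have key : ∀ n : ℕ, ∀ g ∈ R pred c e A o, g.1 < n → c (Sum.inr g) {i} →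
          c (Sum.inr g) z := by
        intro n
        induction n with
        | zero => exact fun g _ hg _ => absurd hg (Nat.not_lt_zero _)
        | succ n ih =>
          intro g hg hgn hc
          refine cm g (mem_R.1 hg).1 i z hzc (fun w hw hcw => ?_) hc
          by_cases hwP : ∀ h ∈ P c e A, w ≠ Sum.inr h
          · have hwB : w ∈ B pred c e A o := mem_B.2 ⟨⟨g, hg, hw⟩, hwP⟩
            by_cases hwI : w ∈ I
            · obtain ⟨j, hj, hjL, -⟩ := hu w hwI
              have hjz : j ∈ z := mem_biUnion.2 ⟨w, hwI, by rw [hj]; simp⟩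
              exact hm w j z hjz (mem_L.1 hjL)
            · exact absurd hcw (hni' w (mem_sdiff.2 ⟨hwB, hwI⟩))
          · push Not at hwP
            obtain ⟨h, hh, rfl⟩ := hwP
            refine ih h (R_step hg hw hh) ?_ hcw
            have h1 : h.1 < g.1 := hlt g h hw
            omega
      refine hd z hzc hzA (key N o (self_mem_R hoP) o.2 ?_)
      have h1 : i ∈ L c (Sum.inr o) := by rw [ho]; exact hi
      exact mem_L.1 h1
    calc A.card ≤ ((B pred c e A o \ I).biUnion fun w => L c w).card := card_le_card hcover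
      _ ≤ ∑ w ∈ B pred c e A o \ I, (L c w).card := card_biUnion_le
      _ ≤ ∑ w ∈ B pred c e A o \ I, e := by
          refine sum_le_sum fun w hw => ?_
          rw [mem_sdiff] at hw
          have hwA : L c w ⊆ A := by
            by_contra hcon
            exact hw.2 (mem_filter.2 ⟨hw.1, hcon⟩)
          cases w with
          | inl j =>
            refine le_trans (card_le_one.2 fun a ha b hb => ?_) he
            rw [mem_L] at ha hb
            rw [← mem_singleton.1 (c0 _ _ ha), ← mem_singleton.1 (c0 _ _ hb)]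
          | inr g =>
            by_contra hcon
            push Not at hcon
            exact (mem_B.1 hw.1).2 g (mem_P.2 ⟨hwA, hcon⟩) rfl
      _ = e * (B pred c e A o \ I).card := by rw [sum_const, smul_eq_mul, Nat.mul_comm]
      _ ≤ e * (B pred c e A o).card := Nat.mul_le_mul_left _ (card_le_card sdiff_subset)

end

/-- Wires, with exceptional gates. -/
theorem wires_geE {ι κ : Type} [Fintype ι] [DecidableEq ι] {N : ℕ}
    {pred : Fin N → Finset (ι ⊕ Fin N)} {c : ι ⊕ Fin N → Finset ι → Prop} {A : κ → Finset ι}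
    {e m : ℕ} (he : 1 ≤ e) (hlt : ∀ g h, Sum.inr h ∈ pred g → h < g)
    (c0 : ∀ i z, c (Sum.inl i) z → i ∈ z)
    (hm : ∀ (w : ι ⊕ Fin N) (i : ι) (z : Finset ι), i ∈ z → c w {i} → c w z)
    (X : Finset (Fin N))
    (K : Finset κ) (hAA : ∀ S : Finset ι, e < S.card → (K.filter fun k => S ⊆ A k).card ≤ m)
    (hA : ∀ k ∈ K, e < (A k).card) (out : κ → ι ⊕ Fin N) (ho : ∀ k ∈ K, L c (out k) = A k)
    (d : ℕ)
    (cm : ∀ g, g ∉ X → ∀ (i : ι) (z : Finset ι), z.card ≤ d →
      (∀ w ∈ pred g, c w {i} → c w z) → c (Sum.inr g) {i} → c (Sum.inr g) z)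
    (hd : ∀ k ∈ K, ∀ z : Finset ι, z.card ≤ d → Disjoint z (A k) → ¬ c (out k) z) :
    ∑ k ∈ K, min (A k).card (e * (d + 1)) ≤
      e * (m * (∑ g ∈ univ \ X, (pred g).card + (d + 1) * X.card)) ∧
    ((∀ g, g ∉ X → (pred g).card ≤ 2) →
      ∑ k ∈ K, min ((A k).card - e) (e * d) ≤ e * (m * ((univ \ X).card + d * X.card))) := by
  classical
  have hgate : ∀ k ∈ K, ∃ o, out k = Sum.inr o := by
    intro k hk
    rcases h : out k with i | o
    · exfalso
      have h1 := ho k hk
      have h2 := hA k hk
      rw [← h1, h] at h2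
      have h3 : (L c (Sum.inl i : ι ⊕ Fin N)).card ≤ 1 := by
        refine card_le_one.2 fun a ha b hb => ?_
        rw [mem_L] at ha hb
        rw [← mem_singleton.1 (c0 _ _ ha), ← mem_singleton.1 (c0 _ _ hb)]
      omega
    · exact ⟨o, rfl⟩
  have hsplit : ∀ a b : ℕ → ℕ, ∀ f : Fin N → ℕ, ∀ t : ℕ,
      ∑ g : Fin N, (if g ∈ X then t else f g) = ∑ g ∈ univ \ X, f g + t * X.card := by
    intro _ _ f t
    rw [← sum_sdiff (subset_univ X)]
    congr 1
    · exact sum_congr rfl fun g hg => by rw [if_neg (mem_sdiff.1 hg).2]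
    · rw [sum_congr rfl fun g hg => if_pos hg, sum_const, smul_eq_mul, Nat.mul_comm]
  have hb : ∀ k ∈ K, ∃ o, o ∈ P c e (A k) ∧ ((∃ g ∈ P c e (A k), g ∈ X) ∨
      ((∀ g ∈ P c e (A k), g ∉ X) ∧
      min (A k).card (e * (d + 1)) ≤ e * (B pred c e (A k) o).card)) := by
    intro k hk
    obtain ⟨o, hoo⟩ := hgate k hk
    have h1 := ho k hk
    rw [hoo] at h1
    refine ⟨o, mem_P.2 ⟨h1.le, h1 ▸ hA k hk⟩, ?_⟩
    by_cases hX : ∃ g ∈ P c e (A k), g ∈ X
    · exact Or.inl hX
    · push Not at hX
      refine Or.inr ⟨hX, boundaryE he hlt c0 hm o h1 (hA k hk) d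
        (fun g hg => cm g (hX g hg)) ?_⟩
      intro z hz hzA
      rw [← hoo]
      exact hd k hk z hz hzA
  constructor
  · calc _ ≤ ∑ k ∈ K, e * ∑ g ∈ P c e (A k), (if g ∈ X then d + 1 else (pred g).card) := by
          refine sum_le_sum fun k hk => ?_
          obtain ⟨o, -, h | ⟨hX, h⟩⟩ := hb k hk
          · obtain ⟨g, hg, hgX⟩ := h
            refine (min_le_right _ _).trans (Nat.mul_le_mul_left _ ?_)
            calc d + 1 = if g ∈ X then d + 1 else (pred g).card := (if_pos hgX).symm
              _ ≤ _ := single_le_sum (f := fun g => if g ∈ X then d + 1 else (pred g).card)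
                  (fun _ _ => Nat.zero_le _) hg
          · refine h.trans (Nat.mul_le_mul_left _ ((B_le o).trans (le_of_eq ?_)))
            exact sum_congr rfl fun g hg => (if_neg (hX g hg)).symm
      _ = e * ∑ k ∈ K, ∑ g ∈ P c e (A k), (if g ∈ X then d + 1 else (pred g).card) :=
          (mul_sum _ _ _).symm
      _ ≤ e * (m * ∑ g : Fin N, (if g ∈ X then d + 1 else (pred g).card)) :=
          Nat.mul_le_mul_left _ (P_mult univ (fun _ _ _ => mem_univ _) K hAA _)
      _ = _ := by rw [hsplit id id]
  · intro h2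
    calc _ ≤ ∑ k ∈ K, e * ∑ g ∈ P c e (A k), (if g ∈ X then d else 1) := by
          refine sum_le_sum fun k hk => ?_
          obtain ⟨o, ho, h | ⟨hX, h⟩⟩ := hb k hk
          · obtain ⟨g, hg, hgX⟩ := h
            refine (min_le_right _ _).trans (Nat.mul_le_mul_left _ ?_)
            calc d = if g ∈ X then d else 1 := (if_pos hgX).symm
              _ ≤ _ := single_le_sum (f := fun g => if g ∈ X then d else 1)
                  (fun _ _ => Nat.zero_le _) hg
          · have h3 := B_le_two (fun g hg => h2 g (hX g hg)) ho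
            have h4 : e * (B pred c e (A k) o).card ≤ e * (P c e (A k)).card + e := by
              calc e * (B pred c e (A k) o).card ≤ e * ((P c e (A k)).card + 1) :=
                    Nat.mul_le_mul_left _ h3
                _ = _ := by ring
            have h5 : ∑ g ∈ P c e (A k), (if g ∈ X then d else 1) = (P c e (A k)).card := by
              rw [sum_congr rfl fun g hg => if_neg (hX g hg), sum_const, smul_eq_mul, mul_one]
            rw [Nat.mul_add, Nat.mul_one] at h
            rw [h5]
            omega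
      _ = e * ∑ k ∈ K, ∑ g ∈ P c e (A k), (if g ∈ X then d else 1) := (mul_sum _ _ _).symm
      _ ≤ e * (m * ∑ g : Fin N, (if g ∈ X then d else 1)) :=
          Nat.mul_le_mul_left _ (P_mult univ (fun _ _ _ => mem_univ _) K hAA _)
      _ = _ := by rw [hsplit id id, sum_const, smul_eq_mul, mul_one]

/-! ### Circuits with exact gates -/

namespace Circuit

variable {ι κ : Type} [DecidableEq ι] (C : Circuit ι κ) (E : Finset (Fin C.size)) (x : ι → Bool)

theorem tvalE_inl (U : Finset ι) (i : ι) : C.tvalE E x U (Sum.inl i) = unst x U i :=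
  C.eval_inl _ _ _

theorem tvalE_inr (U : Finset ι) (g : Fin C.size) : C.tvalE E x U (Sum.inr g) =
    if g ∈ E then C.exactVal x U (Sum.inr g) else
      kleene (C.op g) fun j => C.tvalE E x U (C.src g j) := C.eval_inr _ _ _

omit [DecidableEq ι] in
theorem exact_ne_none {x : ι → Bool} {U : Finset ι} {w : ι ⊕ Fin C.size} :
    C.exactVal x U w ≠ none ↔
      ∀ y : ι → Bool, (∀ i, i ∉ U → y i = x i) → C.val y w = C.val x w := by
  unfold exactVal
  split_ifs with h
  · exact ⟨fun _ => h, fun _ => by simp⟩
  · exact ⟨fun h' => absurd rfl h', fun h' => absurd h' h⟩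

omit [DecidableEq ι] in
theorem exact_sound (U : Finset ι) (y : ι → Bool) (hy : ∀ i, i ∉ U → y i = x i)
    (w : ι ⊕ Fin C.size) : C.exactVal x U w = none ∨ C.exactVal x U w = some (C.val y w) := by
  unfold exactVal
  split_ifs with h
  · exact Or.inr (by rw [h y hy])
  · exact Or.inl rfl

omit [DecidableEq ι] in
theorem exact_none_mono {U U' : Finset ι} (h : U ⊆ U') (w : ι ⊕ Fin C.size)
    (hn : C.exactVal x U w = none) : C.exactVal x U' w = none := by
  unfold exactVal at hn ⊢
  split_ifs at hn with h1
  rw [if_neg]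
  intro h2
  exact h1 fun y hy => h2 y fun i hi => hy i fun hi' => hi (h hi')

theorem tvalE_sound (U : Finset ι) (y : ι → Bool) (hy : ∀ i, i ∉ U → y i = x i)
    (w : ι ⊕ Fin C.size) : C.tvalE E x U w = none ∨ C.tvalE E x U w = some (C.val y w) := by
  refine C.induct (p := fun w => C.tvalE E x U w = none ∨ C.tvalE E x U w = some (C.val y w))
    ?_ ?_ w
  · intro i
    rw [tvalE_inl, C.val_inl, unst]
    split_ifs with h
    · exact Or.inl rfl
    · exact Or.inr (by rw [hy i h])
  · intro g hg
    rw [tvalE_inr]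
    split_ifs with h
    · exact C.exact_sound x U y hy _
    · rw [C.val_inr]
      exact kleene_eq _ _ _ hg

theorem tvalE_none_mono {U U' : Finset ι} (h : U ⊆ U') (w : ι ⊕ Fin C.size) :
    C.tvalE E x U w = none → C.tvalE E x U' w = none := by
  refine C.induct (p := fun w => C.tvalE E x U w = none → C.tvalE E x U' w = none) ?_ ?_ w
  · intro i hi
    rw [tvalE_inl] at hi ⊢
    unfold unst at hi ⊢
    split_ifs at hi with h1
    rw [if_pos (h h1)]
  · intro g hg hn
    rw [tvalE_inr] at hn ⊢
    by_cases hE : g ∈ E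
    · rw [if_pos hE] at hn ⊢
      exact C.exact_none_mono x h _ hn
    · rw [if_neg hE] at hn ⊢
      refine kleene_mono _ _ _ (fun j => ?_) hn
      rcases C.tvalE_sound E x U x (fun _ _ => rfl) (C.src g j) with h1 | h1
      · exact Or.inl (hg j h1)
      · rcases C.tvalE_sound E x U' x (fun _ _ => rfl) (C.src g j) with h2 | h2
        · exact Or.inl h2
        · exact Or.inr (h2.trans h1.symm)

theorem not_isHazardE_empty (k : κ) : ¬ C.IsHazardE E x k ∅ := by
  rintro ⟨-, h⟩
  have key : ∀ w, C.tvalE E x ∅ w = some (C.val x w) := by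
    intro w
    refine C.induct (p := fun w => C.tvalE E x ∅ w = some (C.val x w)) ?_ ?_ w
    · intro i
      rw [C.tvalE_inl, C.val_inl]
      simp [unst]
    · intro g hg
      rw [C.tvalE_inr, C.val_inr]
      by_cases hE : g ∈ E
      · rw [if_pos hE]
        unfold exactVal
        rw [if_pos, C.val_inr]
        intro y hy
        have : y = x := funext fun i => hy i (by simp)
        rw [this]
      · rw [if_neg hE]
        have h1 : ∀ y : Fin (C.ar g) → Bool,
            (∀ j, C.tvalE E x ∅ (C.src g j) = none ∨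
              C.tvalE E x ∅ (C.src g j) = some (y j)) →
            C.op g y = C.op g fun j => C.val x (C.src g j) := by
          intro y hy
          congr 1
          funext j
          rcases hy j with h2 | h2
          · rw [hg j] at h2
            exact absurd h2 (by simp)
          · rw [hg j] at h2
            exact (Option.some.inj h2).symm
        unfold kleene
        rcases hb : C.op g fun j => C.val x (C.src g j) with _ | _
        · rw [if_neg, if_pos]
          · intro y hy
            rw [h1 y hy, hb]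
          · intro h3
            have := h3 (fun j => C.val x (C.src g j)) fun j => Or.inr (hg j)
            rw [hb] at this
            exact absurd this (by simp)
        · rw [if_pos]
          intro y hy
          rw [h1 y hy, hb]
  rw [key] at h
  exact absurd h (by simp)

/-- Outputs with few hazards when the gates in `E` are exact. -/
theorem hazard_boundE [Fintype ι] (N : Finset ι) (K : Finset κ) (A : κ → Finset ι) (d : ℕ)
    {e m : ℕ} (he : 1 ≤ e) (hA : ∀ k ∈ K, e < (A k ∩ N).card)
    (hAA : ∀ S : Finset ι, e < S.card → (K.filter fun k => S ⊆ A k).card ≤ m)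
    (hs : ∀ k ∈ K, ∀ i ∈ A k, C.val (flipAt x i) (C.out k) ≠ C.val x (C.out k))
    (h1 : 1 ≤ d)
    (hd : ∀ k ∈ K, ∀ U ⊆ N, U.card ≤ d → Disjoint U (A k) →
      C.tvalE E x U (C.out k) ≠ none) :
    ∑ k ∈ K, min (A k ∩ N).card (e * (d + 1)) ≤
      e * (m * (∑ g ∈ univ \ E, C.ar g + (d + 1) * E.card)) ∧
      ((∀ g, g ∉ E → C.ar g ≤ 2) →
        ∑ k ∈ K, min ((A k ∩ N).card - e) (e * d) ≤
          e * (m * ((univ \ E).card + d * E.card))) := by
  classical
  have hL : ∀ k ∈ K, L (fun w z => C.tvalE E x (z ∩ N) w = none) (C.out k) = A k ∩ N := by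
    intro k hk
    ext i
    rw [mem_L, mem_inter]
    constructor
    · intro h
      by_cases hiN : i ∈ N
      · refine ⟨?_, hiN⟩
        by_contra hi
        rw [singleton_inter_of_mem hiN] at h
        refine hd k hk {i} (singleton_subset_iff.2 hiN) (by rw [card_singleton]; exact h1) ?_ h
        rwa [disjoint_singleton_left]
      · exfalso
        rw [singleton_inter_of_notMem hiN] at h
        exact hd k hk ∅ (empty_subset _) (by simp) (disjoint_empty_left _) h
    · rintro ⟨hi, hiN⟩
      show C.tvalE E x ({i} ∩ N) (C.out k) = none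
      rw [singleton_inter_of_mem hiN]
      have h2 := C.tvalE_sound E x {i} x (fun _ _ => rfl) (C.out k)
      have h3 := C.tvalE_sound E x {i} (flipAt x i) (fun j hj => by
        unfold flipAt
        rw [Function.update_of_ne (by simpa using hj)]) (C.out k)
      rcases h2 with h2 | h2
      · exact h2
      · rcases h3 with h3 | h3
        · exact h3
        · exfalso
          rw [h2] at h3
          exact hs k hk i hi (Option.some_injective _ h3).symm
  have key := wires_geE (pred := C.pred) (c := fun w z => C.tvalE E x (z ∩ N) w = none)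
    (A := fun k => A k ∩ N) he C.pred_lt
    (fun i z h => by
      by_contra hi
      have hi' : i ∉ z ∩ N := fun h' => hi (mem_inter.1 h').1
      rw [tvalE_inl, unst, if_neg hi'] at h
      exact absurd h (by simp))
    (fun w i z hi h => C.tvalE_none_mono E x
      (inter_subset_inter_right (singleton_subset_iff.2 hi)) w h)
    E K (fun S hS => le_trans (card_le_card fun k hk => by
      rw [mem_filter] at hk ⊢
      exact ⟨hk.1, hk.2.trans inter_subset_left⟩) (hAA S hS))
    hA C.out hL d
    (fun g hg i z _ hw h => by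
      show C.tvalE E x (z ∩ N) (Sum.inr g) = none
      have h' : C.tvalE E x ({i} ∩ N) (Sum.inr g) = none := h
      rw [tvalE_inr, if_neg hg] at h' ⊢
      refine kleene_mono _ _ _ (fun j => ?_) h'
      have h2 := C.tvalE_sound E x (z ∩ N) x (fun _ _ => rfl) (C.src g j)
      rcases h2 with h2 | h2
      · exact Or.inl h2
      · have h3 := C.tvalE_sound E x ({i} ∩ N) x (fun _ _ => rfl) (C.src g j)
        rcases h3 with h3 | h3
        · exact Or.inl (hw _ (C.mem_pred.2 ⟨j, rfl⟩) h3)
        · right
          show C.tvalE E x (z ∩ N) (C.src g j) = C.tvalE E x ({i} ∩ N) (C.src g j)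
          rw [h2, h3])
    (fun k hk z hz hzA => by
      refine hd k hk (z ∩ N) inter_subset_right ((card_le_card inter_subset_left).trans hz) ?_
      rw [disjoint_left] at hzA ⊢
      intro i hi hiA
      rw [mem_inter] at hi
      exact hzA hi.1 (mem_inter.2 ⟨hiA, hi.2⟩))
  refine ⟨key.1.trans (Nat.mul_le_mul_left _ (Nat.mul_le_mul_left _
    (Nat.add_le_add_right (sum_le_sum fun g _ => C.card_pred_le g) _))), fun h2 => ?_⟩
  exact key.2 fun g hg => (C.card_pred_le g).trans (h2 g hg)

end Circuit

end Pool.Agent.Lib_MP_22d2c8_hz
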