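import Pool.Agent.Lib_MP_22d2c8_few.ExactFew

/-!
# Products of polynomials with few hazards although some gates are exact
-/

set_option autoImplicit false

namespace Pool.Agent.Lib_MP_22d2c8_hz

open Finset
open Pool.Agent.HazConv (per partners mem_partners poly_val odd_flip)

/-- **Circuits for the product of polynomials over the field with two elements.** -/
theorem poly_few_exactE {n r M : ℕ} (hr : 1 ≤ r) (hM : 1 ≤ M)
    (hn : 2 ^ 20 * M * r ^ 2 * (Nat.log 2 n + 1) ≤ n) :
    ∃ y : Fin n → Bool, ∀ C : Circuit (Fin n ⊕ Fin n) (Fin (2 * n)), C.MulPoly →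
      ∀ E : Finset (Fin C.size), ∀ x : Fin n → Bool,
      64 * C.hazardsE E x y r ≤ n * M ^ r →
      n * (r + 1) ≤ 8 * (∑ g ∈ univ \ E, C.ar g + (r + 1) * E.card) ∧ ((∀ g, g ∉ E → C.ar g ≤ 2) → n * r ≤ 8 * ((univ \ E).card + r * E.card)) := by
  classical
  obtain ⟨hm1, hm2, hm3⟩ := size_half hr hM hn
  set m := n / 2 with hm
  have hnm : 2 * m ≤ n := Nat.mul_div_le n 2
  obtain ⟨p, hp, hp2, hpm, hpm2⟩ := HazConv2.exists_prime m (by omega)
  have hp3 : 3 ≤ p := by
    have := hp.two_le
    omega
  obtain ⟨hq, hbig⟩ := params_half hr hM hn hp3 hpm2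
  set q := 2 * Nat.log 2 n + 4 with hqdef
  obtain ⟨t, ht1, ht2, ht3, ht4⟩ := Lib_MP_22d2c8_few.exists_s (p := p) (a := q) (M := M)
    (r := r + 1) (by omega) (by nlinarith) hbig
  have htp : t < p := by omega
  have : NeZero m := ⟨by omega⟩
  set T := HazConv2.convSet p m t with hT
  refine ⟨yvec n T, fun C hC E x hsum => ?_⟩
  set y := yvec n T with hy
  -- the grid and the outputs
  have hgridlt : ∀ i : ZMod m, i.val < n := by
    intro i
    have h1 := ZMod.val_lt i
    omega
  set grid : ZMod m → Fin n ⊕ Fin n := fun i => Sum.inl ⟨i.val, hgridlt i⟩ with hgrid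
  have hgridinj : Function.Injective grid := by
    intro i j h
    simp only [hgrid, Sum.inl.injEq, Fin.mk.injEq] at h
    exact ZMod.val_injective m h
  have hidxlt : ∀ k : ZMod m, m + k.val < 2 * n := by
    intro k
    have h1 := ZMod.val_lt k
    omega
  set idx : ZMod m → Fin (2 * n) := fun k => ⟨m + k.val, hidxlt k⟩ with hidx
  have hidxinj : Function.Injective idx := by
    intro i j h
    simp only [hidx, Fin.mk.injEq] at h
    exact ZMod.val_injective m (by omega)
  set A : ZMod m → Finset (Fin n ⊕ Fin n) := fun k => (HazConv2.outSet p m t k).image grid with hA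
  set X0 : Finset (Fin n ⊕ Fin n) := univ.image grid with hX0
  have hmemA : ∀ k i, grid i ∈ A k ↔ k - i ∈ T := by
    intro k i
    rw [hA]
    simp only [mem_image]
    constructor
    · rintro ⟨j, hj, h⟩
      rw [← hgridinj h]
      exact HazConv2.mem_outSet.1 hj
    · intro h
      exact ⟨i, HazConv2.mem_outSet.2 h, rfl⟩
  have hcardA : ∀ k, (A k).card = (p - 1) * t := by
    intro k
    rw [hA]
    simp only
    rw [card_image_of_injective _ hgridinj, HazConv2.card_outSet hp hpm htp]
  -- the partners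
  have hpart : ∀ k, ∀ w ∈ X0, w ∈ partners y (idx k : ℕ) ↔ w ∈ A k := by
    intro k w hw
    obtain ⟨z, -, rfl⟩ := mem_image.1 hw
    rw [hmemA]
    exact mem_partners_yvec hnm T z k ⟨z.val, hgridlt z⟩ rfl
  have hinr : ∀ b, (Sum.inr b : Fin n ⊕ Fin n) ∉ X0 := by
    intro b hb
    obtain ⟨z, -, hz⟩ := mem_image.1 hb
    simp [hgrid] at hz
  have hAX : ∀ k, A k ⊆ X0 := fun k => image_subset_image (subset_univ _)
  set Ko : Finset (Fin (2 * n)) := univ.image idx with hKo
  have hKcard : Ko.card = m := by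
    rw [hKo, card_image_of_injective _ hidxinj, card_univ, ZMod.card]
  -- the inverse of `idx`
  set dec : Fin (2 * n) → ZMod m := Function.invFun idx with hdec
  have hdeci : ∀ k, dec (idx k) = k := Function.leftInverse_invFun hidxinj
  have hmain := C.few_hazards_exactE E (two x y) Ko (fun o => A (dec o)) X0 ?_
    (M := M) (r := r) (t := 2 * t ^ 2) (q := q) (s := (p - 1) * t) hM hr
    (fun k _ => (hcardA _).ge) ?_ ?_ hq ht4 ?_ ?_ ?_ ?_
  · rw [hKcard] at hmain
    constructor
    · calc n * (r + 1) ≤ 4 * m * (r + 1) := Nat.mul_le_mul_right _ hm3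
        _ = 4 * (m * (r + 1)) := by ring
        _ ≤ 4 * (2 * (∑ g ∈ univ \ E, C.ar g + (r + 1) * E.card)) := Nat.mul_le_mul_left _ hmain.1
        _ = 8 * (∑ g ∈ univ \ E, C.ar g + (r + 1) * E.card) := by ring
    · intro har
      calc n * r ≤ 4 * m * r := Nat.mul_le_mul_right _ hm3
        _ = 4 * (m * r) := by ring
        _ ≤ 4 * (2 * ((univ \ E).card + r * E.card)) := Nat.mul_le_mul_left _ (hmain.2 har)
        _ = 8 * ((univ \ E).card + r * E.card) := by ring
  · intro k _
    exact hAX _
  · intro o ho o' ho' hoo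
    obtain ⟨k, -, rfl⟩ := mem_image.1 ho
    obtain ⟨l, -, rfl⟩ := mem_image.1 ho'
    have hkl : k ≠ l := fun h => hoo (by rw [h])
    rw [hdeci, hdeci, hA]
    simp only
    rw [← image_inter _ _ hgridinj, card_image_of_injective _ hgridinj]
    exact HazConv2.card_inter hp hp2 hpm htp hkl
  · rw [hKcard]
    exact Lib_MP_22d2c8_few.num_bound (Nat.div_le_self _ _) le_rfl ht3
  · -- an input of `A k` changes the output
    intro o ho v hv
    obtain ⟨k, -, rfl⟩ := mem_image.1 ho
    rw [hdeci] at hv
    have hvX := hAX k hv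
    have hvB := (hpart k v hvX).2 hv
    have h1 := poly_val hC (flipAt (two x y) v) y (fun b => by
      have hne : (Sum.inr b : Fin n ⊕ Fin n) ≠ v := fun h => hinr b (h ▸ hvX)
      rw [flipAt, Function.update_of_ne hne]
      rfl) (idx k)
    have h2 := poly_val hC (two x y) y (fun b => rfl) (idx k)
    rw [odd_flip _ _ hvB] at h1
    intro hcon
    rw [hcon, h2] at h1
    tauto
  · -- the outputs are constant off `A k`
    intro o ho z hzX hdis hzr x' hx'
    obtain ⟨k, -, rfl⟩ := mem_image.1 ho
    rw [hdeci] at hdis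
    rw [Bool.eq_iff_iff, poly_val hC x' y (fun b => by
      rw [hx' _ fun h => hinr b (hzX h)]
      rfl) (idx k), poly_val hC (two x y) y (fun b => rfl) (idx k)]
    have h7 : (partners y (idx k : ℕ)).filter (fun w => x' w = true) =
        (partners y (idx k : ℕ)).filter (fun w => two x y w = true) := by
      refine filter_congr fun w hw => ?_
      have hwz : w ∉ z := fun hwz =>
        disjoint_left.1 hdis hwz ((hpart k w (hzX hwz)).1 hw)
      rw [hx' w hwz]
    rw [h7]
  · -- the size of the complement of `A k`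
    intro o _
    have h1 : A (dec o) ⊆ X0 := image_subset_image (subset_univ _)
    have h2 : X0.card = m := by
      rw [hX0, card_image_of_injective _ hgridinj, card_univ, ZMod.card]
    rw [card_sdiff_of_subset h1, h2, hcardA]
    have h3 : (p - 1) * t ≤ p ^ 2 := by
      rw [pow_two]
      exact Nat.mul_le_mul (Nat.sub_le _ _) htp.le
    have h4 : M * r ≤ M * r ^ 2 * (Nat.log 2 n + 1) := by
      calc M * r = M * r * 1 := (mul_one _).symm
        _ ≤ M * r * (r * (Nat.log 2 n + 1)) :=
            Nat.mul_le_mul_left _ (Nat.mul_pos (by omega) (by omega))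
        _ = _ := by ring
    have h5 : r ≤ M * r := Nat.le_mul_of_pos_left r (by omega)
    have h6 : 2 * M * r = 2 * (M * r) := by ring
    rw [h6]
    omega
  · -- the number of hazards
    rw [hKcard]
    have hX0b : ∀ z ⊆ X0, ∀ v ∈ z, ∃ b, v = Sum.inl b := by
      intro z hz v hv
      obtain ⟨i, -, rfl⟩ := mem_image.1 (hz hv)
      exact ⟨_, rfl⟩
    have h1 : ∑ o ∈ Ko, (((X0 \ A (dec o)).powersetCard r).filter (C.IsHazardE E (two x y) o)).card ≤
        C.hazardsE E x y r := by
      rw [← card_sigma, Circuit.hazardsE]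
      refine card_le_card_of_injOn (fun u => (u.1, toX u.2)) ?_ ?_
      · rintro ⟨o, z⟩ hu
        obtain ⟨h2, h3⟩ := mem_filter.1 (mem_sigma.1 (mem_coe.1 hu)).2
        obtain ⟨h4, h5⟩ := mem_powersetCard.1 h2
        simp only at h3 h4 h5
        have h6 : z ⊆ X0 := h4.trans sdiff_subset
        refine mem_coe.2 (mem_filter.2 ⟨mem_univ _, ?_, ?_⟩)
        · simp only
          rw [card_toX (hX0b z h6), h5]
        · simp only
          rw [toX_map (hX0b z h6)]
          exact h3
      · rintro ⟨o, z⟩ hu ⟨o', z'⟩ hu' h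
        have h2 := (mem_powersetCard.1 (mem_filter.1 (mem_sigma.1 (mem_coe.1 hu)).2).1).1
        have h2' := (mem_powersetCard.1 (mem_filter.1 (mem_sigma.1 (mem_coe.1 hu')).2).1).1
        simp only at h2 h2'
        simp only [Prod.mk.injEq] at h
        obtain ⟨h7, h8⟩ := h
        have h9 : z = z' := by
          rw [← toX_map (hX0b z (h2.trans sdiff_subset)),
            ← toX_map (hX0b z' (h2'.trans sdiff_subset)), h8]
        rw [h7, h9]
    have h2 : 4 * (16 * ∑ o ∈ Ko,
        (((X0 \ A (dec o)).powersetCard r).filter (C.IsHazardE E (two x y) o)).card) ≤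
          4 * (m * M ^ r) := by
      calc 4 * (16 * ∑ o ∈ Ko,
            (((X0 \ A (dec o)).powersetCard r).filter (C.IsHazardE E (two x y) o)).card)
          ≤ 4 * (16 * C.hazardsE E x y r) :=
            Nat.mul_le_mul_left _ (Nat.mul_le_mul_left _ h1)
        _ = 64 * C.hazardsE E x y r := by ring
        _ ≤ n * M ^ r := hsum
        _ ≤ 4 * m * M ^ r := Nat.mul_le_mul_right _ hm3
        _ = 4 * (m * M ^ r) := by ring
    exact Nat.le_of_mul_le_mul_left h2 (by omega)

end Pool.Agent.Lib_MP_22d2c8_hz
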