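import Pool.Agent.Lib_MP_22d2c8_few.ExactMul
import Pool.Agent.Lib_MP_22d2c8_few.ExactPoly
import Pool.Agent.Lib_MP_22d2c8_hz.Uniform

/-!
# Cancelling gates

A gate cancels at an input with a set of unstable variables if its value does not depend on these
variables although the Kleene rule, applied to the exact values of its sources, does not see this.
Every circuit of linear size for multiplication has many cancelling gates.
-/

set_option autoImplicit false

namespace Pool.Agent.Lib_MP_22d2c8_hz

open Finset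

namespace Circuit

theorem exact_inl {ι κ : Type} [DecidableEq ι] (C : Circuit ι κ) (x : ι → Bool) (U : Finset ι)
    (i : ι) : C.exactVal x U (Sum.inl i) = unst x U i := by
  by_cases hi : i ∈ U
  · have h1 : unst x U i = none := by rw [unst, if_pos hi]
    rw [h1]
    by_contra h
    have h2 := C.exact_ne_none.1 h (flipAt x i) (fun j hj => by
      rw [flipAt, Function.update_of_ne fun hji => hj (by rw [hji]; exact hi)])
    rw [C.val_inl, C.val_inl, flipAt, Function.update_self] at h2
    cases hx : x i <;> rw [hx] at h2 <;> exact absurd h2 (by simp)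
  · have h1 : unst x U i = some (x i) := by rw [unst, if_neg hi]
    rw [h1]
    have h2 : C.exactVal x U (Sum.inl i) ≠ none := C.exact_ne_none.2 fun y hy => by
      rw [C.val_inl, C.val_inl, hy i hi]
    rcases C.exact_sound x U x (fun _ _ => rfl) (Sum.inl i) with h3 | h3
    · exact absurd h3 h2
    · rw [h3, C.val_inl]

/-- If all gates that cancel are exact then all ternary values are exact. -/
theorem tvalE_eq_exact {ι κ : Type} [DecidableEq ι] (C : Circuit ι κ) (E : Finset (Fin C.size))
    (x : ι → Bool) (U : Finset ι) (h : ∀ g, C.Cancels x U g → g ∈ E) (w : ι ⊕ Fin C.size) :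
    C.tvalE E x U w = C.exactVal x U w := by
  refine C.induct (p := fun w => C.tvalE E x U w = C.exactVal x U w) ?_ ?_ w
  · intro i
    rw [C.tvalE_inl, C.exact_inl]
  · intro g hg
    rw [C.tvalE_inr]
    split_ifs with hE
    · rfl
    · have h1 : (fun j => C.tvalE E x U (C.src g j)) = fun j => C.exactVal x U (C.src g j) :=
        funext hg
      rw [h1]
      have h2 : kleene (C.op g) (fun j => C.exactVal x U (C.src g j)) = none ∨
          kleene (C.op g) (fun j => C.exactVal x U (C.src g j)) =
            some (C.val x (Sum.inr g)) := by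
        rw [C.val_inr]
        exact kleene_eq _ _ _ fun j => C.exact_sound x U x (fun _ _ => rfl) _
      rcases h2 with h2 | h2
      · rw [h2]
        by_contra h3
        exact hE (h g ⟨fun h4 => h3 h4.symm, h2⟩)
      · rw [h2]
        have h3 : C.exactVal x U (Sum.inr g) ≠ none := C.exact_ne_none.2 fun y hy => by
          have h4 : kleene (C.op g) (fun j => C.exactVal x U (C.src g j)) = none ∨
              kleene (C.op g) (fun j => C.exactVal x U (C.src g j)) =
                some (C.val y (Sum.inr g)) := by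
            rw [C.val_inr]
            exact kleene_eq _ _ _ fun j => C.exact_sound x U y hy _
          rcases h4 with h4 | h4
          · rw [h2] at h4
            exact absurd h4 (by simp)
          · rw [h2] at h4
            exact (Option.some.inj h4).symm
        rcases C.exact_sound x U x (fun _ _ => rfl) (Sum.inr g) with h4 | h4
        · exact absurd h4 h3
        · exact h4.symm

theorem not_isHazardE_of_cancels {ι κ : Type} [DecidableEq ι] (C : Circuit ι κ)
    (E : Finset (Fin C.size)) (x : ι → Bool) (k : κ) (U : Finset ι)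
    (h : ∀ g, C.Cancels x U g → g ∈ E) : ¬ C.IsHazardE E x k U := by
  rintro ⟨h1, h2⟩
  rw [C.tvalE_eq_exact E x U h] at h2
  exact h1 h2

/-- The hazards that remain when the gates in `E` are exact come from the other cancelling gates. -/
theorem hazardsE_le {n : ℕ} (C : Circuit (Fin n ⊕ Fin n) (Fin (2 * n))) (E : Finset (Fin C.size))
    (x y : Fin n → Bool) (r : ℕ) :
    C.hazardsE E x y r ≤ 2 * n * ∑ g ∈ univ \ E, (C.cancels x y r g).card := by
  classical
  calc C.hazardsE E x y r ≤ ((univ : Finset (Fin (2 * n))) ×ˢ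
        ((univ \ E).biUnion fun g => C.cancels x y r g)).card := by
        refine card_le_card ?_
        rintro ⟨k, U⟩ hq
        obtain ⟨-, h1, h2⟩ := mem_filter.1 hq
        refine mem_product.2 ⟨mem_univ _, mem_biUnion.2 ?_⟩
        by_contra hcon
        push Not at hcon
        refine C.not_isHazardE_of_cancels E _ _ _ (fun g hg => ?_) h2
        by_contra hgE
        exact hcon g (mem_sdiff.2 ⟨mem_univ _, hgE⟩) (mem_filter.2 ⟨mem_univ _, h1, hg⟩)
    _ = 2 * n * ((univ \ E).biUnion fun g => C.cancels x y r g).card := by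
        rw [card_product, card_univ, Fintype.card_fin]
    _ ≤ _ := Nat.mul_le_mul_left _ card_biUnion_le

/-- If the gates that cancel often are exact then few hazards remain. -/
theorem hazardsE_heavy {n : ℕ} (C : Circuit (Fin n ⊕ Fin n) (Fin (2 * n))) (x y : Fin n → Bool)
    (r c M : ℕ) :
    c * C.hazardsE (univ.filter fun g => M ^ r ≤ 2 * c * C.size * (C.cancels x y r g).card)
      x y r ≤ n * M ^ r := by
  classical
  set E : Finset (Fin C.size) :=
    univ.filter fun g => M ^ r ≤ 2 * c * C.size * (C.cancels x y r g).card with hE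
  have h1 := C.hazardsE_le E x y r
  have h2 : 2 * c * ∑ g ∈ univ \ E, (C.cancels x y r g).card ≤ M ^ r := by
    rcases Nat.eq_zero_or_pos C.size with h0 | h0
    · have h3 : (univ : Finset (Fin C.size)) \ E = ∅ := by
        rw [← card_eq_zero]
        have := card_le_univ ((univ : Finset (Fin C.size)) \ E)
        rw [Fintype.card_fin] at this
        omega
      rw [h3]
      simp
    · refine Nat.le_of_mul_le_mul_left ?_ h0
      calc C.size * (2 * c * ∑ g ∈ univ \ E, (C.cancels x y r g).card)
          = ∑ g ∈ univ \ E, 2 * c * C.size * (C.cancels x y r g).card := by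
            rw [← mul_sum]
            ring
        _ ≤ ∑ g ∈ univ \ E, M ^ r := by
            refine sum_le_sum fun g hg => ?_
            by_contra h
            exact (mem_sdiff.1 hg).2 (mem_filter.2 ⟨mem_univ _, by omega⟩)
        _ = (univ \ E).card * M ^ r := by rw [sum_const, smul_eq_mul]
        _ ≤ C.size * M ^ r := Nat.mul_le_mul_right _ (by
            have := card_le_univ ((univ : Finset (Fin C.size)) \ E)
            rwa [Fintype.card_fin] at this)
  calc c * C.hazardsE E x y r ≤ c * (2 * n * ∑ g ∈ univ \ E, (C.cancels x y r g).card) :=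
        Nat.mul_le_mul_left _ h1
    _ = n * (2 * c * ∑ g ∈ univ \ E, (C.cancels x y r g).card) := by ring
    _ ≤ n * M ^ r := Nat.mul_le_mul_left _ h2

theorem sum_ar_le {ι κ : Type} (C : Circuit ι κ) (E : Finset (Fin C.size)) :
    ∑ g ∈ univ \ E, C.ar g ≤ C.wires :=
  sum_le_sum_of_subset (subset_univ _)

end Circuit

/-- **Multiplication of integers: exact gates.** -/
theorem mul_few_mostE {n r M : ℕ} (hr : 1 ≤ r) (hM : 1 ≤ M)
    (hn : 2 ^ 20 * M * r ^ 2 * (Nat.log 2 n + 1) * (Nat.log 2 r + 6) ≤ n) :
    ∃ (y : Fin n → Bool) (G : Finset (Fin n → Bool)), 3 * 2 ^ n ≤ 4 * G.card ∧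
      ∀ C : Circuit (Fin n ⊕ Fin n) (Fin (2 * n)), C.MulNat →
        ∀ E : Finset (Fin C.size), ∀ x ∈ G,
        128 * (Nat.log 2 r + 6) * C.hazardsE E x y r ≤ n * M ^ r →
          n * (r + 1) ≤ 16 * (Nat.log 2 r + 6) *
              (∑ g ∈ univ \ E, C.ar g + (r + 1) * E.card) ∧
            ((∀ g, g ∉ E → C.ar g ≤ 2) →
              n * r ≤ 16 * (Nat.log 2 r + 6) * ((univ \ E).card + r * E.card)) := by
  classical
  have key := mul_few_atE hr hM hn
  have hrL : 32 * r ≤ 2 ^ (Nat.log 2 r + 6) := by
    have h1 : r < 2 ^ (Nat.log 2 r + 1) := Nat.lt_pow_succ_log_self (by norm_num) r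
    have h2 : 2 ^ (Nat.log 2 r + 6) = 2 ^ (Nat.log 2 r + 1) * 32 := by
      rw [show Nat.log 2 r + 6 = (Nat.log 2 r + 1) + 5 by omega, pow_add]
      rfl
    omega
  have hL6 : 6 ≤ Nat.log 2 r + 6 := by omega
  generalize Nat.log 2 r + 6 = L at key hn hrL hL6 ⊢
  obtain ⟨T, hT, h⟩ := key
  have hm : 0 < n / (2 * L) := by
    refine Nat.div_pos ?_ (by omega)
    have h1 : 1 ≤ M * r ^ 2 * (Nat.log 2 n + 1) :=
      Nat.mul_pos (Nat.mul_pos hM (by positivity)) (by omega)
    calc 2 * L ≤ 2 ^ 20 * (1 * L) := by omega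
      _ ≤ 2 ^ 20 * (M * r ^ 2 * (Nat.log 2 n + 1) * L) :=
        Nat.mul_le_mul_left _ (Nat.mul_le_mul_right _ h1)
      _ = 2 ^ 20 * M * r ^ 2 * (Nat.log 2 n + 1) * L := by ring
      _ ≤ n := hn
  have : NeZero (n / (2 * L)) := ⟨hm.ne'⟩
  refine ⟨ybits n L T, univ.filter fun x : Fin n → Bool =>
    n / (2 * L) ≤ 2 * (goodOuts L (n / (2 * L)) r (num x * num (ybits n L T))).card,
    most_good (by omega) (Nat.mul_div_le n (2 * L)) hrL T hT, fun C hC E x hx => ?_⟩
  refine h C hC E x ?_
  have h1 := (mem_filter.1 hx).2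
  have h2 : goodOuts L (n / (2 * L)) r (num x * num (ybits n L T)) =
      (Ico (n / (2 * L)) (2 * (n / (2 * L)))).filter
        (GoodBlock L r (num x * num (ybits n L T))) := by
    ext k
    simp only [goodOuts, GoodBlock, mem_filter]
  rw [← h2]
  exact h1

/-- **Multiplication of integers: cancelling gates.** At `3/4` of all inputs many gates cancel. -/
theorem mul_cancel_most {n r M : ℕ} (hr : 1 ≤ r) (hM : 1 ≤ M)
    (hn : 2 ^ 20 * M * r ^ 2 * (Nat.log 2 n + 1) * (Nat.log 2 r + 6) ≤ n) :
    ∃ (y : Fin n → Bool) (G : Finset (Fin n → Bool)), 3 * 2 ^ n ≤ 4 * G.card ∧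
      ∀ C : Circuit (Fin n ⊕ Fin n) (Fin (2 * n)), C.MulNat → ∀ x ∈ G,
        n * (r + 1) ≤ 16 * (Nat.log 2 r + 6) * (C.wires + (r + 1) *
          (univ.filter fun g : Fin C.size =>
            M ^ r ≤ 256 * (Nat.log 2 r + 6) * C.size * (C.cancels x y r g).card).card) := by
  classical
  obtain ⟨y, G, hG, h⟩ := mul_few_mostE hr hM hn
  refine ⟨y, G, hG, fun C hC x hx => ?_⟩
  have h1 := (h C hC (univ.filter fun g : Fin C.size =>
    M ^ r ≤ 2 * (128 * (Nat.log 2 r + 6)) * C.size * (C.cancels x y r g).card) x hx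
    (C.hazardsE_heavy x y r (128 * (Nat.log 2 r + 6)) M)).1
  rw [show 2 * (128 * (Nat.log 2 r + 6)) = 256 * (Nat.log 2 r + 6) by ring] at h1
  exact h1.trans (Nat.mul_le_mul_left _ (Nat.add_le_add_right (C.sum_ar_le _) _))

/-- **Products of polynomials: cancelling gates.** At every input many gates cancel. -/
theorem poly_cancel {n r M : ℕ} (hr : 1 ≤ r) (hM : 1 ≤ M)
    (hn : 2 ^ 20 * M * r ^ 2 * (Nat.log 2 n + 1) ≤ n) :
    ∃ y : Fin n → Bool, ∀ C : Circuit (Fin n ⊕ Fin n) (Fin (2 * n)), C.MulPoly →
      ∀ x : Fin n → Bool,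
        n * (r + 1) ≤ 8 * (C.wires + (r + 1) *
          (univ.filter fun g : Fin C.size =>
            M ^ r ≤ 128 * C.size * (C.cancels x y r g).card).card) := by
  classical
  obtain ⟨y, h⟩ := poly_few_exactE hr hM hn
  refine ⟨y, fun C hC x => ?_⟩
  have h1 := (h C hC (univ.filter fun g : Fin C.size =>
    M ^ r ≤ 2 * 64 * C.size * (C.cancels x y r g).card) x
    (C.hazardsE_heavy x y r 64 M)).1
  exact h1.trans (Nat.mul_le_mul_left _ (Nat.add_le_add_right (C.sum_ar_le _) _))

end Pool.Agent.Lib_MP_22d2c8_hz
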