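import Pool.Agent.Lib_MP_22d2c8_few.Exact

/-!
# Few hazards with exceptional gates, a general family of sets
-/

set_option autoImplicit false

namespace Pool.Agent.Lib_MP_22d2c8_hz

open Finset

/-- **Few hazards, a general family of sets.** -/
theorem Circuit.few_hazards_disjointE {ι κ : Type} [Fintype ι] [DecidableEq ι] [DecidableEq κ]
    (C : Circuit ι κ) (E : Finset (Fin C.size)) (x : ι → Bool) (K : Finset κ)
    (A : κ → Finset ι) (X0 : Finset ι)
    (hAX : ∀ k ∈ K, A k ⊆ X0) {M r t q s : ℕ} (hM : 1 ≤ M) (hr : 1 ≤ r)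
    (hs : ∀ k ∈ K, s ≤ (A k).card) (ht : ∀ k ∈ K, ∀ l ∈ K, k ≠ l → (A k ∩ A l).card ≤ t)
    (hnum : 4 * K.card ^ 2 * t.choose q ≤ M ^ q) (hq : 32 ≤ q) (hbig : 2 * (q * M) * (r + 1) < s)
    (hA : ∀ k ∈ K, ∀ i ∈ A k, C.val (flipAt x i) (C.out k) ≠ C.val x (C.out k))
    (hconst : ∀ k ∈ K, ∀ U ⊆ X0, Disjoint U (A k) → U.card ≤ r → ∀ y : ι → Bool,
      (∀ i, i ∉ U → y i = x i) → C.val y (C.out k) = C.val x (C.out k))
    (H : κ → Finset (Finset ι))
    (hH : ∀ k ∈ K, ∀ U ⊆ X0, Disjoint U (A k) → U.card ≤ r → C.IsHazardE E x k U → U ∈ H k)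
    (hsum : ∑ k ∈ K, ∑ z ∈ H k, (1 / (M : ℝ)) ^ z.card ≤ (K.card : ℝ) / 8) :
    K.card * (r + 1) ≤ 2 * (∑ g ∈ univ \ E, C.ar g + (r + 1) * E.card) ∧ ((∀ g, g ∉ E → C.ar g ≤ 2) → K.card * r ≤ 2 * ((univ \ E).card + r * E.card)) := by
  classical
  have h64 : 64 * M ≤ s := by
    have h1 : 32 * M ≤ q * M := Nat.mul_le_mul_right _ hq
    have h2 : 2 * (q * M) * 1 ≤ 2 * (q * M) * (r + 1) := Nat.mul_le_mul_left _ (by omega)
    omega
  obtain ⟨N, K', hK', hcard, hint, hbigN, hno⟩ :=
    Lib_MP_22d2c8_few.exists_good hM K A H hs ht hnum h64 hsum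
  have hAN : ∀ k ∈ K', (A k ∩ N) ∩ (N ∩ X0) = N ∩ A k := by
    intro k hk
    ext i
    simp only [mem_inter]
    constructor
    · rintro ⟨⟨h1, h2⟩, -⟩
      exact ⟨h2, h1⟩
    · rintro ⟨h1, h2⟩
      exact ⟨⟨h2, h1⟩, h1, hAX k (hK' hk) h2⟩
  have hlarge : ∀ k ∈ K', q * (r + 1) < (N ∩ A k).card := by
    intro k hk
    have h2 := hbigN k hk
    have h3 : 2 * M * (q * (r + 1)) < 2 * M * (N ∩ A k).card := by
      calc 2 * M * (q * (r + 1)) = 2 * (q * M) * (r + 1) := by ring
        _ < s := hbig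
        _ ≤ _ := h2
    exact Nat.lt_of_mul_lt_mul_left h3
  have hmain := C.hazard_boundE E x (N ∩ X0) K' (fun k => A k ∩ N) r (e := q) (m := 1)
    (by omega) ?_ ?_ ?_ hr ?_
  · obtain ⟨h1, h2⟩ := hmain
    have hq0 : 0 < q := by omega
    constructor
    · have h3 : K'.card * (q * (r + 1)) ≤ q * (1 * (∑ g ∈ univ \ E, C.ar g + (r + 1) * E.card)) := by
        refine le_trans ?_ h1
        rw [← smul_eq_mul, ← sum_const]
        refine sum_le_sum fun k hk => ?_
        rw [hAN k hk]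
        exact le_min (hlarge k hk).le le_rfl
      have h4 : q * (K'.card * (r + 1)) ≤ q * (∑ g ∈ univ \ E, C.ar g + (r + 1) * E.card) := by
        calc q * (K'.card * (r + 1)) = K'.card * (q * (r + 1)) := by ring
          _ ≤ q * (1 * (∑ g ∈ univ \ E, C.ar g + (r + 1) * E.card)) := h3
          _ = q * (∑ g ∈ univ \ E, C.ar g + (r + 1) * E.card) := by ring
      have h5 : K'.card * (r + 1) ≤ (∑ g ∈ univ \ E, C.ar g + (r + 1) * E.card) := Nat.le_of_mul_le_mul_left h4 hq0
      calc K.card * (r + 1) ≤ 2 * K'.card * (r + 1) := Nat.mul_le_mul_right _ hcard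
        _ = 2 * (K'.card * (r + 1)) := by ring
        _ ≤ 2 * (∑ g ∈ univ \ E, C.ar g + (r + 1) * E.card) := Nat.mul_le_mul_left _ h5
    · intro har
      have h3 : K'.card * (q * r) ≤ q * (1 * ((univ \ E).card + r * E.card)) := by
        refine le_trans ?_ (h2 har)
        rw [← smul_eq_mul, ← sum_const]
        refine sum_le_sum fun k hk => ?_
        rw [hAN k hk]
        refine le_min ?_ le_rfl
        have h6 := hlarge k hk
        have h7 : q * (r + 1) = q * r + q := by ring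
        omega
      have h4 : q * (K'.card * r) ≤ q * ((univ \ E).card + r * E.card) := by
        calc q * (K'.card * r) = K'.card * (q * r) := by ring
          _ ≤ q * (1 * ((univ \ E).card + r * E.card)) := h3
          _ = q * ((univ \ E).card + r * E.card) := by ring
      have h5 : K'.card * r ≤ ((univ \ E).card + r * E.card) := Nat.le_of_mul_le_mul_left h4 hq0
      calc K.card * r ≤ 2 * K'.card * r := Nat.mul_le_mul_right _ hcard
        _ = 2 * (K'.card * r) := by ring
        _ ≤ 2 * ((univ \ E).card + r * E.card) := Nat.mul_le_mul_left _ h5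
  · intro k hk
    rw [hAN k hk]
    have h6 := hlarge k hk
    have h7 : q * (r + 1) = q * r + q := by ring
    omega
  · intro S hS
    rw [card_le_one]
    intro k hk l hl
    by_contra hkl
    obtain ⟨hk1, hk2⟩ := mem_filter.1 hk
    obtain ⟨hl1, hl2⟩ := mem_filter.1 hl
    have h1 : S ⊆ N ∩ (A k ∩ A l) := fun i hi => by
      have h2 := mem_inter.1 (hk2 hi)
      have h3 := mem_inter.1 (hl2 hi)
      exact mem_inter.2 ⟨h2.2, mem_inter.2 ⟨h2.1, h3.1⟩⟩
    have := card_le_card h1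
    have := hint k hk1 l hl1 hkl
    omega
  · intro k hk i hi
    exact hA k (hK' hk) i (mem_inter.1 hi).1
  · intro k hk U hU hUr hdis hu
    have h1 : U ⊆ X0 := hU.trans inter_subset_right
    have h2 : U ⊆ N := hU.trans inter_subset_left
    have h3 : Disjoint U (A k) := by
      rw [disjoint_left]
      intro i hi hi'
      exact disjoint_left.1 hdis hi (mem_inter.2 ⟨hi', h2 hi⟩)
    exact hno k hk U (hH k (hK' hk) U h1 h3 hUr
      ⟨C.exact_ne_none.2 (hconst k (hK' hk) U h1 h3 hUr), hu⟩) h2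

open Classical in
/-- **Few hazards with exactly `r` unstable inputs, a general family of sets.** -/
theorem Circuit.few_hazards_exactE {ι κ : Type} [Fintype ι] [DecidableEq ι] [DecidableEq κ]
    (C : Circuit ι κ) (E : Finset (Fin C.size)) (x : ι → Bool) (K : Finset κ)
    (A : κ → Finset ι) (X0 : Finset ι)
    (hAX : ∀ k ∈ K, A k ⊆ X0) {M r t q s : ℕ} (hM : 1 ≤ M) (hr : 1 ≤ r)
    (hs : ∀ k ∈ K, s ≤ (A k).card) (ht : ∀ k ∈ K, ∀ l ∈ K, k ≠ l → (A k ∩ A l).card ≤ t)
    (hnum : 4 * K.card ^ 2 * t.choose q ≤ M ^ q) (hq : 32 ≤ q) (hbig : 2 * (q * M) * (r + 1) < s)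
    (hA : ∀ k ∈ K, ∀ i ∈ A k, C.val (flipAt x i) (C.out k) ≠ C.val x (C.out k))
    (hconst : ∀ k ∈ K, ∀ U ⊆ X0, Disjoint U (A k) → U.card ≤ r → ∀ y : ι → Bool,
      (∀ i, i ∉ U → y i = x i) → C.val y (C.out k) = C.val x (C.out k))
    (hX : ∀ k ∈ K, 2 * M * r + r ≤ (X0 \ A k).card)
    (hsum : 16 * ∑ k ∈ K, (((X0 \ A k).powersetCard r).filter (C.IsHazardE E x k)).card ≤
      K.card * M ^ r) :
    K.card * (r + 1) ≤ 2 * (∑ g ∈ univ \ E, C.ar g + (r + 1) * E.card) ∧ ((∀ g, g ∉ E → C.ar g ≤ 2) → K.card * r ≤ 2 * ((univ \ E).card + r * E.card)) := by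
  have hM0 : (0 : ℝ) < (M : ℝ) := by exact_mod_cast hM
  refine C.few_hazards_disjointE E x K A X0 hAX hM hr hs ht hnum hq hbig hA hconst
    (fun k => (X0 \ A k).powerset.filter fun z => z.card ≤ r ∧ C.IsHazardE E x k z) ?_ ?_
  · intro k hk U hU hdis hUr hz
    refine mem_filter.2 ⟨mem_powerset.2 ?_, hUr, hz⟩
    intro i hi
    exact mem_sdiff.2 ⟨hU hi, fun h => disjoint_left.1 hdis hi h⟩
  · have h1 : ∀ k ∈ K, ∑ z ∈ (X0 \ A k).powerset.filter
        (fun z => z.card ≤ r ∧ C.IsHazardE E x k z), (1 / (M : ℝ)) ^ z.card ≤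
        2 * ((((X0 \ A k).powersetCard r).filter (C.IsHazardE E x k)).card : ℝ) *
          (1 / (M : ℝ)) ^ r := by
      intro k hk
      refine le_trans (le_of_eq ?_) (upset_sum (X0 \ A k) (C.IsHazardE E x k) hr hM ?_ (hX k hk))
      · rw [← sum_fiberwise_of_maps_to (s := (X0 \ A k).powerset.filter
          (fun z => z.card ≤ r ∧ C.IsHazardE E x k z)) (t := Icc 1 r)
          (g := fun z => z.card) ?_]
        · refine sum_congr rfl fun i hi => ?_
          have h2 : ((X0 \ A k).powerset.filter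
              (fun z => z.card ≤ r ∧ C.IsHazardE E x k z)).filter (fun z => z.card = i) =
              ((X0 \ A k).powersetCard i).filter (C.IsHazardE E x k) := by
            ext z
            rw [mem_Icc] at hi
            simp only [mem_filter, mem_powerset, mem_powersetCard]
            constructor
            · rintro ⟨⟨h3, h4, h5⟩, h6⟩
              exact ⟨⟨h3, h6⟩, h5⟩
            · rintro ⟨⟨h3, h6⟩, h5⟩
              exact ⟨⟨h3, by omega, h5⟩, h6⟩
          rw [h2, sum_congr rfl (fun z hz => by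
            rw [(mem_powersetCard.1 (mem_filter.1 hz).1).2] :
            ∀ z ∈ ((X0 \ A k).powersetCard i).filter (C.IsHazardE E x k),
              (1 / (M : ℝ)) ^ z.card = (1 / (M : ℝ)) ^ i), sum_const, nsmul_eq_mul]
        · intro z hz
          obtain ⟨-, h3, h4⟩ := mem_filter.1 hz
          rw [mem_Icc]
          refine ⟨?_, h3⟩
          rw [Nat.one_le_iff_ne_zero]
          intro h5
          rw [card_eq_zero] at h5
          rw [h5] at h4
          exact C.not_isHazardE_empty E _ _ h4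
      · intro z hz hzr hzh v hv hvz
        have h3 : ∀ w, w ∈ insert v z → w ∈ X0 \ A k := by
          intro w hw
          rcases mem_insert.1 hw with rfl | h
          · exact hv
          · exact hz h
        refine ⟨C.exact_ne_none.2
          (hconst k hk (insert v z) (fun w hw => (mem_sdiff.1 (h3 w hw)).1) ?_ ?_),
          C.tvalE_none_mono E x (subset_insert _ _) _ hzh.2⟩
        · rw [disjoint_left]
          exact fun w hw => (mem_sdiff.1 (h3 w hw)).2
        · rw [card_insert_of_notMem hvz]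
          omega
    refine (sum_le_sum h1).trans ?_
    rw [← sum_mul, ← mul_sum]
    have h2 : (16 : ℝ) * ∑ k ∈ K,
        ((((X0 \ A k).powersetCard r).filter (C.IsHazardE E x k)).card : ℝ) ≤
          K.card * (M : ℝ) ^ r := by exact_mod_cast hsum
    have h3 : (1 / (M : ℝ)) ^ r * (M : ℝ) ^ r = 1 := by
      rw [← mul_pow, one_div, inv_mul_cancel₀ hM0.ne', one_pow]
    have h4 : (0 : ℝ) ≤ (1 / (M : ℝ)) ^ r := by positivity
    nlinarith

end Pool.Agent.Lib_MP_22d2c8_hz
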