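import Pool.Agent.Lib_MP_22d2c8_few.ExactFew

/-!
# Multiplication with few hazards although some gates are exact
-/

set_option autoImplicit false

namespace Pool.Agent.Lib_MP_22d2c8_hz

open Finset

open Classical in
/-- **Circuits for integer multiplication with few hazards at an input with many good blocks.** -/
theorem mul_few_atE {n r M : ℕ} (hr : 1 ≤ r) (hM : 1 ≤ M)
    (hn : 2 ^ 20 * M * r ^ 2 * (Nat.log 2 n + 1) * (Nat.log 2 r + 6) ≤ n) :
    ∃ T : Finset (ZMod (n / (2 * (Nat.log 2 r + 6)))), T.Nonempty ∧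
      ∀ C : Circuit (Fin n ⊕ Fin n) (Fin (2 * n)), C.MulNat →
      ∀ E : Finset (Fin C.size), ∀ x : Fin n → Bool,
      n / (2 * (Nat.log 2 r + 6)) ≤ 2 * ((Ico (n / (2 * (Nat.log 2 r + 6)))
        (2 * (n / (2 * (Nat.log 2 r + 6))))).filter
          (GoodBlock (Nat.log 2 r + 6) r
            (num x * num (ybits n (Nat.log 2 r + 6) T)))).card →
      128 * (Nat.log 2 r + 6) * C.hazardsE E x (ybits n (Nat.log 2 r + 6) T) r ≤ n * M ^ r →
      n * (r + 1) ≤ 16 * (Nat.log 2 r + 6) * (∑ g ∈ univ \ E, C.ar g + (r + 1) * E.card) ∧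
        ((∀ g, g ∉ E → C.ar g ≤ 2) → n * r ≤ 16 * (Nat.log 2 r + 6) * ((univ \ E).card + r * E.card)) := by
  classical
  have hL1 : 1 ≤ Nat.log 2 r + 6 := by omega
  obtain ⟨hm1, hm2, hm3⟩ := size_gen hL1 hr hM hn
  have hpar := fun p => params_gen (p := p) hL1 hr hM hn
  set L := Nat.log 2 r + 6 with hL
  set m := n / (2 * L) with hm
  have hrL : r < 2 ^ L :=
    lt_of_lt_of_le (Nat.lt_pow_succ_log_self (by norm_num) r)
      (Nat.pow_le_pow_right (by norm_num) (by omega))
  have hnm : 2 * L * m ≤ n := Nat.mul_div_le n (2 * L)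
  obtain ⟨p, hp, hp2, hpm, hpm2⟩ := HazConv2.exists_prime m (by omega)
  have hp3 : 3 ≤ p := by
    have := hp.two_le
    omega
  obtain ⟨hq, hbig⟩ := hpar p hp3 hpm2
  set q := 2 * Nat.log 2 n + 4 with hqdef
  obtain ⟨t, ht1, ht2, ht3, ht4⟩ := Lib_MP_22d2c8_few.exists_s (p := p) (a := q) (M := M)
    (r := r + 1) (by omega) (by nlinarith) hbig
  have htp : t < p := by omega
  have : NeZero m := ⟨by omega⟩
  set T := HazConv2.convSet p m t with hT
  refine ⟨T, ?_, fun C hC E x hgood hsum => ?_⟩
  · rw [← card_pos, hT, HazConv2.card_convSet hp hpm htp]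
    exact Nat.mul_pos (by omega) (by omega)
  set y := ybits n L T with hy
  -- the grid and the outputs
  have hgridlt : ∀ i : ZMod m, L * i.val < n := by
    intro i
    have h1 := ZMod.val_lt i
    have h2 : L * i.val < L * m := Nat.mul_lt_mul_of_pos_left h1 (by omega)
    nlinarith
  set grid : ZMod m → Fin n ⊕ Fin n := fun i => Sum.inl ⟨L * i.val, hgridlt i⟩ with hgrid
  have hgridinj : Function.Injective grid := by
    intro i j h
    simp only [hgrid, Sum.inl.injEq, Fin.mk.injEq] at h
    exact ZMod.val_injective m (Nat.eq_of_mul_eq_mul_left (by omega) h)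
  have hidxlt : ∀ k : ZMod m, L * (m + k.val) < 2 * n := by
    intro k
    have h1 := ZMod.val_lt k
    have h2 : L * (m + k.val) < L * (2 * m) := Nat.mul_lt_mul_of_pos_left (by omega) (by omega)
    nlinarith
  set idx : ZMod m → Fin (2 * n) := fun k => ⟨L * (m + k.val), hidxlt k⟩ with hidx
  have hidxinj : Function.Injective idx := by
    intro i j h
    simp only [hidx, Fin.mk.injEq] at h
    have h1 := Nat.eq_of_mul_eq_mul_left (by omega) h
    exact ZMod.val_injective m (by omega)
  set A : ZMod m → Finset (Fin n ⊕ Fin n) := fun k => (HazConv2.outSet p m t k).image grid with hA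
  set X0 : Finset (Fin n ⊕ Fin n) := univ.image grid with hX0
  set x0 : Fin n ⊕ Fin n → Bool := two x y with hx0
  -- the good outputs
  set Gd : Finset (ZMod m) := univ.filter fun k =>
    GoodBlock L r (num x * num y) (m + k.val) with hGd
  have hGdcard : m ≤ 2 * Gd.card := by
    refine hgood.trans (Nat.mul_le_mul_left _ ?_)
    refine card_le_card_of_injOn (fun j => ((j - m : ℕ) : ZMod m)) ?_ ?_
    · intro j hj
      obtain ⟨h1, h2⟩ := mem_filter.1 (mem_coe.1 hj)
      rw [mem_Ico] at h1
      refine mem_coe.2 (mem_filter.2 ⟨mem_univ _, ?_⟩)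
      have h3 : m + ((j - m : ℕ) : ZMod m).val = j := by
        rw [ZMod.val_natCast, Nat.mod_eq_of_lt (by omega)]
        omega
      rw [h3]
      exact h2
    · intro j hj j' hj' h
      have h1 := mem_Ico.1 (mem_filter.1 (mem_coe.1 hj)).1
      have h2 := mem_Ico.1 (mem_filter.1 (mem_coe.1 hj')).1
      have h3 := congrArg ZMod.val h
      rw [ZMod.val_natCast, ZMod.val_natCast, Nat.mod_eq_of_lt (by omega),
        Nat.mod_eq_of_lt (by omega)] at h3
      omega
  -- the change of an output
  have hval : ∀ z ⊆ X0, z.card ≤ r → ∀ w : Fin n ⊕ Fin n → Bool, (∀ i, i ∉ z → w i = x0 i) →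
      ∀ k ∈ Gd, (C.val w (C.out (idx k)) = C.val x0 (C.out (idx k)) ↔
        (((upSet L x (fun b => w (Sum.inl b)) : Finset (ZMod m)).filter fun i => k - i ∈ T).card +
        ((upSet L (fun b => w (Sum.inl b)) x : Finset (ZMod m)).filter
          fun i => k - i ∈ T).card) % 2 = 0) := by
    intro z hz hzr w hw k hk
    have hw2 : w = two (fun b => w (Sum.inl b)) y := by
      funext v
      rcases v with b | b
      · rfl
      · have h1 : (Sum.inr b : Fin n ⊕ Fin n) ∉ z := by
          intro h
          obtain ⟨i, -, hi⟩ := mem_image.1 (hz h)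
          simp [hgrid] at hi
        rw [hw _ h1, hx0]
        rfl
    have hchg : ∀ b : Fin n, w (Sum.inl b) ≠ x b → (Sum.inl b : Fin n ⊕ Fin n) ∈ z := by
      intro b hb
      by_contra h
      exact hb (by rw [hw _ h, hx0]; rfl)
    have hchg2 : ∀ b : Fin n, w (Sum.inl b) ≠ x b → ∃ i : ZMod m, L * i.val = (b : ℕ) := by
      intro b hb
      obtain ⟨i, -, hi⟩ := mem_image.1 (hz (hchg b hb))
      refine ⟨i, ?_⟩
      simp only [hgrid, Sum.inl.injEq] at hi
      rw [← hi]
    have hcardS : ∀ S : Finset (ZMod m), (∀ i ∈ S, ∃ b : Fin n, (b : ℕ) = L * i.val ∧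
        w (Sum.inl b) ≠ x b) → S.card ≤ r := by
      intro S hS
      refine le_trans ?_ hzr
      rw [← card_image_of_injective S hgridinj]
      refine card_le_card ?_
      intro v hv
      obtain ⟨i, hi, rfl⟩ := mem_image.1 hv
      obtain ⟨b, hb, hb2⟩ := hS i hi
      have h1 : grid i = Sum.inl b := by
        simp only [hgrid, Sum.inl.injEq]
        exact Fin.ext hb.symm
      rw [h1]
      exact hchg b hb2
    rw [hw2, hC _ _ (idx k), hx0, hC _ _ (idx k)]
    exact bit_change hL1 hnm T hr hrL x (fun b => w (Sum.inl b)) hchg2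
      (hcardS _ fun i hi => by
        obtain ⟨-, b, hb, hb1, hb2⟩ := mem_filter.1 hi
        exact ⟨b, hb, by beta_reduce at hb1 hb2; rw [hb1, hb2]; simp⟩)
      (hcardS _ fun i hi => by
        obtain ⟨-, b, hb, hb1, hb2⟩ := mem_filter.1 hi
        exact ⟨b, hb, by beta_reduce at hb1 hb2; rw [hb1, hb2]; simp⟩) k (by omega)
      (mem_filter.1 hk).2.1 (mem_filter.1 hk).2.2
  have hmemA : ∀ k i, grid i ∈ A k ↔ k - i ∈ T := by
    intro k i
    rw [hA]
    simp only [mem_image]
    constructor
    · rintro ⟨j, hj, h⟩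
      rw [← hgridinj h]
      exact HazConv2.mem_outSet.1 hj
    · intro h
      exact ⟨i, HazConv2.mem_outSet.2 h, rfl⟩
  have hcardA : ∀ k, (A k).card = (p - 1) * t := by
    intro k
    rw [hA]
    simp only
    rw [card_image_of_injective _ hgridinj, HazConv2.card_outSet hp hpm htp]
  set Ko : Finset (Fin (2 * n)) := Gd.image idx with hKo
  have hKcard : Ko.card = Gd.card := by
    rw [hKo, card_image_of_injective _ hidxinj]
  have hGdle : Gd.card ≤ m := by
    have := card_le_univ Gd
    rwa [ZMod.card] at this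
  -- the inverse of `idx`
  set dec : Fin (2 * n) → ZMod m := Function.invFun idx with hdec
  have hdeci : ∀ k, dec (idx k) = k := Function.leftInverse_invFun hidxinj
  have hmain := C.few_hazards_exactE E x0 Ko (fun o => A (dec o)) X0 ?_
    (M := M) (r := r) (t := 2 * t ^ 2) (q := q) (s := (p - 1) * t) hM hr
    (fun k _ => (hcardA _).ge) ?_ ?_ hq ht4 ?_ ?_ ?_ ?_
  · rw [hKcard] at hmain
    constructor
    · have h1 : m * (r + 1) ≤ 4 * (∑ g ∈ univ \ E, C.ar g + (r + 1) * E.card) := by
        calc m * (r + 1) ≤ 2 * Gd.card * (r + 1) := Nat.mul_le_mul_right _ hGdcard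
          _ = 2 * (Gd.card * (r + 1)) := by ring
          _ ≤ 2 * (2 * (∑ g ∈ univ \ E, C.ar g + (r + 1) * E.card)) := Nat.mul_le_mul_left _ hmain.1
          _ = 4 * (∑ g ∈ univ \ E, C.ar g + (r + 1) * E.card) := by ring
      calc n * (r + 1) ≤ 4 * L * m * (r + 1) := Nat.mul_le_mul_right _ hm3
        _ = 4 * L * (m * (r + 1)) := by ring
        _ ≤ 4 * L * (4 * (∑ g ∈ univ \ E, C.ar g + (r + 1) * E.card)) := Nat.mul_le_mul_left _ h1
        _ = 16 * L * (∑ g ∈ univ \ E, C.ar g + (r + 1) * E.card) := by ring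
    · intro har
      have h1 : m * r ≤ 4 * ((univ \ E).card + r * E.card) := by
        calc m * r ≤ 2 * Gd.card * r := Nat.mul_le_mul_right _ hGdcard
          _ = 2 * (Gd.card * r) := by ring
          _ ≤ 2 * (2 * ((univ \ E).card + r * E.card)) := Nat.mul_le_mul_left _ (hmain.2 har)
          _ = 4 * ((univ \ E).card + r * E.card) := by ring
      calc n * r ≤ 4 * L * m * r := Nat.mul_le_mul_right _ hm3
        _ = 4 * L * (m * r) := by ring
        _ ≤ 4 * L * (4 * ((univ \ E).card + r * E.card)) := Nat.mul_le_mul_left _ h1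
        _ = 16 * L * ((univ \ E).card + r * E.card) := by ring
  · intro k _
    exact image_subset_image (subset_univ _)
  · intro o ho o' ho' hoo
    obtain ⟨k, -, rfl⟩ := mem_image.1 ho
    obtain ⟨l, -, rfl⟩ := mem_image.1 ho'
    have hkl : k ≠ l := fun h => hoo (by rw [h])
    rw [hdeci, hdeci, hA]
    simp only
    rw [← image_inter _ _ hgridinj, card_image_of_injective _ hgridinj]
    exact HazConv2.card_inter hp hp2 hpm htp hkl
  · rw [hKcard]
    exact Lib_MP_22d2c8_few.num_bound (hGdle.trans (Nat.div_le_self _ _)) le_rfl ht3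
  · -- an input of `A k` changes the output
    intro o ho v hv
    obtain ⟨k, hk, rfl⟩ := mem_image.1 ho
    rw [hdeci] at hv
    obtain ⟨i, hi, rfl⟩ := mem_image.1 hv
    have hiT : k - i ∈ T := HazConv2.mem_outSet.1 hi
    have hz : ∀ w, w ∉ ({grid i} : Finset (Fin n ⊕ Fin n)) →
        flipAt x0 (grid i) w = x0 w := by
      intro w hw
      rw [flipAt, Function.update_of_ne (by simpa using hw)]
    intro hcon
    rw [hval {grid i} (by simp [hX0]) (by simpa using hr) _ hz k hk] at hcon
    -- the changed digit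
    set b0 : Fin n := ⟨L * i.val, hgridlt i⟩ with hb0
    have hfl : ∀ b : Fin n, flipAt x0 (grid i) (Sum.inl b) = if b = b0 then !(x b) else x b := by
      intro b
      by_cases h : b = b0
      · rw [if_pos h, h]
        rw [flipAt, hgrid]
        simp only [hb0, Function.update_self]
        rw [hx0]
        rfl
      · rw [if_neg h, flipAt, Function.update_of_ne]
        · rw [hx0]
          rfl
        · intro h2
          simp only [hgrid, Sum.inl.injEq] at h2
          exact h h2
    have hone : ∀ j : ZMod m, (∃ b : Fin n, (b : ℕ) = L * j.val ∧ b = b0) → j = i := by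
      rintro j ⟨b, hb, hb2⟩
      rw [hb2] at hb
      have hb3 : L * i.val = L * j.val := hb
      exact (ZMod.val_injective m (Nat.eq_of_mul_eq_mul_left (by omega) hb3)).symm
    have hxb : x b0 = true ∨ x b0 = false := by
      rcases x b0
      · exact Or.inr rfl
      · exact Or.inl rfl
    have e1 : ((upSet L x (fun b => flipAt x0 (grid i) (Sum.inl b)) : Finset (ZMod m)).filter
        fun i => k - i ∈ T) = if x b0 = true then ∅ else {i} := by
      ext j
      rw [mem_filter, upSet, mem_filter]
      rcases hxb with h0 | h0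
      · rw [if_pos h0]
        simp only [mem_univ, true_and, notMem_empty, iff_false]
        rintro ⟨⟨b, hb, hb1, hb2⟩, -⟩
        beta_reduce at hb1 hb2
        rw [hfl] at hb1
        by_cases hbb : b = b0
        · rw [hbb, h0] at hb2
          exact absurd hb2 (by simp)
        · rw [if_neg hbb, hb2] at hb1
          exact absurd hb1 (by simp)
      · rw [if_neg (by rw [h0]; simp), mem_singleton]
        simp only [mem_univ, true_and]
        constructor
        · rintro ⟨⟨b, hb, hb1, hb2⟩, -⟩
          beta_reduce at hb1 hb2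
          rw [hfl] at hb1
          by_cases hbb : b = b0
          · exact hone j ⟨b, hb, hbb⟩
          · rw [if_neg hbb, hb2] at hb1
            exact absurd hb1 (by simp)
        · rintro rfl
          refine ⟨⟨b0, rfl, ?_, h0⟩, hiT⟩
          rw [hfl, if_pos rfl, h0]
          rfl
    have e2 : ((upSet L (fun b => flipAt x0 (grid i) (Sum.inl b)) x : Finset (ZMod m)).filter
        fun i => k - i ∈ T) = if x b0 = true then {i} else ∅ := by
      ext j
      rw [mem_filter, upSet, mem_filter]
      rcases hxb with h0 | h0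
      · rw [if_pos h0, mem_singleton]
        simp only [mem_univ, true_and]
        constructor
        · rintro ⟨⟨b, hb, hb1, hb2⟩, -⟩
          beta_reduce at hb1 hb2
          rw [hfl] at hb2
          by_cases hbb : b = b0
          · exact hone j ⟨b, hb, hbb⟩
          · rw [if_neg hbb, hb1] at hb2
            exact absurd hb2 (by simp)
        · rintro rfl
          refine ⟨⟨b0, rfl, h0, ?_⟩, hiT⟩
          rw [hfl, if_pos rfl, h0]
          rfl
      · rw [if_neg (by rw [h0]; simp)]
        simp only [mem_univ, true_and, notMem_empty, iff_false]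
        rintro ⟨⟨b, hb, hb1, hb2⟩, -⟩
        beta_reduce at hb1 hb2
        rw [hfl] at hb2
        by_cases hbb : b = b0
        · rw [hbb, h0] at hb1
          exact absurd hb1 (by simp)
        · rw [if_neg hbb, hb1] at hb2
          exact absurd hb2 (by simp)
    rw [e1, e2] at hcon
    rcases hxb with h0 | h0
    · rw [if_pos h0, if_pos h0] at hcon
      simp at hcon
    · rw [if_neg (by rw [h0]; simp), if_neg (by rw [h0]; simp)] at hcon
      simp at hcon
  · -- the outputs are constant off `A k`
    intro o ho z hzX hdis hzr w hw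
    obtain ⟨k, hk, rfl⟩ := mem_image.1 ho
    rw [hdeci] at hdis
    rw [hval z hzX hzr w hw k hk]
    have key : ∀ i : ZMod m, (∃ b : Fin n, (b : ℕ) = L * i.val ∧ w (Sum.inl b) ≠ x b) →
        k - i ∉ T := by
      rintro i ⟨b, hb, hb2⟩ hT'
      have h1 : grid i = Sum.inl b := by
        simp only [hgrid, Sum.inl.injEq]
        exact Fin.ext hb.symm
      have h2 : (Sum.inl b : Fin n ⊕ Fin n) ∈ z := by
        by_contra h
        exact hb2 (by rw [hw _ h, hx0]; rfl)
      rw [← h1] at h2
      exact disjoint_left.1 hdis h2 ((hmemA k i).2 hT')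
    have e1 : ((upSet L x (fun b => w (Sum.inl b)) : Finset (ZMod m)).filter
        fun i => k - i ∈ T) = ∅ := by
      rw [filter_eq_empty_iff]
      intro i hi
      obtain ⟨-, b, hb, hb1, hb2⟩ := mem_filter.1 hi
      exact key i ⟨b, hb, by beta_reduce at hb1 hb2; rw [hb1, hb2]; simp⟩
    have e2 : ((upSet L (fun b => w (Sum.inl b)) x : Finset (ZMod m)).filter
        fun i => k - i ∈ T) = ∅ := by
      rw [filter_eq_empty_iff]
      intro i hi
      obtain ⟨-, b, hb, hb1, hb2⟩ := mem_filter.1 hi
      exact key i ⟨b, hb, by beta_reduce at hb1 hb2; rw [hb1, hb2]; simp⟩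
    rw [e1, e2]
    rfl
  · -- the size of the complement of `A k`
    intro o _
    have h1 : A (dec o) ⊆ X0 := image_subset_image (subset_univ _)
    have h2 : X0.card = m := by
      rw [hX0, card_image_of_injective _ hgridinj, card_univ, ZMod.card]
    rw [card_sdiff_of_subset h1, h2, hcardA]
    have h3 : (p - 1) * t ≤ p ^ 2 := by
      rw [pow_two]
      exact Nat.mul_le_mul (Nat.sub_le _ _) htp.le
    have h4 : M * r ≤ M * r ^ 2 * (Nat.log 2 n + 1) := by
      calc M * r = M * r * 1 := (mul_one _).symm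
        _ ≤ M * r * (r * (Nat.log 2 n + 1)) :=
            Nat.mul_le_mul_left _ (Nat.mul_pos (by omega) (by omega))
        _ = _ := by ring
    have h5 : r ≤ M * r := Nat.le_mul_of_pos_left r (by omega)
    have h6 : 2 * M * r = 2 * (M * r) := by ring
    rw [h6]
    omega
  · -- the number of hazards
    rw [hKcard]
    have hX0b : ∀ z ⊆ X0, ∀ v ∈ z, ∃ b, v = Sum.inl b := by
      intro z hz v hv
      obtain ⟨i, -, rfl⟩ := mem_image.1 (hz hv)
      exact ⟨_, rfl⟩
    have h1 : ∑ o ∈ Ko, (((X0 \ A (dec o)).powersetCard r).filter (C.IsHazardE E x0 o)).card ≤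
        C.hazardsE E x y r := by
      rw [← card_sigma, Circuit.hazardsE]
      refine card_le_card_of_injOn (fun u => (u.1, toX u.2)) ?_ ?_
      · rintro ⟨o, z⟩ hu
        obtain ⟨h2, h3⟩ := mem_filter.1 (mem_sigma.1 (mem_coe.1 hu)).2
        obtain ⟨h4, h5⟩ := mem_powersetCard.1 h2
        simp only at h3 h4 h5
        have h6 : z ⊆ X0 := h4.trans sdiff_subset
        refine mem_coe.2 (mem_filter.2 ⟨mem_univ _, ?_, ?_⟩)
        · simp only
          rw [card_toX (hX0b z h6), h5]
        · simp only
          rw [toX_map (hX0b z h6)]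
          exact h3
      · rintro ⟨o, z⟩ hu ⟨o', z'⟩ hu' h
        have h2 := (mem_powersetCard.1 (mem_filter.1 (mem_sigma.1 (mem_coe.1 hu)).2).1).1
        have h2' := (mem_powersetCard.1 (mem_filter.1 (mem_sigma.1 (mem_coe.1 hu')).2).1).1
        simp only at h2 h2'
        simp only [Prod.mk.injEq] at h
        obtain ⟨h7, h8⟩ := h
        have h9 : z = z' := by
          rw [← toX_map (hX0b z (h2.trans sdiff_subset)),
            ← toX_map (hX0b z' (h2'.trans sdiff_subset)), h8]
        rw [h7, h9]
    have h2 : 8 * L * (16 * ∑ o ∈ Ko,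
        (((X0 \ A (dec o)).powersetCard r).filter (C.IsHazardE E x0 o)).card) ≤
          8 * L * (Gd.card * M ^ r) := by
      calc 8 * L * (16 * ∑ o ∈ Ko,
            (((X0 \ A (dec o)).powersetCard r).filter (C.IsHazardE E x0 o)).card)
          ≤ 8 * L * (16 * C.hazardsE E x y r) :=
            Nat.mul_le_mul_left _ (Nat.mul_le_mul_left _ h1)
        _ = 128 * L * C.hazardsE E x y r := by ring
        _ ≤ n * M ^ r := hsum
        _ ≤ 4 * L * m * M ^ r := Nat.mul_le_mul_right _ hm3
        _ ≤ 4 * L * (2 * Gd.card) * M ^ r :=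
            Nat.mul_le_mul_right _ (Nat.mul_le_mul_left _ hGdcard)
        _ = 8 * L * (Gd.card * M ^ r) := by ring
    exact Nat.le_of_mul_le_mul_left h2 (by omega)

end Pool.Agent.Lib_MP_22d2c8_hz
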