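import Mathlib

/-!
# Circuits with few hazards: the counting lemma

`c v z` says that the vertex `v` is unstable when the inputs in `z` are unstable. The only
properties used: for a gate it is a monotone function of the values at the predecessors (`hgate`),
and for an input `i` it implies `i ∈ z`.
-/

open Finset

namespace Pool.Agent.Lib_MP_22d2c8_few

variable {V G ι : Type} [DecidableEq V] [Fintype G] [DecidableEq G] [DecidableEq ι]

/-- The abstract network. -/
structure Infl (pred : G → Finset (V ⊕ G)) (c : V ⊕ G → Finset V → Prop) : Prop where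
  acyclic : ∃ rank : V ⊕ G → ℕ, ∀ g, ∀ u ∈ pred g, rank u < rank (Sum.inr g)
  input : ∀ i z, c (Sum.inl i) z → i ∈ z
  inputMono : ∀ i z z', z ⊆ z' → c (Sum.inl i) z → c (Sum.inl i) z'
  gate : ∀ g z z', (∀ u ∈ pred g, c u z → c u z') → c (Sum.inr g) z → c (Sum.inr g) z'

theorem Infl.mono {pred : G → Finset (V ⊕ G)} {c : V ⊕ G → Finset V → Prop} (h : Infl pred c)
    {z z' : Finset V} (hz : z ⊆ z') : ∀ v, c v z → c v z' := by
  obtain ⟨rank, hrank⟩ := h.acyclic
  have key : ∀ n : ℕ, ∀ v, rank v < n → c v z → c v z' := by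
    intro n
    induction n with
    | zero => exact fun v hv => absurd hv (Nat.not_lt_zero _)
    | succ n ih =>
      intro v hv
      rcases v with i | g
      · exact h.inputMono i z z' hz
      · refine h.gate g z z' fun u hu => ih u ?_
        have := hrank g u hu
        omega
  exact fun v => key _ v (Nat.lt_succ_self _)

open Classical in
/-- The inputs in `N` which make the vertex unstable. -/
noncomputable def infl (c : V ⊕ G → Finset V → Prop) (N : Finset V) (v : V ⊕ G) : Finset V :=
  N.filter fun i => c v {i}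

theorem mem_infl {c : V ⊕ G → Finset V → Prop} {N : Finset V} {v : V ⊕ G} {i : V} :
    i ∈ infl c N v ↔ i ∈ N ∧ c v {i} := by
  classical
  unfold infl
  rw [mem_filter]

open Classical in
/-- The gates of an output: influenced by more than `t` inputs of `N`, all of them in `A`. -/
noncomputable def region (c : V ⊕ G → Finset V → Prop) (N A : Finset V) (t : ℕ) : Finset G :=
  univ.filter fun g => infl c N (Sum.inr g) ⊆ A ∧ t < (infl c N (Sum.inr g)).card

theorem mem_region {c : V ⊕ G → Finset V → Prop} {N A : Finset V} {t : ℕ} {g : G} :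
    g ∈ region c N A t ↔
      infl c N (Sum.inr g) ⊆ A ∧ t < (infl c N (Sum.inr g)).card := by
  classical
  unfold region
  rw [mem_filter]
  exact ⟨fun h => h.2, fun h => ⟨mem_univ _, h⟩⟩

/-- The boundary of a region: the predecessors outside. -/
def bdy (pred : G → Finset (V ⊕ G)) (P : Finset G) : Finset (V ⊕ G) :=
  (P.biUnion pred).filter fun u => ∀ g ∈ P, u ≠ Sum.inr g

theorem bdy_card_le (pred : G → Finset (V ⊕ G)) (P : Finset G) :
    (bdy pred P).card ≤ ∑ g ∈ P, (pred g).card :=
  (card_filter_le _ _).trans card_biUnion_le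

/-- **The boundary of the region of an output is large.** -/
theorem bdy_large {pred : G → Finset (V ⊕ G)} {c : V ⊕ G → Finset V → Prop} (h : Infl pred c)
    (N A : Finset V) {t : ℕ} (ht : 1 ≤ t) (d : ℕ) (hd : 1 ≤ d) (o : V ⊕ G)
    (hA : ∀ i ∈ N ∩ A, c o {i}) (h0 : ∀ z ⊆ N \ A, z.card ≤ d → ¬ c o z)
    (hbig : t < (N ∩ A).card) :
    (N ∩ A).card ≤ t * (bdy pred (region c N A t)).card ∨
      d + 1 ≤ (bdy pred (region c N A t)).card := by
  classical
  set P := region c N A t with hP
  set Bd := bdy pred P with hBd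
  obtain ⟨rank, hrank⟩ := h.acyclic
  have hLo : infl c N o = N ∩ A := by
    ext i
    rw [mem_infl, mem_inter]
    constructor
    · rintro ⟨h1, h2⟩
      refine ⟨h1, ?_⟩
      by_contra h3
      refine h0 {i} ?_ (by rw [card_singleton]; exact hd) h2
      rw [singleton_subset_iff, mem_sdiff]
      exact ⟨h1, h3⟩
    · rintro ⟨h1, h2⟩
      exact ⟨h1, hA i (mem_inter.2 ⟨h1, h2⟩)⟩
  -- the output is a gate of the region
  obtain ⟨go, rfl⟩ : ∃ g, o = Sum.inr g := by
    rcases o with i | g
    · exfalso
      have h1 : infl c N (Sum.inl i) ⊆ {i} := by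
        intro j hj
        have h2 := h.input i {j} (mem_infl.1 hj).2
        rw [mem_singleton] at h2 ⊢
        exact h2.symm
      have h2 := card_le_card h1
      rw [hLo, card_singleton] at h2
      omega
    · exact ⟨g, rfl⟩
  have hgo : go ∈ P := by
    rw [hP, mem_region, hLo]
    exact ⟨inter_subset_right, hbig⟩
  by_cases hI : (Bd.filter fun u => ¬ infl c N u ⊆ A).card ≤ d
  · left
    have hch : ∀ u : V ⊕ G, ∃ i : V, u ∈ Bd.filter (fun u => ¬ infl c N u ⊆ A) →
        i ∈ infl c N u ∧ i ∉ A := by
      intro u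
      by_cases hu : u ∈ Bd.filter (fun u => ¬ infl c N u ⊆ A)
      · have h1 := (mem_filter.1 hu).2
        rw [not_subset] at h1
        obtain ⟨i, hi1, hi2⟩ := h1
        exact ⟨i, fun _ => ⟨hi1, hi2⟩⟩
      · have hne : (N ∩ A).Nonempty := card_pos.1 (by omega)
        obtain ⟨i, _⟩ := hne
        exact ⟨i, fun h => absurd h hu⟩
    choose w hw using hch
    set z : Finset V := (Bd.filter fun u => ¬ infl c N u ⊆ A).image w with hz
    have hzN : z ⊆ N \ A := by
      intro i hi
      obtain ⟨u, hu, rfl⟩ := mem_image.1 hi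
      obtain ⟨h1, h2⟩ := hw u hu
      exact mem_sdiff.2 ⟨(mem_infl.1 h1).1, h2⟩
    have hzc : z.card ≤ d := card_image_le.trans hI
    have hoz : ¬ c (Sum.inr go) z := h0 z hzN hzc
    -- every input of `N ∩ A` is covered
    have hcov : N ∩ A ⊆ (Bd.filter fun u => infl c N u ⊆ A).biUnion fun u => infl c N u := by
      intro i hi
      by_contra hcon
      have hun : ∀ u ∈ Bd, infl c N u ⊆ A → ¬ c u {i} := by
        intro u hu hu2 hc
        exact hcon (mem_biUnion.2 ⟨u, mem_filter.2 ⟨hu, hu2⟩,
          mem_infl.2 ⟨(mem_inter.1 hi).1, hc⟩⟩)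
      have hind : ∀ n : ℕ, ∀ g, rank (Sum.inr g) < n → g ∈ P → c (Sum.inr g) {i} →
          c (Sum.inr g) z := by
        intro n
        induction n with
        | zero => exact fun g hg => absurd hg (Nat.not_lt_zero _)
        | succ n ih =>
          intro g hg hgP
          refine h.gate g {i} z fun u hu hui => ?_
          by_cases huP : ∃ g' ∈ P, u = Sum.inr g'
          · obtain ⟨g', hg', rfl⟩ := huP
            have := hrank g _ hu
            exact ih g' (by omega) hg' hui
          · have hub : u ∈ Bd := by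
              rw [hBd]
              unfold bdy
              rw [mem_filter]
              refine ⟨mem_biUnion.2 ⟨g, hgP, hu⟩, fun g' hg' he => huP ⟨g', hg', he⟩⟩
            by_cases huA : infl c N u ⊆ A
            · exact absurd hui (hun u hub huA)
            · have hu2 : u ∈ Bd.filter (fun u => ¬ infl c N u ⊆ A) := mem_filter.2 ⟨hub, huA⟩
              have h1 := (hw u hu2).1
              refine h.mono ?_ u (mem_infl.1 h1).2
              rw [singleton_subset_iff]
              exact mem_image_of_mem w hu2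
      exact hoz (hind _ go (Nat.lt_succ_self _) hgo (hA i hi))
    have hsm : ∀ u ∈ Bd.filter (fun u => infl c N u ⊆ A), (infl c N u).card ≤ t := by
      intro u hu
      obtain ⟨h1, h2⟩ := mem_filter.1 hu
      rcases u with i | g
      · have h3 : infl c N (Sum.inl i) ⊆ {i} := by
          intro j hj
          have h2 := h.input i {j} (mem_infl.1 hj).2
          rw [mem_singleton] at h2 ⊢
          exact h2.symm
        have h4 := card_le_card h3
        rw [card_singleton] at h4
        omega
      · by_contra h3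
        have h4 : g ∈ P := by
          rw [hP, mem_region]
          exact ⟨h2, not_le.1 h3⟩
        rw [hBd] at h1
        unfold bdy at h1
        exact (mem_filter.1 h1).2 g h4 rfl
    calc (N ∩ A).card ≤ _ := card_le_card hcov
      _ ≤ ∑ u ∈ Bd.filter (fun u => infl c N u ⊆ A), (infl c N u).card := card_biUnion_le
      _ ≤ ∑ _u ∈ Bd.filter (fun u => infl c N u ⊆ A), t := sum_le_sum hsm
      _ = (Bd.filter (fun u => infl c N u ⊆ A)).card * t := by rw [sum_const, smul_eq_mul]
      _ ≤ Bd.card * t := Nat.mul_le_mul_right _ (card_filter_le _ _)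
      _ = t * Bd.card := Nat.mul_comm _ _
  · right
    have h1 : (Bd.filter fun u => ¬ infl c N u ⊆ A).card ≤ Bd.card := card_filter_le _ _
    omega

/-- **The counting lemma.** -/
theorem core {pred : G → Finset (V ⊕ G)} {c : V ⊕ G → Finset V → Prop} (h : Infl pred c)
    (K : Finset ι) (A : ι → Finset V) (out : ι → V ⊕ G) (N : Finset V) {t r : ℕ} (ht : 1 ≤ t)
    (d : ℕ) (hd : 1 ≤ d)
    (hint : ∀ k ∈ K, ∀ l ∈ K, k ≠ l → (N ∩ (A k ∩ A l)).card ≤ t)
    (hA : ∀ k ∈ K, ∀ i ∈ A k, c (out k) {i})
    (h0 : ∀ k ∈ K, ∀ z ⊆ N \ A k, z.card ≤ d → ¬ c (out k) z)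
    (hr : r ≤ d) (hbig : ∀ k ∈ K, t * r < (N ∩ A k).card) (hr1 : 1 ≤ r) :
    K.card * (r + 1) ≤ ∑ g, (pred g).card := by
  classical
  have h1 : ∀ k ∈ K, r + 1 ≤ ∑ g ∈ region c N (A k) t, (pred g).card := by
    intro k hk
    have hb : t < (N ∩ A k).card := lt_of_le_of_lt (by nlinarith) (hbig k hk)
    have h2 := bdy_large h N (A k) ht d hd (out k)
      (fun i hi => hA k hk i (mem_inter.1 hi).2) (h0 k hk) hb
    refine le_trans ?_ (bdy_card_le pred _)
    rcases h2 with h2 | h2
    · have h3 := lt_of_lt_of_le (hbig k hk) h2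
      exact Nat.lt_of_mul_lt_mul_left h3
    · omega
  have hdisj : ∀ k ∈ K, ∀ l ∈ K, k ≠ l →
      Disjoint (region c N (A k) t) (region c N (A l) t) := by
    intro k hk l hl hkl
    rw [disjoint_left]
    intro g hg1 hg2
    obtain ⟨h2, h3⟩ := mem_region.1 hg1
    obtain ⟨h4, _⟩ := mem_region.1 hg2
    have h5 : infl c N (Sum.inr g) ⊆ N ∩ (A k ∩ A l) := by
      intro i hi
      exact mem_inter.2 ⟨(mem_infl.1 hi).1, mem_inter.2 ⟨h2 hi, h4 hi⟩⟩
    have h6 := (card_le_card h5).trans (hint k hk l hl hkl)
    omega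
  calc K.card * (r + 1) = ∑ _k ∈ K, (r + 1) := by rw [sum_const, smul_eq_mul]
    _ ≤ ∑ k ∈ K, ∑ g ∈ region c N (A k) t, (pred g).card := sum_le_sum h1
    _ = ∑ g ∈ K.biUnion (fun k => region c N (A k) t), (pred g).card := by
        rw [sum_biUnion]
        intro k hk l hl hkl
        exact hdisj k hk l hl hkl
    _ ≤ ∑ g, (pred g).card := sum_le_sum_of_subset (subset_univ _)

end Pool.Agent.Lib_MP_22d2c8_few
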