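import Pool.Agent.Lib_MP_22d2c8_rsf.Basic

/-!
# Circuits with few hazards: the random set of inputs
-/

open Finset

namespace Pool.Agent.Lib_MP_22d2c8_few

open Pool.Agent.Lib_MP_22d2c8_rsf

section

variable {V : Type} [Fintype V] [DecidableEq V]

theorem prob_subset_sparse {M : ℕ} (hM : 1 ≤ M) (P : Finset V) :
    prob (fun u : V → Fin M => P ⊆ sparse u) = (1 / (M : ℝ)) ^ P.card := by
  classical
  have h1 : (univ.filter (fun u : V → Fin M => P ⊆ sparse u)) =
      Fintype.piFinset (fun v => if v ∈ P then {⟨0, hM⟩} else univ) := by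
    ext u
    simp only [Finset.mem_filter, Finset.mem_univ, true_and, Fintype.mem_piFinset]
    constructor
    · intro h v
      split_ifs with hv
      · rw [Finset.mem_singleton]
        exact Fin.ext (mem_sparse.1 (h hv))
      · exact Finset.mem_univ _
    · intro h v hv
      have h2 := h v
      rw [if_pos hv, Finset.mem_singleton] at h2
      rw [mem_sparse, h2]
  rw [prob_eq, h1, Fintype.card_piFinset, Fintype.card_fun, Fintype.card_fin]
  have h2 : ∏ v, (if v ∈ P then {⟨0, hM⟩} else univ : Finset (Fin M)).card =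
      M ^ (Fintype.card V - P.card) := by
    have e1 : ∀ v, (if v ∈ P then {⟨0, hM⟩} else univ : Finset (Fin M)).card =
        if v ∈ P then 1 else M := by
      intro v
      split_ifs <;> simp
    rw [Finset.prod_congr rfl fun v _ => e1 v, Finset.prod_ite, Finset.prod_const,
      Finset.prod_const, one_pow, one_mul]
    congr 1
    rw [Finset.filter_not, Finset.card_sdiff_of_subset (Finset.filter_subset _ _)]
    simp
  rw [h2]
  have hMpos : (0 : ℝ) < (M : ℝ) := by exact_mod_cast hM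
  have hPV : P.card ≤ Fintype.card V := Finset.card_le_univ P
  obtain ⟨d, hd⟩ : ∃ d, Fintype.card V = P.card + d := ⟨Fintype.card V - P.card, by omega⟩
  rw [hd, Nat.add_sub_cancel_left]
  push_cast
  rw [pow_add, one_div, inv_pow, div_eq_iff (by positivity)]
  field_simp

theorem card_omega_pos {M : ℕ} (hM : 1 ≤ M) :
    (0 : ℝ) < (Fintype.card (V → Fin M) : ℝ) := by
  have : Nonempty (V → Fin M) := ⟨fun _ => ⟨0, hM⟩⟩
  exact_mod_cast Fintype.card_pos

theorem sum_ind {Ω : Type} [Fintype Ω] (hΩ : (0 : ℝ) < (Fintype.card Ω : ℝ)) (p : Ω → Prop)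
    [DecidablePred p] :
    ∑ u : Ω, (if p u then (1 : ℝ) else 0) = Fintype.card Ω * prob p := by
  rw [prob_eq, Finset.sum_boole]
  field_simp

/-- A set contains many elements of `B` with small probability. -/
theorem prob_many_le {M : ℕ} (hM : 1 ≤ M) (B : Finset V) {t a : ℕ} (ht : B.card ≤ t) :
    prob (fun u : V → Fin M => a ≤ (sparse u ∩ B).card) ≤ (t.choose a : ℝ) / (M : ℝ) ^ a := by
  classical
  have h1 : prob (fun u : V → Fin M => a ≤ (sparse u ∩ B).card) ≤
      prob (fun u : V → Fin M => ∃ T ∈ B.powersetCard a, T ⊆ sparse u) := by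
    refine prob_mono fun u hu => ?_
    obtain ⟨T, hT1, hT2⟩ := Finset.exists_subset_card_eq hu
    exact ⟨T, Finset.mem_powersetCard.2 ⟨hT1.trans inter_subset_right, hT2⟩,
      hT1.trans inter_subset_left⟩
  refine h1.trans ((prob_exists_le _ _).trans ?_)
  have h2 : ∀ T ∈ B.powersetCard a, prob (fun u : V → Fin M => T ⊆ sparse u) =
      (1 / (M : ℝ)) ^ a := by
    intro T hT
    rw [prob_subset_sparse hM, (Finset.mem_powersetCard.1 hT).2]
  rw [Finset.sum_congr rfl h2, Finset.sum_const, Finset.card_powersetCard, nsmul_eq_mul,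
    one_div, inv_pow, ← div_eq_mul_inv]
  have h3 : (B.card.choose a : ℝ) ≤ (t.choose a : ℝ) := by
    exact_mod_cast Nat.choose_le_choose a ht
  exact div_le_div_of_nonneg_right h3 (by positivity)

/-- Second moment: the random set contains half of the expected number of elements of `B`. -/
theorem prob_few_le {M s : ℕ} (hM : 1 ≤ M) (B : Finset V) (hs : s ≤ B.card) (h64 : 64 * M ≤ s) :
    prob (fun u : V → Fin M => 2 * M * (sparse u ∩ B).card < s) ≤ 1 / 16 := by
  classical
  have hΩ := card_omega_pos (V := V) hM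
  have hMpos : (0 : ℝ) < (M : ℝ) := by exact_mod_cast hM
  obtain ⟨W, hW⟩ : ∃ W : ℝ, W = (Fintype.card (V → Fin M) : ℝ) := ⟨_, rfl⟩
  rw [← hW] at hΩ
  have hone : ∀ v : V, ∑ u : V → Fin M, (if v ∈ sparse u then (1 : ℝ) else 0) = W * (1 / M) := by
    intro v
    have h1 := sum_ind (card_omega_pos (V := V) hM) (fun u : V → Fin M => ({v} : Finset V) ⊆ sparse u)
    rw [prob_subset_sparse hM, Finset.card_singleton, pow_one, ← hW] at h1
    rw [← h1]
    refine Finset.sum_congr rfl fun u _ => ?_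
    simp only [Finset.singleton_subset_iff]
  have htwo : ∀ v w : V, v ≠ w → ∑ u : V → Fin M, ((if v ∈ sparse u then (1 : ℝ) else 0) *
      (if w ∈ sparse u then (1 : ℝ) else 0)) = W * (1 / M) ^ 2 := by
    intro v w hvw
    have h1 := sum_ind (card_omega_pos (V := V) hM) (fun u : V → Fin M => ({v, w} : Finset V) ⊆ sparse u)
    rw [prob_subset_sparse hM, Finset.card_pair hvw, ← hW] at h1
    rw [← h1]
    refine Finset.sum_congr rfl fun u _ => ?_
    simp only [Finset.insert_subset_iff, Finset.singleton_subset_iff]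
    by_cases h2 : v ∈ sparse u <;> by_cases h3 : w ∈ sparse u <;> simp [h2, h3]
  set X : (V → Fin M) → ℝ := fun u => ∑ v ∈ B, (if v ∈ sparse u then (1 : ℝ) else 0) with hX
  have hXc : ∀ u, X u = ((sparse u ∩ B).card : ℝ) := by
    intro u
    rw [hX]
    simp only
    rw [Finset.sum_boole, Finset.inter_comm, Finset.filter_mem_eq_inter]
  obtain ⟨b, hb⟩ : ∃ b : ℝ, b = (B.card : ℝ) := ⟨_, rfl⟩
  obtain ⟨μ, hμ⟩ : ∃ μ : ℝ, μ = b / M := ⟨_, rfl⟩
  have hE1 : ∑ u, X u = W * μ := by
    rw [hX]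
    simp only
    rw [Finset.sum_comm, Finset.sum_congr rfl fun v _ => hone v, Finset.sum_const, nsmul_eq_mul,
      ← hb, hμ]
    ring
  have hE2 : ∑ u, X u ^ 2 ≤ W * (μ + μ ^ 2) := by
    have h1 : ∑ u, X u ^ 2 = ∑ v ∈ B, ∑ w ∈ B, ∑ u : V → Fin M,
        ((if v ∈ sparse u then (1 : ℝ) else 0) * (if w ∈ sparse u then (1 : ℝ) else 0)) := by
      rw [hX]
      simp only
      have h2 : ∀ u : V → Fin M, (∑ v ∈ B, (if v ∈ sparse u then (1 : ℝ) else 0)) ^ 2 =
          ∑ v ∈ B, ∑ w ∈ B, ((if v ∈ sparse u then (1 : ℝ) else 0) *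
            (if w ∈ sparse u then (1 : ℝ) else 0)) := by
        intro u
        rw [sq, Finset.sum_mul_sum]
      rw [Finset.sum_congr rfl fun u _ => h2 u, Finset.sum_comm]
      refine Finset.sum_congr rfl fun v _ => ?_
      rw [Finset.sum_comm]
    have h3 : ∀ v ∈ B, ∑ w ∈ B, ∑ u : V → Fin M,
        ((if v ∈ sparse u then (1 : ℝ) else 0) * (if w ∈ sparse u then (1 : ℝ) else 0)) ≤
        W * (1 / M) + b * (W * (1 / M) ^ 2) := by
      intro v hv
      rw [← Finset.add_sum_erase B _ hv]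
      have h4 : ∑ u : V → Fin M, ((if v ∈ sparse u then (1 : ℝ) else 0) *
          (if v ∈ sparse u then (1 : ℝ) else 0)) = W * (1 / M) := by
        rw [← hone v]
        refine Finset.sum_congr rfl fun u _ => ?_
        by_cases h2 : v ∈ sparse u <;> simp [h2]
      have h5 : ∑ w ∈ B.erase v, ∑ u : V → Fin M,
          ((if v ∈ sparse u then (1 : ℝ) else 0) * (if w ∈ sparse u then (1 : ℝ) else 0)) ≤
          b * (W * (1 / M) ^ 2) := by
        rw [Finset.sum_congr rfl fun w hw => htwo v w (Finset.ne_of_mem_erase hw).symm,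
          Finset.sum_const, nsmul_eq_mul, hb]
        refine mul_le_mul_of_nonneg_right ?_ (by positivity)
        exact_mod_cast Finset.card_le_card (Finset.erase_subset _ _)
      rw [h4]
      linarith
    rw [h1]
    refine (Finset.sum_le_sum h3).trans (le_of_eq ?_)
    rw [Finset.sum_const, nsmul_eq_mul, ← hb, hμ]
    field_simp
  have hvar : ∑ u, (X u - μ) ^ 2 ≤ W * μ := by
    have h1 : ∑ u, (X u - μ) ^ 2 = ∑ u, X u ^ 2 - 2 * μ * ∑ u, X u + W * μ ^ 2 := by
      have h2 : ∀ u, (X u - μ) ^ 2 = X u ^ 2 - 2 * μ * X u + μ ^ 2 := fun u => by ring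
      rw [Finset.sum_congr rfl fun u _ => h2 u, Finset.sum_add_distrib, Finset.sum_sub_distrib,
        ← Finset.mul_sum, Finset.sum_const, nsmul_eq_mul, Finset.card_univ, ← hW]
    rw [h1, hE1]
    nlinarith [hE2]
  -- Chebyshev
  have hb64 : 64 * (M : ℝ) ≤ b := by
    rw [hb]
    exact_mod_cast h64.trans hs
  have hμ64 : 64 ≤ μ := by
    rw [hμ, le_div_iff₀ hMpos]
    exact hb64
  have h1 : ∀ u : V → Fin M, 2 * M * (sparse u ∩ B).card < s → μ ^ 2 / 4 ≤ (X u - μ) ^ 2 := by
    intro u hu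
    have h2 : 2 * (M : ℝ) * X u < b := by
      rw [hXc, hb]
      exact_mod_cast lt_of_lt_of_le hu hs
    have h3 : X u < μ / 2 := by
      rw [hμ, div_div, lt_div_iff₀ (by positivity)]
      linarith
    nlinarith
  have h2 : ∑ u : V → Fin M, (if 2 * M * (sparse u ∩ B).card < s then (1 : ℝ) else 0) *
      (μ ^ 2 / 4) ≤ W * μ := by
    refine le_trans (Finset.sum_le_sum fun u _ => ?_) hvar
    split_ifs with hu
    · rw [one_mul]
      exact h1 u hu
    · rw [zero_mul]
      positivity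
  rw [← Finset.sum_mul] at h2
  have h3 := sum_ind (card_omega_pos (V := V) hM)
    (fun u : V → Fin M => 2 * M * (sparse u ∩ B).card < s)
  have h4 : ∑ u : V → Fin M, (if 2 * M * (sparse u ∩ B).card < s then (1 : ℝ) else 0) =
      W * prob (fun u : V → Fin M => 2 * M * (sparse u ∩ B).card < s) := by
    rw [hW, ← h3]
  rw [h4] at h2
  obtain ⟨P, hP⟩ : ∃ P : ℝ, P = prob (fun u : V → Fin M => 2 * M * (sparse u ∩ B).card < s) :=
    ⟨_, rfl⟩
  rw [← hP] at h2 ⊢
  have h5 : P * (μ ^ 2 / 4) ≤ μ := by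
    have h6 : W * (P * (μ ^ 2 / 4)) ≤ W * μ := by linarith
    exact le_of_mul_le_mul_left h6 hΩ
  by_contra hcon
  push Not at hcon
  nlinarith [mul_pos (by linarith : (0 : ℝ) < μ) (by linarith : (0 : ℝ) < P - 1 / 16),
    mul_le_mul_of_nonneg_left hμ64 (by linarith : (0 : ℝ) ≤ μ)]

/-- **The random set of inputs.** -/
theorem exists_good {ι : Type} [DecidableEq ι] {M s t a : ℕ} (hM : 1 ≤ M) (K : Finset ι)
    (A : ι → Finset V) (H : ι → Finset (Finset V)) (hs : ∀ k ∈ K, s ≤ (A k).card)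
    (ht : ∀ k ∈ K, ∀ l ∈ K, k ≠ l → (A k ∩ A l).card ≤ t)
    (hnum : 4 * K.card ^ 2 * t.choose a ≤ M ^ a) (h64 : 64 * M ≤ s)
    (hH : ∑ k ∈ K, ∑ z ∈ H k, (1 / (M : ℝ)) ^ z.card ≤ (K.card : ℝ) / 8) :
    ∃ N : Finset V, ∃ K' ⊆ K, K.card ≤ 2 * K'.card ∧
      (∀ k ∈ K', ∀ l ∈ K', k ≠ l → (N ∩ (A k ∩ A l)).card < a) ∧
      (∀ k ∈ K', s ≤ 2 * M * (N ∩ A k).card) ∧ ∀ k ∈ K', ∀ z ∈ H k, ¬ z ⊆ N := by
  classical
  rcases K.eq_empty_or_nonempty with rfl | hKne
  · exact ⟨∅, ∅, subset_rfl, by simp, by simp, by simp, by simp⟩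
  have hΩ := card_omega_pos (V := V) hM
  have hMpos : (0 : ℝ) < (M : ℝ) := by exact_mod_cast hM
  have hKpos : (0 : ℝ) < (K.card : ℝ) := by exact_mod_cast card_pos.2 hKne
  -- the events
  set bad : ι → (V → Fin M) → Prop := fun k u =>
    (∃ z ∈ H k, z ⊆ sparse u) ∨ 2 * M * (sparse u ∩ A k).card < s with hbad
  set D : (V → Fin M) → Prop := fun u =>
    ∃ q ∈ K ×ˢ K, q.1 ≠ q.2 ∧ a ≤ (sparse u ∩ (A q.1 ∩ A q.2)).card with hD
  have hPD : prob D ≤ 1 / 4 := by
    refine (prob_exists_le (K ×ˢ K) _).trans ?_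
    have h1 : ∀ q ∈ K ×ˢ K, prob (fun u : V → Fin M => q.1 ≠ q.2 ∧
        a ≤ (sparse u ∩ (A q.1 ∩ A q.2)).card) ≤ (t.choose a : ℝ) / (M : ℝ) ^ a := by
      intro q hq
      obtain ⟨hq1, hq2⟩ := mem_product.1 hq
      by_cases hne : q.1 = q.2
      · rw [prob_false (fun u h => h.1 hne)]
        positivity
      · exact (prob_mono fun u h => h.2).trans (prob_many_le hM _ (ht _ hq1 _ hq2 hne))
    refine (Finset.sum_le_sum h1).trans ?_
    rw [Finset.sum_const, nsmul_eq_mul, card_product, mul_div_assoc', div_le_iff₀ (by positivity)]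
    have h2 : (4 * K.card ^ 2 * t.choose a : ℝ) ≤ (M : ℝ) ^ a := by exact_mod_cast hnum
    push_cast
    nlinarith
  have hPbad : ∀ k ∈ K, prob (bad k) ≤ (∑ z ∈ H k, (1 / (M : ℝ)) ^ z.card) + 1 / 16 := by
    intro k hk
    refine (prob_or_le _ _).trans (add_le_add ?_ (prob_few_le hM (A k) (hs k hk) h64))
    refine (prob_exists_le (H k) _).trans (le_of_eq ?_)
    exact Finset.sum_congr rfl fun z _ => prob_subset_sparse hM z
  have hE : ∑ k ∈ K, prob (bad k) ≤ (K.card : ℝ) * (3 / 16) := by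
    refine (Finset.sum_le_sum hPbad).trans ?_
    rw [Finset.sum_add_distrib, Finset.sum_const, nsmul_eq_mul]
    linarith
  -- Markov
  set Bm : (V → Fin M) → Prop := fun u => K.card < 2 * (K.filter fun k => bad k u).card with hBm
  have hPB : prob Bm ≤ 3 / 8 := by
    have h1 : ∑ u : V → Fin M, (if Bm u then (1 : ℝ) else 0) * (K.card / 2) ≤
        ∑ u : V → Fin M, ∑ k ∈ K, (if bad k u then (1 : ℝ) else 0) := by
      refine Finset.sum_le_sum fun u _ => ?_
      rw [Finset.sum_boole]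
      split_ifs with hu
      · rw [one_mul, div_le_iff₀ (by norm_num : (0 : ℝ) < 2)]
        have h2 : (K.card : ℝ) < 2 * ((K.filter fun k => bad k u).card : ℝ) := by exact_mod_cast hu
        linarith
      · rw [zero_mul]
        positivity
    rw [← Finset.sum_mul, sum_ind hΩ, Finset.sum_comm,
      Finset.sum_congr rfl fun k _ => sum_ind hΩ (bad k), ← Finset.mul_sum] at h1
    have h2 : prob Bm * (K.card / 2) ≤ ∑ k ∈ K, prob (bad k) := by
      have h3 : (Fintype.card (V → Fin M) : ℝ) * (prob Bm * (K.card / 2)) ≤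
          (Fintype.card (V → Fin M) : ℝ) * ∑ k ∈ K, prob (bad k) := by linarith
      exact le_of_mul_le_mul_left h3 hΩ
    by_contra hcon
    push Not at hcon
    nlinarith
  have hex : ∃ u : V → Fin M, ¬ (D u ∨ Bm u) := by
    by_contra hcon
    push Not at hcon
    have : Nonempty (V → Fin M) := ⟨fun _ => ⟨0, hM⟩⟩
    have h1 : prob (fun u : V → Fin M => D u ∨ Bm u) = 1 := prob_true fun u => hcon u
    have h2 := prob_or_le D Bm
    rw [h1] at h2
    linarith
  obtain ⟨u, hu⟩ := hex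
  rw [not_or] at hu
  refine ⟨sparse u, K.filter fun k => ¬ bad k u, filter_subset _ _, ?_, ?_, ?_, ?_⟩
  · have h1 := Finset.card_filter_add_card_filter_not (s := K) fun k => bad k u
    have h2 := not_lt.1 hu.2
    omega
  · intro k hk l hl hkl
    by_contra hcon
    exact hu.1 ⟨(k, l), mem_product.2 ⟨(mem_filter.1 hk).1, (mem_filter.1 hl).1⟩, hkl,
      not_lt.1 hcon⟩
  · intro k hk
    by_contra hcon
    exact (mem_filter.1 hk).2 (Or.inr (not_le.1 hcon))
  · intro k hk z hz hzu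
    exact (mem_filter.1 hk).2 (Or.inl ⟨z, hz, hzu⟩)

end

end Pool.Agent.Lib_MP_22d2c8_few
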