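import Pool.Agent.Lib_MP_22d2c8_few.Net
import Pool.Agent.Lib_MP_22d2c8_few.FewRand

/-!
# Few hazards: the wires of a circuit, for a general family of sets
-/

set_option autoImplicit false

open Finset

namespace Pool.Agent.Lib_MP_22d2c8_few

variable {V : Type} [Fintype V] [DecidableEq V] {n : ℕ}

theorem few_hazards (C : Circuit V n) {ι : Type} [DecidableEq ι] (K : Finset ι)
    (A : ι → Finset V) (X0 : Finset V) (hAX : ∀ k ∈ K, A k ⊆ X0) (out : ι → V ⊕ Fin n)
    (x : V → Bool) (a : V ⊕ Fin n → Bool) (ha : C.IsRun x a) {M r t q s : ℕ} (hM : 1 ≤ M)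
    (hr : 1 ≤ r) (hs : ∀ k ∈ K, s ≤ (A k).card)
    (ht : ∀ k ∈ K, ∀ l ∈ K, k ≠ l → (A k ∩ A l).card ≤ t)
    (hnum : 4 * K.card ^ 2 * t.choose q ≤ M ^ q) (hq : 32 ≤ q) (hbig : 2 * (q * M) * r < s)
    (hA : ∀ k ∈ K, ∀ i ∈ A k, C.Unst a {i} (out k))
    (hconst : ∀ k ∈ K, ∀ z ⊆ X0 \ A k, z.card ≤ r → ∀ y a', (∀ i, i ∉ z → y i = x i) →
      C.IsRun y a' → a' (out k) = a (out k))
    (H : ι → Finset (Finset V))
    (hH : ∀ k ∈ K, ∀ z ⊆ X0, z.card ≤ r → C.IsHazard x (out k) z → z ∈ H k)
    (hsum : ∑ k ∈ K, ∑ z ∈ H k, (1 / (M : ℝ)) ^ z.card ≤ (K.card : ℝ) / 8) :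
    K.card * (r + 1) ≤ 2 * C.wires := by
  classical
  have h64 : 64 * M ≤ s := by
    have h1 : 32 * M ≤ q * M := Nat.mul_le_mul_right _ hq
    have h2 : 2 * (q * M) * 1 ≤ 2 * (q * M) * r := Nat.mul_le_mul_left _ hr
    omega
  obtain ⟨N, K', hK', hcard, hint, hbigN, hno⟩ := exists_good hM K A H hs ht hnum h64 hsum
  have hcore : K'.card * (r + 1) ≤ ∑ g, (C.preds g).card := by
    refine core (C.unst_infl a) K' A out (N ∩ X0) (t := q) (r := r) (by omega) r hr ?_ ?_ ?_
      le_rfl ?_ hr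
    · intro k hk l hl hkl
      refine (card_le_card ?_).trans (hint k hk l hl hkl).le
      exact inter_subset_inter_right inter_subset_left
    · intro k hk i hi
      exact hA k (hK' hk) i hi
    · intro k hk z hz hzr hu
      have h1 : z ⊆ X0 \ A k := fun i hi => by
        have := hz hi
        rw [mem_sdiff, mem_inter] at this
        exact mem_sdiff.2 ⟨this.1.2, this.2⟩
      have h2 : z ⊆ N := fun i hi => by
        have := hz hi
        rw [mem_sdiff, mem_inter] at this
        exact this.1.1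
      exact hno k hk z (hH k (hK' hk) z (h1.trans sdiff_subset) hzr (C.isHazard_of_unst ha hu
        (hconst k (hK' hk) z h1 hzr))) h2
    · intro k hk
      have h1 : (N ∩ X0) ∩ A k = N ∩ A k := by
        rw [inter_assoc, inter_eq_right.2 (hAX k (hK' hk))]
      rw [h1]
      have h2 := hbigN k hk
      have h3 : 2 * M * (q * r) < 2 * M * (N ∩ A k).card := by
        calc 2 * M * (q * r) = 2 * (q * M) * r := by ring
          _ < s := hbig
          _ ≤ _ := h2
      exact Nat.lt_of_mul_lt_mul_left h3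
  calc K.card * (r + 1) ≤ 2 * K'.card * (r + 1) := Nat.mul_le_mul_right _ hcard
    _ = 2 * (K'.card * (r + 1)) := by ring
    _ ≤ 2 * C.wires := Nat.mul_le_mul_left _ hcore

namespace Circuit

/-- With stable inputs all vertices are stable. -/
theorem ternary_empty {V : Type} {s : ℕ} (C : Circuit V s) {x : V → Bool}
    {a : V ⊕ Fin s → Bool} (ha : C.IsRun x a) {T : V ⊕ Fin s → Option Bool}
    (hT : C.IsTernary x ∅ T) : ∀ v, T v = some (a v) := by
  classical
  have hin : ∀ i, T (Sum.inl i) = some (a (Sum.inl i)) := by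
    intro i
    rw [hT.1, ha.1]
    simp
  have key : ∀ k : ℕ, ∀ g : Fin s, (g : ℕ) < k → T (Sum.inr g) = some (a (Sum.inr g)) := by
    intro k
    induction k with
    | zero => exact fun g hg => absurd hg (Nat.not_lt_zero _)
    | succ k ih =>
      intro g hg
      rw [hT.2]
      intro b hb
      rw [ha.2]
      refine C.fn_local g _ _ fun w hw => ?_
      rcases w with i | h
      · exact hb _ _ (hin i)
      · have h1 : (h : ℕ) < g := C.order g h hw
        exact hb _ _ (ih h (by omega))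
  intro v
  rcases v with i | g
  · exact hin i
  · exact key _ g (Nat.lt_succ_self _)

theorem not_isHazard_empty {V : Type} {s : ℕ} (C : Circuit V s) (x : V → Bool)
    (v : V ⊕ Fin s) : ¬ C.IsHazard x v ∅ := by
  rintro ⟨-, T, hT, hv⟩
  obtain ⟨a, ha⟩ := C.exists_run x
  rw [C.ternary_empty ha hT v] at hv
  exact absurd hv (by simp)

end Circuit

end Pool.Agent.Lib_MP_22d2c8_few
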