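import Pool.Agent.Lib_MP_22d2c8_few.MulExact

/-!
# Integer multiplication: few hazards at most inputs

`mul_few_at`: as `mul_few_exact`, but at the inputs `(x, y)` for which half of the blocks of `L`
binary digits of `x y` in the middle are not close to `0` or to `2 ^ L`.
-/

set_option autoImplicit false

namespace Pool.Agent.Lib_MP_22d2c8_hz

open Finset
open Pool.Agent.HazConv (val per testBit_cyclic sum_bits conv conv_le conv_per val_mul_val
  sum_lt_pow testBit_mul)

/-- The part below the digit `k` of a product of sparse numbers is small. -/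
theorem low_part (L : ℕ) (S T : Finset ℕ) {r : ℕ} (hr : 1 ≤ r) (hS : S.card ≤ r) (hrL : r < 2 ^ L)
    {k : ℕ} (hk : 1 ≤ k) : (val L S * val L T) % 2 ^ (L * k) ≤ 2 * r * 2 ^ (L * (k - 1)) := by
  set K := S.sup id + T.sup id + 1 with hK
  rw [val_mul_val L S T (k + K) ?_, sum_range_add (fun k => conv S T k * 2 ^ (L * k)) k K]
  · have h1 : ∑ x ∈ range K, conv S T (k + x) * 2 ^ (L * (k + x)) =
        2 ^ (L * k) * ∑ x ∈ range K, conv S T (k + x) * 2 ^ (L * x) := by
      rw [mul_sum]
      refine sum_congr rfl fun x _ => ?_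
      rw [mul_add, pow_add]
      ring
    rw [h1, Nat.add_mul_mod_self_left]
    refine (Nat.mod_le _ _).trans ?_
    obtain ⟨j, rfl⟩ : ∃ j, k = j + 1 := ⟨k - 1, by omega⟩
    rw [sum_range_succ, Nat.add_sub_cancel]
    have h2 : ∑ x ∈ range j, conv S T x * 2 ^ (L * x) < 2 ^ (L * j) :=
      sum_lt_pow L _ (fun k => (conv_le S T k).trans_lt (lt_of_le_of_lt hS hrL)) j
    have h3 : conv S T j * 2 ^ (L * j) ≤ r * 2 ^ (L * j) :=
      Nat.mul_le_mul_right _ ((conv_le S T j).trans hS)
    have h4 : 2 ^ (L * j) + r * 2 ^ (L * j) ≤ 2 * r * 2 ^ (L * j) := by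
      have : 1 * 2 ^ (L * j) ≤ r * 2 ^ (L * j) := Nat.mul_le_mul_right _ hr
      have h5 : 2 * r * 2 ^ (L * j) = r * 2 ^ (L * j) + r * 2 ^ (L * j) := by ring
      omega
    omega
  · intro i hi j hj
    have h1 : i ≤ S.sup id := le_sup (f := id) hi
    have h2 : j ≤ T.sup id := le_sup (f := id) hj
    omega

/-- No carry and no borrow into a block if the block below is not close to the ends. -/
theorem no_carry {B W r P P' Dp Dm : ℕ} (hB : 0 < B) (hW : 0 < W) (hD : P' + Dm = P + Dp)
    (hp : Dp % (B * W) ≤ 2 * r * B) (hm : Dm % (B * W) ≤ 2 * r * B)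
    (h1 : 2 * r ≤ P / B % W) (h2 : P / B % W + 2 * r < W) :
    P' / (B * W) + Dm / (B * W) = P / (B * W) + Dp / (B * W) := by
  set Q := B * W with hQ
  have hQ0 : 0 < Q := Nat.mul_pos hB hW
  set b := P / B % W with hb
  have hPlow : P % Q = P % B + B * b := Nat.mod_mul
  have hPB : P % B < B := Nat.mod_lt _ hB
  have h3 : 2 * r * B ≤ B * b := by
    calc 2 * r * B = B * (2 * r) := by ring
      _ ≤ B * b := Nat.mul_le_mul_left _ h1
  have h4 : B * b + 2 * r * B + B ≤ Q := by
    calc B * b + 2 * r * B + B = B * (b + 2 * r + 1) := by ring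
      _ ≤ B * W := Nat.mul_le_mul_left _ h2
  obtain ⟨R, hR⟩ : ∃ R, R + Dm % Q = P % Q + Dp % Q := ⟨P % Q + Dp % Q - Dm % Q, by omega⟩
  have hRQ : R < Q := by omega
  have e1 : Q * (P / Q) + P % Q = P := Nat.div_add_mod P Q
  have e2 : Q * (Dp / Q) + Dp % Q = Dp := Nat.div_add_mod Dp Q
  have e3 : Q * (Dm / Q) + Dm % Q = Dm := Nat.div_add_mod Dm Q
  have h5 : P' + Q * (Dm / Q) = R + Q * (P / Q + Dp / Q) := by
    have : Q * (P / Q + Dp / Q) = Q * (P / Q) + Q * (Dp / Q) := by ring
    omega
  have h6 : (P' + Q * (Dm / Q)) / Q = (R + Q * (P / Q + Dp / Q)) / Q := by rw [h5]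
  rw [Nat.add_mul_div_left _ _ hQ0, Nat.add_mul_div_left _ _ hQ0, Nat.div_eq_of_lt hRQ,
    zero_add] at h6
  exact h6

section change

variable {n L m : ℕ}

/-- the digits which change from `0` to `1` -/
noncomputable def upSet (L : ℕ) {n m : ℕ} [NeZero m] (x x' : Fin n → Bool) : Finset (ZMod m) :=
  univ.filter fun i => ∃ b : Fin n, (b : ℕ) = L * i.val ∧ x' b = true ∧ x b = false

theorem num_up [NeZero m] (hL : 1 ≤ L) (hn : 2 * L * m ≤ n) (x x' : Fin n → Bool)
    (hx : ∀ b, x' b ≠ x b → ∃ i : ZMod m, L * i.val = (b : ℕ)) :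
    num (fun b => x' b && !x b) = val L ((upSet L x x' : Finset (ZMod m)).image ZMod.val) := by
  refine sum_bits L hL _ ?_ _ ?_
  · intro i hi
    obtain ⟨j, -, rfl⟩ := mem_image.1 hi
    have h1 := ZMod.val_lt j
    have h2 : L * j.val < L * m := Nat.mul_lt_mul_of_pos_left h1 (by omega)
    nlinarith
  · intro b
    constructor
    · intro h
      simp only [Bool.and_eq_true, Bool.not_eq_true'] at h
      obtain ⟨i, hi⟩ := hx b (by rw [h.1, h.2]; simp)
      refine ⟨i.val, mem_image_of_mem _ (mem_filter.2 ⟨mem_univ _, b, hi.symm, h.1, h.2⟩), hi⟩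
    · rintro ⟨i, hi, h⟩
      obtain ⟨j, hj, rfl⟩ := mem_image.1 hi
      obtain ⟨-, c, hc, hc1, hc2⟩ := mem_filter.1 hj
      have : c = b := Fin.ext (hc.trans h)
      rw [← this, hc1, hc2]
      rfl

theorem num_change (x x' : Fin n → Bool) :
    num x' + num (fun b => x b && !x' b) = num x + num (fun b => x' b && !x b) := by
  unfold num
  rw [← sum_add_distrib, ← sum_add_distrib]
  refine sum_congr rfl fun b _ => ?_
  rcases hx : x b <;> rcases hx' : x' b <;> simp [hx, hx']

/-- The bit `L (m + k)` of the product changes if and only if the number of changed digits `i` with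
`k - i ∈ T` is odd. -/
theorem bit_change [NeZero m] (hL : 1 ≤ L) (hn : 2 * L * m ≤ n) (T : Finset (ZMod m))
    {r : ℕ} (hr : 1 ≤ r) (hrL : r < 2 ^ L) (x x' : Fin n → Bool)
    (hx : ∀ b, x' b ≠ x b → ∃ i : ZMod m, L * i.val = (b : ℕ))
    (hup : (upSet L x x' : Finset (ZMod m)).card ≤ r)
    (hdn : (upSet L x' x : Finset (ZMod m)).card ≤ r) (k : ZMod m) (hm : 1 ≤ m)
    (h1 : 2 * r ≤ (num x * num (ybits n L T) / 2 ^ (L * (m + k.val - 1))) % 2 ^ L)
    (h2 : (num x * num (ybits n L T) / 2 ^ (L * (m + k.val - 1))) % 2 ^ L + 2 * r < 2 ^ L) :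
    Nat.testBit (num x' * num (ybits n L T)) (L * (m + k.val)) =
      Nat.testBit (num x * num (ybits n L T)) (L * (m + k.val)) ↔
    (((upSet L x x' : Finset (ZMod m)).filter fun i => k - i ∈ T).card +
      ((upSet L x' x : Finset (ZMod m)).filter fun i => k - i ∈ T).card) % 2 = 0 := by
  have hinj : Function.Injective (ZMod.val : ZMod m → ℕ) := ZMod.val_injective m
  set y := num (ybits n L T) with hy
  have hyv : y = val L (per m T) := num_ybits hL hn T
  set Sp := (upSet L x x' : Finset (ZMod m)).image ZMod.val with hSp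
  set Sm := (upSet L x' x : Finset (ZMod m)).image ZMod.val with hSm
  have hx2 : ∀ b, x b ≠ x' b → ∃ i : ZMod m, L * i.val = (b : ℕ) := fun b h => hx b (Ne.symm h)
  have hD : num x' * y + val L Sm * y = num x * y + val L Sp * y := by
    rw [← num_up hL hn x x' hx, ← num_up hL hn x' x hx2, ← add_mul, ← add_mul, num_change x x']
  have hSpc : Sp.card ≤ r := (card_image_le).trans hup
  have hSmc : Sm.card ≤ r := (card_image_le).trans hdn
  have hQ : 2 ^ (L * (m + k.val)) = 2 ^ (L * (m + k.val - 1)) * 2 ^ L := by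
    rw [← pow_add]
    congr 1
    obtain ⟨j, hj⟩ : ∃ j, m + k.val = j + 1 := ⟨m + k.val - 1, by omega⟩
    rw [hj, Nat.add_sub_cancel]
    ring
  have hkey := no_carry (B := 2 ^ (L * (m + k.val - 1))) (W := 2 ^ L) (r := r)
    (P := num x * y) (P' := num x' * y) (Dp := val L Sp * y) (Dm := val L Sm * y)
    (by positivity) (by positivity) hD
    (by rw [← hQ, hyv]; exact low_part L Sp _ hr hSpc hrL (by omega))
    (by rw [← hQ, hyv]; exact low_part L Sm _ hr hSmc hrL (by omega)) h1 h2
  rw [← hQ] at hkey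
  have hpar : ∀ S : Finset (ZMod m), S.card ≤ r →
      (val L (S.image ZMod.val) * y / 2 ^ (L * (m + k.val))) % 2 =
        (S.filter fun i => k - i ∈ T).card % 2 := by
    intro S hS
    have hk1 := ZMod.val_lt k
    have h3 := testBit_cyclic L hL T (S.image ZMod.val) (k := m + k.val)
      (fun i hi => by
        obtain ⟨j, -, rfl⟩ := mem_image.1 hi
        exact ZMod.val_lt j)
      (by rw [card_image_of_injective _ hinj]; omega) (by omega) (by omega)
    have h4 : ((S.image ZMod.val).filter fun i : ℕ =>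
        (((m + k.val : ℕ) : ZMod m)) - ((i : ℕ) : ZMod m) ∈ T).card =
          (S.filter fun i => k - i ∈ T).card := by
      rw [← card_image_of_injective (S.filter fun i => k - i ∈ T) hinj]
      congr 1
      ext i
      simp only [mem_filter, mem_image]
      constructor
      · rintro ⟨⟨j, hj, rfl⟩, h⟩
        refine ⟨j, ⟨hj, ?_⟩, rfl⟩
        simpa using h
      · rintro ⟨j, ⟨hj, h⟩, rfl⟩
        refine ⟨⟨j, hj, rfl⟩, ?_⟩
        simpa using h
    rw [h4, ← hyv, Nat.testBit_eq_decide_div_mod_eq, decide_eq_decide] at h3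
    omega
  have hp1 := hpar _ hup
  have hp2 := hpar _ hdn
  rw [Nat.testBit_eq_decide_div_mod_eq, Nat.testBit_eq_decide_div_mod_eq, decide_eq_decide]
  rw [← hSp] at hp1
  rw [← hSm] at hp2
  omega

end change

/-- The size of `m = n / (2 L)`. -/
theorem size_gen {n r M L : ℕ} (hL1 : 1 ≤ L) (hr : 1 ≤ r) (hM : 1 ≤ M)
    (hn : 2 ^ 20 * M * r ^ 2 * (Nat.log 2 n + 1) * L ≤ n) :
    2 ^ 19 * (M * r ^ 2 * (Nat.log 2 n + 1)) ≤ n / (2 * L) ∧
      2 ^ 19 ≤ n / (2 * L) ∧ n ≤ 4 * L * (n / (2 * L)) := by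
  set l := Nat.log 2 n + 1 with hl
  set m := n / (2 * L) with hm
  have hl1 : 1 ≤ l := by omega
  have h1 : n < 2 * L * (m + 1) := by
    have := Nat.lt_mul_div_succ n (show 0 < 2 * L by omega)
    rwa [← hm] at this
  have h2 : 2 ^ 19 * (M * r ^ 2 * l) < m + 1 := by
    have h3 : 2 * L * (2 ^ 19 * (M * r ^ 2 * l)) < 2 * L * (m + 1) := by
      calc 2 * L * (2 ^ 19 * (M * r ^ 2 * l)) = 2 ^ 20 * M * r ^ 2 * l * L := by ring
        _ ≤ n := hn
        _ < _ := h1
    exact Nat.lt_of_mul_lt_mul_left h3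
  have h4 : 1 ≤ M * r ^ 2 * l := Nat.mul_pos (Nat.mul_pos hM (by positivity)) hl1
  refine ⟨by omega, by omega, ?_⟩
  have h5 : m + 1 ≤ 2 * m := by omega
  calc n ≤ 2 * L * (m + 1) := h1.le
    _ ≤ 2 * L * (2 * m) := Nat.mul_le_mul_left _ h5
    _ = 4 * L * m := by ring

/-- The choice of the parameters. -/
theorem params_gen {n r M L p : ℕ} (hL1 : 1 ≤ L) (hr : 1 ≤ r) (hM : 1 ≤ M)
    (hn : 2 ^ 20 * M * r ^ 2 * (Nat.log 2 n + 1) * L ≤ n)
    (hp3 : 3 ≤ p) (hp : n / (2 * L) ≤ 64 * p ^ 2) :
    32 ≤ 2 * Nat.log 2 n + 4 ∧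
      256 * (r + 1) ^ 2 * ((2 * Nat.log 2 n + 4) * M) < (p - 1) ^ 2 := by
  obtain ⟨h1, h2, h3⟩ := size_gen hL1 hr hM hn
  have hn2 : 2 ^ 19 ≤ n := h2.trans (Nat.div_le_self _ _)
  have hlog : 19 ≤ Nat.log 2 n := by
    calc 19 = Nat.log 2 (2 ^ 19) := (Nat.log_pow (by norm_num) 19).symm
      _ ≤ Nat.log 2 n := Nat.log_mono_right hn2
  refine ⟨by omega, ?_⟩
  obtain ⟨q, rfl⟩ : ∃ q, p = q + 1 := ⟨p - 1, by omega⟩
  simp only [Nat.add_sub_cancel]
  have hX1 : 1 ≤ M * r ^ 2 := Nat.mul_pos hM (by positivity)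
  have h4 : 2 ^ 19 * (M * r ^ 2 * (Nat.log 2 n + 1)) ≤ 64 * (q + 1) ^ 2 := h1.trans hp
  have h8 : 20 ≤ M * r ^ 2 * (Nat.log 2 n + 1) := by
    calc 20 = 1 * 20 := rfl
      _ ≤ _ := Nat.mul_le_mul hX1 (by omega)
  have h5 : 400 * (q + 1) ^ 2 ≤ 441 * q ^ 2 := by
    have h9 : 400 ^ 2 ≤ (q + 1) ^ 2 := by
      have h10 : 2 ^ 19 * 20 ≤ 64 * (q + 1) ^ 2 := le_trans (Nat.mul_le_mul_left _ h8) h4
      omega
    have h11 : 400 ≤ q + 1 := by
      by_contra h
      have : (q + 1) ^ 2 < 400 ^ 2 := Nat.pow_lt_pow_left (by omega) (by norm_num)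
      omega
    obtain ⟨u, rfl⟩ : ∃ u, q = 399 + u := ⟨q - 399, by omega⟩
    nlinarith
  have h6 : 256 * (r + 1) ^ 2 * ((2 * Nat.log 2 n + 4) * M) ≤
      2560 * (M * r ^ 2 * (Nat.log 2 n + 1)) := by
    have h9 : (r + 1) ^ 2 ≤ 4 * r ^ 2 := by nlinarith
    have h10 : 2 * (2 * Nat.log 2 n + 4) ≤ 5 * (Nat.log 2 n + 1) := by omega
    calc 256 * (r + 1) ^ 2 * ((2 * Nat.log 2 n + 4) * M)
        ≤ 256 * (4 * r ^ 2) * ((2 * Nat.log 2 n + 4) * M) :=
          Nat.mul_le_mul_right _ (Nat.mul_le_mul_left _ h9)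
      _ = 512 * (M * r ^ 2) * (2 * (2 * Nat.log 2 n + 4)) := by ring
      _ ≤ 512 * (M * r ^ 2) * (5 * (Nat.log 2 n + 1)) := Nat.mul_le_mul_left _ h10
      _ = _ := by ring
  omega

/-- The good blocks: the block of `L` binary digits of `P` below the position `L k` is not close to
`0` or to `2 ^ L`. -/
def GoodBlock (L r P k : ℕ) : Prop :=
  2 * r ≤ (P / 2 ^ (L * (k - 1))) % 2 ^ L ∧ (P / 2 ^ (L * (k - 1))) % 2 ^ L + 2 * r < 2 ^ L

open Classical in
/-- **Circuits for integer multiplication with few hazards at an input with many good blocks.** -/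
theorem mul_few_at {n r M : ℕ} (hr : 1 ≤ r) (hM : 1 ≤ M)
    (hn : 2 ^ 20 * M * r ^ 2 * (Nat.log 2 n + 1) * (Nat.log 2 r + 6) ≤ n) :
    ∃ T : Finset (ZMod (n / (2 * (Nat.log 2 r + 6)))), T.Nonempty ∧
      ∀ C : Circuit (Fin n ⊕ Fin n) (Fin (2 * n)), C.MulNat → ∀ x : Fin n → Bool,
      n / (2 * (Nat.log 2 r + 6)) ≤ 2 * ((Ico (n / (2 * (Nat.log 2 r + 6)))
        (2 * (n / (2 * (Nat.log 2 r + 6))))).filter
          (GoodBlock (Nat.log 2 r + 6) r
            (num x * num (ybits n (Nat.log 2 r + 6) T)))).card →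
      128 * (Nat.log 2 r + 6) * C.hazards x (ybits n (Nat.log 2 r + 6) T) r ≤ n * M ^ r →
      n * (r + 1) ≤ 16 * (Nat.log 2 r + 6) * C.wires ∧
        ((∀ g, C.ar g ≤ 2) → n * r ≤ 16 * (Nat.log 2 r + 6) * C.size) := by
  classical
  have hL1 : 1 ≤ Nat.log 2 r + 6 := by omega
  obtain ⟨hm1, hm2, hm3⟩ := size_gen hL1 hr hM hn
  have hpar := fun p => params_gen (p := p) hL1 hr hM hn
  set L := Nat.log 2 r + 6 with hL
  set m := n / (2 * L) with hm
  have hrL : r < 2 ^ L :=
    lt_of_lt_of_le (Nat.lt_pow_succ_log_self (by norm_num) r)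
      (Nat.pow_le_pow_right (by norm_num) (by omega))
  have hnm : 2 * L * m ≤ n := Nat.mul_div_le n (2 * L)
  obtain ⟨p, hp, hp2, hpm, hpm2⟩ := HazConv2.exists_prime m (by omega)
  have hp3 : 3 ≤ p := by
    have := hp.two_le
    omega
  obtain ⟨hq, hbig⟩ := hpar p hp3 hpm2
  set q := 2 * Nat.log 2 n + 4 with hqdef
  obtain ⟨t, ht1, ht2, ht3, ht4⟩ := Lib_MP_22d2c8_few.exists_s (p := p) (a := q) (M := M)
    (r := r + 1) (by omega) (by nlinarith) hbig
  have htp : t < p := by omega
  have : NeZero m := ⟨by omega⟩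
  set T := HazConv2.convSet p m t with hT
  refine ⟨T, ?_, fun C hC x hgood hsum => ?_⟩
  · rw [← card_pos, hT, HazConv2.card_convSet hp hpm htp]
    exact Nat.mul_pos (by omega) (by omega)
  set y := ybits n L T with hy
  -- the grid and the outputs
  have hgridlt : ∀ i : ZMod m, L * i.val < n := by
    intro i
    have h1 := ZMod.val_lt i
    have h2 : L * i.val < L * m := Nat.mul_lt_mul_of_pos_left h1 (by omega)
    nlinarith
  set grid : ZMod m → Fin n ⊕ Fin n := fun i => Sum.inl ⟨L * i.val, hgridlt i⟩ with hgrid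
  have hgridinj : Function.Injective grid := by
    intro i j h
    simp only [hgrid, Sum.inl.injEq, Fin.mk.injEq] at h
    exact ZMod.val_injective m (Nat.eq_of_mul_eq_mul_left (by omega) h)
  have hidxlt : ∀ k : ZMod m, L * (m + k.val) < 2 * n := by
    intro k
    have h1 := ZMod.val_lt k
    have h2 : L * (m + k.val) < L * (2 * m) := Nat.mul_lt_mul_of_pos_left (by omega) (by omega)
    nlinarith
  set idx : ZMod m → Fin (2 * n) := fun k => ⟨L * (m + k.val), hidxlt k⟩ with hidx
  have hidxinj : Function.Injective idx := by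
    intro i j h
    simp only [hidx, Fin.mk.injEq] at h
    have h1 := Nat.eq_of_mul_eq_mul_left (by omega) h
    exact ZMod.val_injective m (by omega)
  set A : ZMod m → Finset (Fin n ⊕ Fin n) := fun k => (HazConv2.outSet p m t k).image grid with hA
  set X0 : Finset (Fin n ⊕ Fin n) := univ.image grid with hX0
  set x0 : Fin n ⊕ Fin n → Bool := two x y with hx0
  -- the good outputs
  set Gd : Finset (ZMod m) := univ.filter fun k =>
    GoodBlock L r (num x * num y) (m + k.val) with hGd
  have hGdcard : m ≤ 2 * Gd.card := by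
    refine hgood.trans (Nat.mul_le_mul_left _ ?_)
    refine card_le_card_of_injOn (fun j => ((j - m : ℕ) : ZMod m)) ?_ ?_
    · intro j hj
      obtain ⟨h1, h2⟩ := mem_filter.1 (mem_coe.1 hj)
      rw [mem_Ico] at h1
      refine mem_coe.2 (mem_filter.2 ⟨mem_univ _, ?_⟩)
      have h3 : m + ((j - m : ℕ) : ZMod m).val = j := by
        rw [ZMod.val_natCast, Nat.mod_eq_of_lt (by omega)]
        omega
      rw [h3]
      exact h2
    · intro j hj j' hj' h
      have h1 := mem_Ico.1 (mem_filter.1 (mem_coe.1 hj)).1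
      have h2 := mem_Ico.1 (mem_filter.1 (mem_coe.1 hj')).1
      have h3 := congrArg ZMod.val h
      rw [ZMod.val_natCast, ZMod.val_natCast, Nat.mod_eq_of_lt (by omega),
        Nat.mod_eq_of_lt (by omega)] at h3
      omega
  -- the change of an output
  have hval : ∀ z ⊆ X0, z.card ≤ r → ∀ w : Fin n ⊕ Fin n → Bool, (∀ i, i ∉ z → w i = x0 i) →
      ∀ k ∈ Gd, (C.val w (C.out (idx k)) = C.val x0 (C.out (idx k)) ↔
        (((upSet L x (fun b => w (Sum.inl b)) : Finset (ZMod m)).filter fun i => k - i ∈ T).card +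
        ((upSet L (fun b => w (Sum.inl b)) x : Finset (ZMod m)).filter
          fun i => k - i ∈ T).card) % 2 = 0) := by
    intro z hz hzr w hw k hk
    have hw2 : w = two (fun b => w (Sum.inl b)) y := by
      funext v
      rcases v with b | b
      · rfl
      · have h1 : (Sum.inr b : Fin n ⊕ Fin n) ∉ z := by
          intro h
          obtain ⟨i, -, hi⟩ := mem_image.1 (hz h)
          simp [hgrid] at hi
        rw [hw _ h1, hx0]
        rfl
    have hchg : ∀ b : Fin n, w (Sum.inl b) ≠ x b → (Sum.inl b : Fin n ⊕ Fin n) ∈ z := by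
      intro b hb
      by_contra h
      exact hb (by rw [hw _ h, hx0]; rfl)
    have hchg2 : ∀ b : Fin n, w (Sum.inl b) ≠ x b → ∃ i : ZMod m, L * i.val = (b : ℕ) := by
      intro b hb
      obtain ⟨i, -, hi⟩ := mem_image.1 (hz (hchg b hb))
      refine ⟨i, ?_⟩
      simp only [hgrid, Sum.inl.injEq] at hi
      rw [← hi]
    have hcardS : ∀ S : Finset (ZMod m), (∀ i ∈ S, ∃ b : Fin n, (b : ℕ) = L * i.val ∧
        w (Sum.inl b) ≠ x b) → S.card ≤ r := by
      intro S hS
      refine le_trans ?_ hzr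
      rw [← card_image_of_injective S hgridinj]
      refine card_le_card ?_
      intro v hv
      obtain ⟨i, hi, rfl⟩ := mem_image.1 hv
      obtain ⟨b, hb, hb2⟩ := hS i hi
      have h1 : grid i = Sum.inl b := by
        simp only [hgrid, Sum.inl.injEq]
        exact Fin.ext hb.symm
      rw [h1]
      exact hchg b hb2
    rw [hw2, hC _ _ (idx k), hx0, hC _ _ (idx k)]
    exact bit_change hL1 hnm T hr hrL x (fun b => w (Sum.inl b)) hchg2
      (hcardS _ fun i hi => by
        obtain ⟨-, b, hb, hb1, hb2⟩ := mem_filter.1 hi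
        exact ⟨b, hb, by beta_reduce at hb1 hb2; rw [hb1, hb2]; simp⟩)
      (hcardS _ fun i hi => by
        obtain ⟨-, b, hb, hb1, hb2⟩ := mem_filter.1 hi
        exact ⟨b, hb, by beta_reduce at hb1 hb2; rw [hb1, hb2]; simp⟩) k (by omega)
      (mem_filter.1 hk).2.1 (mem_filter.1 hk).2.2
  have hmemA : ∀ k i, grid i ∈ A k ↔ k - i ∈ T := by
    intro k i
    rw [hA]
    simp only [mem_image]
    constructor
    · rintro ⟨j, hj, h⟩
      rw [← hgridinj h]
      exact HazConv2.mem_outSet.1 hj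
    · intro h
      exact ⟨i, HazConv2.mem_outSet.2 h, rfl⟩
  have hcardA : ∀ k, (A k).card = (p - 1) * t := by
    intro k
    rw [hA]
    simp only
    rw [card_image_of_injective _ hgridinj, HazConv2.card_outSet hp hpm htp]
  set Ko : Finset (Fin (2 * n)) := Gd.image idx with hKo
  have hKcard : Ko.card = Gd.card := by
    rw [hKo, card_image_of_injective _ hidxinj]
  have hGdle : Gd.card ≤ m := by
    have := card_le_univ Gd
    rwa [ZMod.card] at this
  -- the inverse of `idx`
  set dec : Fin (2 * n) → ZMod m := Function.invFun idx with hdec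
  have hdeci : ∀ k, dec (idx k) = k := Function.leftInverse_invFun hidxinj
  have hmain := C.few_hazards_exact x0 Ko (fun o => A (dec o)) X0 ?_
    (M := M) (r := r) (t := 2 * t ^ 2) (q := q) (s := (p - 1) * t) hM hr
    (fun k _ => (hcardA _).ge) ?_ ?_ hq ht4 ?_ ?_ ?_ ?_
  · rw [hKcard] at hmain
    constructor
    · have h1 : m * (r + 1) ≤ 4 * C.wires := by
        calc m * (r + 1) ≤ 2 * Gd.card * (r + 1) := Nat.mul_le_mul_right _ hGdcard
          _ = 2 * (Gd.card * (r + 1)) := by ring
          _ ≤ 2 * (2 * C.wires) := Nat.mul_le_mul_left _ hmain.1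
          _ = 4 * C.wires := by ring
      calc n * (r + 1) ≤ 4 * L * m * (r + 1) := Nat.mul_le_mul_right _ hm3
        _ = 4 * L * (m * (r + 1)) := by ring
        _ ≤ 4 * L * (4 * C.wires) := Nat.mul_le_mul_left _ h1
        _ = 16 * L * C.wires := by ring
    · intro har
      have h1 : m * r ≤ 4 * C.size := by
        calc m * r ≤ 2 * Gd.card * r := Nat.mul_le_mul_right _ hGdcard
          _ = 2 * (Gd.card * r) := by ring
          _ ≤ 2 * (2 * C.size) := Nat.mul_le_mul_left _ (hmain.2 har)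
          _ = 4 * C.size := by ring
      calc n * r ≤ 4 * L * m * r := Nat.mul_le_mul_right _ hm3
        _ = 4 * L * (m * r) := by ring
        _ ≤ 4 * L * (4 * C.size) := Nat.mul_le_mul_left _ h1
        _ = 16 * L * C.size := by ring
  · intro k _
    exact image_subset_image (subset_univ _)
  · intro o ho o' ho' hoo
    obtain ⟨k, -, rfl⟩ := mem_image.1 ho
    obtain ⟨l, -, rfl⟩ := mem_image.1 ho'
    have hkl : k ≠ l := fun h => hoo (by rw [h])
    rw [hdeci, hdeci, hA]
    simp only
    rw [← image_inter _ _ hgridinj, card_image_of_injective _ hgridinj]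
    exact HazConv2.card_inter hp hp2 hpm htp hkl
  · rw [hKcard]
    exact Lib_MP_22d2c8_few.num_bound (hGdle.trans (Nat.div_le_self _ _)) le_rfl ht3
  · -- an input of `A k` changes the output
    intro o ho v hv
    obtain ⟨k, hk, rfl⟩ := mem_image.1 ho
    rw [hdeci] at hv
    obtain ⟨i, hi, rfl⟩ := mem_image.1 hv
    have hiT : k - i ∈ T := HazConv2.mem_outSet.1 hi
    have hz : ∀ w, w ∉ ({grid i} : Finset (Fin n ⊕ Fin n)) →
        flipAt x0 (grid i) w = x0 w := by
      intro w hw
      rw [flipAt, Function.update_of_ne (by simpa using hw)]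
    intro hcon
    rw [hval {grid i} (by simp [hX0]) (by simpa using hr) _ hz k hk] at hcon
    -- the changed digit
    set b0 : Fin n := ⟨L * i.val, hgridlt i⟩ with hb0
    have hfl : ∀ b : Fin n, flipAt x0 (grid i) (Sum.inl b) = if b = b0 then !(x b) else x b := by
      intro b
      by_cases h : b = b0
      · rw [if_pos h, h]
        rw [flipAt, hgrid]
        simp only [hb0, Function.update_self]
        rw [hx0]
        rfl
      · rw [if_neg h, flipAt, Function.update_of_ne]
        · rw [hx0]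
          rfl
        · intro h2
          simp only [hgrid, Sum.inl.injEq] at h2
          exact h h2
    have hone : ∀ j : ZMod m, (∃ b : Fin n, (b : ℕ) = L * j.val ∧ b = b0) → j = i := by
      rintro j ⟨b, hb, hb2⟩
      rw [hb2] at hb
      have hb3 : L * i.val = L * j.val := hb
      exact (ZMod.val_injective m (Nat.eq_of_mul_eq_mul_left (by omega) hb3)).symm
    have hxb : x b0 = true ∨ x b0 = false := by
      rcases x b0
      · exact Or.inr rfl
      · exact Or.inl rfl
    have e1 : ((upSet L x (fun b => flipAt x0 (grid i) (Sum.inl b)) : Finset (ZMod m)).filter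
        fun i => k - i ∈ T) = if x b0 = true then ∅ else {i} := by
      ext j
      rw [mem_filter, upSet, mem_filter]
      rcases hxb with h0 | h0
      · rw [if_pos h0]
        simp only [mem_univ, true_and, notMem_empty, iff_false]
        rintro ⟨⟨b, hb, hb1, hb2⟩, -⟩
        beta_reduce at hb1 hb2
        rw [hfl] at hb1
        by_cases hbb : b = b0
        · rw [hbb, h0] at hb2
          exact absurd hb2 (by simp)
        · rw [if_neg hbb, hb2] at hb1
          exact absurd hb1 (by simp)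
      · rw [if_neg (by rw [h0]; simp), mem_singleton]
        simp only [mem_univ, true_and]
        constructor
        · rintro ⟨⟨b, hb, hb1, hb2⟩, -⟩
          beta_reduce at hb1 hb2
          rw [hfl] at hb1
          by_cases hbb : b = b0
          · exact hone j ⟨b, hb, hbb⟩
          · rw [if_neg hbb, hb2] at hb1
            exact absurd hb1 (by simp)
        · rintro rfl
          refine ⟨⟨b0, rfl, ?_, h0⟩, hiT⟩
          rw [hfl, if_pos rfl, h0]
          rfl
    have e2 : ((upSet L (fun b => flipAt x0 (grid i) (Sum.inl b)) x : Finset (ZMod m)).filter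
        fun i => k - i ∈ T) = if x b0 = true then {i} else ∅ := by
      ext j
      rw [mem_filter, upSet, mem_filter]
      rcases hxb with h0 | h0
      · rw [if_pos h0, mem_singleton]
        simp only [mem_univ, true_and]
        constructor
        · rintro ⟨⟨b, hb, hb1, hb2⟩, -⟩
          beta_reduce at hb1 hb2
          rw [hfl] at hb2
          by_cases hbb : b = b0
          · exact hone j ⟨b, hb, hbb⟩
          · rw [if_neg hbb, hb1] at hb2
            exact absurd hb2 (by simp)
        · rintro rfl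
          refine ⟨⟨b0, rfl, h0, ?_⟩, hiT⟩
          rw [hfl, if_pos rfl, h0]
          rfl
      · rw [if_neg (by rw [h0]; simp)]
        simp only [mem_univ, true_and, notMem_empty, iff_false]
        rintro ⟨⟨b, hb, hb1, hb2⟩, -⟩
        beta_reduce at hb1 hb2
        rw [hfl] at hb2
        by_cases hbb : b = b0
        · rw [hbb, h0] at hb1
          exact absurd hb1 (by simp)
        · rw [if_neg hbb, hb1] at hb2
          exact absurd hb2 (by simp)
    rw [e1, e2] at hcon
    rcases hxb with h0 | h0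
    · rw [if_pos h0, if_pos h0] at hcon
      simp at hcon
    · rw [if_neg (by rw [h0]; simp), if_neg (by rw [h0]; simp)] at hcon
      simp at hcon
  · -- the outputs are constant off `A k`
    intro o ho z hzX hdis hzr w hw
    obtain ⟨k, hk, rfl⟩ := mem_image.1 ho
    rw [hdeci] at hdis
    rw [hval z hzX hzr w hw k hk]
    have key : ∀ i : ZMod m, (∃ b : Fin n, (b : ℕ) = L * i.val ∧ w (Sum.inl b) ≠ x b) →
        k - i ∉ T := by
      rintro i ⟨b, hb, hb2⟩ hT'
      have h1 : grid i = Sum.inl b := by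
        simp only [hgrid, Sum.inl.injEq]
        exact Fin.ext hb.symm
      have h2 : (Sum.inl b : Fin n ⊕ Fin n) ∈ z := by
        by_contra h
        exact hb2 (by rw [hw _ h, hx0]; rfl)
      rw [← h1] at h2
      exact disjoint_left.1 hdis h2 ((hmemA k i).2 hT')
    have e1 : ((upSet L x (fun b => w (Sum.inl b)) : Finset (ZMod m)).filter
        fun i => k - i ∈ T) = ∅ := by
      rw [filter_eq_empty_iff]
      intro i hi
      obtain ⟨-, b, hb, hb1, hb2⟩ := mem_filter.1 hi
      exact key i ⟨b, hb, by beta_reduce at hb1 hb2; rw [hb1, hb2]; simp⟩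
    have e2 : ((upSet L (fun b => w (Sum.inl b)) x : Finset (ZMod m)).filter
        fun i => k - i ∈ T) = ∅ := by
      rw [filter_eq_empty_iff]
      intro i hi
      obtain ⟨-, b, hb, hb1, hb2⟩ := mem_filter.1 hi
      exact key i ⟨b, hb, by beta_reduce at hb1 hb2; rw [hb1, hb2]; simp⟩
    rw [e1, e2]
    rfl
  · -- the size of the complement of `A k`
    intro o _
    have h1 : A (dec o) ⊆ X0 := image_subset_image (subset_univ _)
    have h2 : X0.card = m := by
      rw [hX0, card_image_of_injective _ hgridinj, card_univ, ZMod.card]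
    rw [card_sdiff_of_subset h1, h2, hcardA]
    have h3 : (p - 1) * t ≤ p ^ 2 := by
      rw [pow_two]
      exact Nat.mul_le_mul (Nat.sub_le _ _) htp.le
    have h4 : M * r ≤ M * r ^ 2 * (Nat.log 2 n + 1) := by
      calc M * r = M * r * 1 := (mul_one _).symm
        _ ≤ M * r * (r * (Nat.log 2 n + 1)) :=
            Nat.mul_le_mul_left _ (Nat.mul_pos (by omega) (by omega))
        _ = _ := by ring
    have h5 : r ≤ M * r := Nat.le_mul_of_pos_left r (by omega)
    have h6 : 2 * M * r = 2 * (M * r) := by ring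
    rw [h6]
    omega
  · -- the number of hazards
    rw [hKcard]
    have hX0b : ∀ z ⊆ X0, ∀ v ∈ z, ∃ b, v = Sum.inl b := by
      intro z hz v hv
      obtain ⟨i, -, rfl⟩ := mem_image.1 (hz hv)
      exact ⟨_, rfl⟩
    have h1 : ∑ o ∈ Ko, (((X0 \ A (dec o)).powersetCard r).filter (C.IsHazard x0 o)).card ≤
        C.hazards x y r := by
      rw [← card_sigma, Circuit.hazards]
      refine card_le_card_of_injOn (fun u => (u.1, toX u.2)) ?_ ?_
      · rintro ⟨o, z⟩ hu
        obtain ⟨h2, h3⟩ := mem_filter.1 (mem_sigma.1 (mem_coe.1 hu)).2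
        obtain ⟨h4, h5⟩ := mem_powersetCard.1 h2
        simp only at h3 h4 h5
        have h6 : z ⊆ X0 := h4.trans sdiff_subset
        refine mem_coe.2 (mem_filter.2 ⟨mem_univ _, ?_, ?_⟩)
        · simp only
          rw [card_toX (hX0b z h6), h5]
        · simp only
          rw [toX_map (hX0b z h6)]
          exact h3
      · rintro ⟨o, z⟩ hu ⟨o', z'⟩ hu' h
        have h2 := (mem_powersetCard.1 (mem_filter.1 (mem_sigma.1 (mem_coe.1 hu)).2).1).1
        have h2' := (mem_powersetCard.1 (mem_filter.1 (mem_sigma.1 (mem_coe.1 hu')).2).1).1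
        simp only at h2 h2'
        simp only [Prod.mk.injEq] at h
        obtain ⟨h7, h8⟩ := h
        have h9 : z = z' := by
          rw [← toX_map (hX0b z (h2.trans sdiff_subset)),
            ← toX_map (hX0b z' (h2'.trans sdiff_subset)), h8]
        rw [h7, h9]
    have h2 : 8 * L * (16 * ∑ o ∈ Ko,
        (((X0 \ A (dec o)).powersetCard r).filter (C.IsHazard x0 o)).card) ≤
          8 * L * (Gd.card * M ^ r) := by
      calc 8 * L * (16 * ∑ o ∈ Ko,
            (((X0 \ A (dec o)).powersetCard r).filter (C.IsHazard x0 o)).card)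
          ≤ 8 * L * (16 * C.hazards x y r) :=
            Nat.mul_le_mul_left _ (Nat.mul_le_mul_left _ h1)
        _ = 128 * L * C.hazards x y r := by ring
        _ ≤ n * M ^ r := hsum
        _ ≤ 4 * L * m * M ^ r := Nat.mul_le_mul_right _ hm3
        _ ≤ 4 * L * (2 * Gd.card) * M ^ r :=
            Nat.mul_le_mul_right _ (Nat.mul_le_mul_left _ hGdcard)
        _ = 8 * L * (Gd.card * M ^ r) := by ring
    exact Nat.le_of_mul_le_mul_left h2 (by omega)

end Pool.Agent.Lib_MP_22d2c8_hz
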