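import Pool.Agent.Lib_MP_22d2c8_few.MulFew

/-!
# Hazards with exactly `r` unstable inputs

Away from the set `A k` the unstable sets form an up-set, so it is enough to count the hazards with
exactly `r` unstable inputs. Integer multiplication: `mul_few_exact`.
-/

set_option autoImplicit false

namespace Pool.Agent.Lib_MP_22d2c8_hz

open Finset

/-- More unstable inputs, more unstable vertices. -/
theorem Circuit.tval_none_mono {ι κ : Type} [DecidableEq ι] (C : Circuit ι κ) (x : ι → Bool)
    {U U' : Finset ι} (h : U ⊆ U') (w : ι ⊕ Fin C.size) :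
    C.tval (unst x U) w = none → C.tval (unst x U') w = none := by
  have hx : ∀ U : Finset ι, ∀ i, unst x U i = none ∨ unst x U i = some (x i) := by
    intro U i
    unfold unst
    split_ifs
    · exact Or.inl rfl
    · exact Or.inr rfl
  refine C.induct (p := fun w => C.tval (unst x U) w = none → C.tval (unst x U') w = none)
    ?_ ?_ w
  · intro i hi
    rw [C.tval_inl] at hi ⊢
    unfold unst at hi ⊢
    split_ifs at hi with h1
    rw [if_pos (h h1)]
  · intro g hg hn
    rw [C.tval_inr] at hn ⊢
    refine kleene_mono _ _ _ (fun j => ?_) hn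
    rcases C.tval_sound (unst x U) x (hx U) (C.src g j) with h1 | h1
    · exact Or.inl (hg j h1)
    · rcases C.tval_sound (unst x U') x (hx U') (C.src g j) with h2 | h2
      · exact Or.inl h2
      · exact Or.inr (h2.trans h1.symm)

section upset

variable {α : Type} [DecidableEq α] (X : Finset α) (P : Finset α → Prop) [DecidablePred P]

theorem upset_step {r : ℕ}
    (hP : ∀ z ⊆ X, z.card < r → P z → ∀ v ∈ X, v ∉ z → P (insert v z)) {i : ℕ} (hi : i < r) :
    ((X.powersetCard i).filter P).card * (X.card - i) ≤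
      ((X.powersetCard (i + 1)).filter P).card * (i + 1) := by
  have h1 : (((X.powersetCard i).filter P).sigma fun z => X \ z).card =
      ((X.powersetCard i).filter P).card * (X.card - i) := by
    rw [card_sigma, ← smul_eq_mul, ← sum_const]
    refine sum_congr rfl fun z hz => ?_
    obtain ⟨hz1, hz2⟩ := mem_powersetCard.1 (mem_filter.1 hz).1
    rw [card_sdiff_of_subset hz1, hz2]
  have h2 : (((X.powersetCard (i + 1)).filter P).sigma fun z => z).card =
      ((X.powersetCard (i + 1)).filter P).card * (i + 1) := by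
    rw [card_sigma, ← smul_eq_mul, ← sum_const]
    refine sum_congr rfl fun z hz => ?_
    exact (mem_powersetCard.1 (mem_filter.1 hz).1).2
  rw [← h1, ← h2]
  refine card_le_card_of_injOn (fun u => ⟨insert u.2 u.1, u.2⟩) ?_ ?_
  · rintro ⟨z, v⟩ hu
    obtain ⟨hz, hv⟩ := mem_sigma.1 (mem_coe.1 hu)
    obtain ⟨hz0, hz3⟩ := mem_filter.1 hz
    obtain ⟨hz1, hz2⟩ := mem_powersetCard.1 hz0
    obtain ⟨hv1, hv2⟩ := mem_sdiff.1 hv
    simp only at hz1 hz2 hz3 hv1 hv2
    refine mem_coe.2 (mem_sigma.2 ⟨mem_filter.2 ⟨mem_powersetCard.2 ⟨?_, ?_⟩, ?_⟩, ?_⟩)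
    · exact insert_subset hv1 hz1
    · rw [card_insert_of_notMem hv2, hz2]
    · exact hP z hz1 (by omega) hz3 v hv1 hv2
    · exact mem_insert_self _ _
  · rintro ⟨z, v⟩ hu ⟨z', v'⟩ hu' h
    obtain ⟨hz, hv⟩ := mem_sigma.1 (mem_coe.1 hu)
    obtain ⟨hz', hv'⟩ := mem_sigma.1 (mem_coe.1 hu')
    have h3 := (mem_sdiff.1 hv).2
    have h4 := (mem_sdiff.1 hv').2
    simp only at h3 h4
    simp only [Sigma.mk.injEq, heq_eq_eq] at h
    obtain ⟨h5, rfl⟩ := h
    have h6 : z = z' := by
      rw [← erase_insert h3, ← erase_insert h4, h5]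
    rw [h6]

theorem upset_pow {r D : ℕ}
    (hP : ∀ z ⊆ X, z.card < r → P z → ∀ v ∈ X, v ∉ z → P (insert v z)) (hD : D + r ≤ X.card) :
    ∀ j ≤ r, ((X.powersetCard (r - j)).filter P).card * D ^ j ≤
      ((X.powersetCard r).filter P).card * r ^ j := by
  intro j
  induction j with
  | zero => intro _; simp
  | succ j ih =>
    intro hj
    have h1 := ih (by omega)
    have h2 := upset_step X P hP (i := r - (j + 1)) (by omega)
    have h3 : r - (j + 1) + 1 = r - j := by omega
    rw [h3] at h2
    calc ((X.powersetCard (r - (j + 1))).filter P).card * D ^ (j + 1)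
        = ((X.powersetCard (r - (j + 1))).filter P).card * D * D ^ j := by ring
      _ ≤ ((X.powersetCard (r - (j + 1))).filter P).card * (X.card - (r - (j + 1))) * D ^ j :=
          Nat.mul_le_mul_right _ (Nat.mul_le_mul_left _ (by omega))
      _ ≤ ((X.powersetCard (r - j)).filter P).card * (r - j) * D ^ j :=
          Nat.mul_le_mul_right _ h2
      _ ≤ ((X.powersetCard (r - j)).filter P).card * r * D ^ j :=
          Nat.mul_le_mul_right _ (Nat.mul_le_mul_left _ (by omega))
      _ = ((X.powersetCard (r - j)).filter P).card * D ^ j * r := by ring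
      _ ≤ ((X.powersetCard r).filter P).card * r ^ j * r := Nat.mul_le_mul_right _ h1
      _ = _ := by ring

theorem sum_half_range (r : ℕ) : ∑ i ∈ Icc 1 r, (1 / 2 : ℝ) ^ (r - i) ≤ 2 := by
  have h : ∀ r : ℕ, ∑ i ∈ Icc 1 r, (1 / 2 : ℝ) ^ (r - i) = 2 - 2 * (1 / 2) ^ r := by
    intro r
    induction r with
    | zero => simp
    | succ r ih =>
      rw [sum_Icc_succ_top (by omega), Nat.sub_self, pow_zero]
      have h1 : ∑ i ∈ Icc 1 r, (1 / 2 : ℝ) ^ (r + 1 - i) =
          (1 / 2) * ∑ i ∈ Icc 1 r, (1 / 2 : ℝ) ^ (r - i) := by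
        rw [mul_sum]
        refine sum_congr rfl fun i hi => ?_
        rw [mem_Icc] at hi
        rw [show r + 1 - i = (r - i) + 1 by omega, pow_succ]
        ring
      rw [h1, ih, pow_succ]
      ring
  rw [h r]
  have : (0 : ℝ) ≤ 2 * (1 / 2) ^ r := by positivity
  linarith

/-- The weighted number of small members of an up-set. -/
theorem upset_sum {r M : ℕ} (hr : 1 ≤ r) (hM : 1 ≤ M)
    (hP : ∀ z ⊆ X, z.card < r → P z → ∀ v ∈ X, v ∉ z → P (insert v z))
    (hX : 2 * M * r + r ≤ X.card) :
    ∑ i ∈ Icc 1 r, (((X.powersetCard i).filter P).card : ℝ) * (1 / (M : ℝ)) ^ i ≤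
      2 * (((X.powersetCard r).filter P).card : ℝ) * (1 / (M : ℝ)) ^ r := by
  have hM0 : (0 : ℝ) < (M : ℝ) := by exact_mod_cast hM
  set F := (((X.powersetCard r).filter P).card : ℝ) with hF
  have h1 : ∀ i ∈ Icc 1 r, (((X.powersetCard i).filter P).card : ℝ) * (1 / (M : ℝ)) ^ i ≤
      F * (1 / (M : ℝ)) ^ r * (1 / 2 : ℝ) ^ (r - i) := by
    intro i hi
    rw [mem_Icc] at hi
    have h2 := upset_pow X P (D := 2 * M * r) hP hX (r - i) (by omega)
    rw [show r - (r - i) = i by omega] at h2
    have h3 : ((X.powersetCard i).filter P).card * (2 * M) ^ (r - i) ≤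
        ((X.powersetCard r).filter P).card := by
      have h4 : (((X.powersetCard i).filter P).card * (2 * M) ^ (r - i)) * r ^ (r - i) ≤
          ((X.powersetCard r).filter P).card * r ^ (r - i) := by
        rw [mul_assoc, ← mul_pow]
        exact h2
      exact Nat.le_of_mul_le_mul_right h4 (by positivity)
    have h5 : (((X.powersetCard i).filter P).card : ℝ) * (2 * M) ^ (r - i) ≤ F := by
      rw [hF]
      exact_mod_cast h3
    have h6 : (1 / (M : ℝ)) ^ i = (1 / (M : ℝ)) ^ r * (M : ℝ) ^ (r - i) := by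
      have : (1 / (M : ℝ)) ^ r = (1 / (M : ℝ)) ^ i * (1 / (M : ℝ)) ^ (r - i) := by
        rw [← pow_add]
        congr 1
        omega
      rw [this, mul_assoc, ← mul_pow]
      have : (1 / (M : ℝ)) * M = 1 := by field_simp
      rw [this, one_pow, mul_one]
    rw [h6]
    have h7 : (2 * (M : ℝ)) ^ (r - i) = 2 ^ (r - i) * (M : ℝ) ^ (r - i) := mul_pow _ _ _
    have h8 : (0 : ℝ) < 2 ^ (r - i) := by positivity
    have h9 : (((X.powersetCard i).filter P).card : ℝ) * (M : ℝ) ^ (r - i) ≤
        F * (1 / 2 : ℝ) ^ (r - i) := by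
      rw [one_div, inv_pow, ← div_eq_mul_inv, le_div_iff₀ h8]
      calc (((X.powersetCard i).filter P).card : ℝ) * (M : ℝ) ^ (r - i) * 2 ^ (r - i)
          = (((X.powersetCard i).filter P).card : ℝ) * (2 * M) ^ (r - i) := by rw [h7]; ring
        _ ≤ F := h5
    have h10 : (0 : ℝ) ≤ (1 / (M : ℝ)) ^ r := by positivity
    calc (((X.powersetCard i).filter P).card : ℝ) * ((1 / (M : ℝ)) ^ r * (M : ℝ) ^ (r - i))
        = (1 / (M : ℝ)) ^ r * ((((X.powersetCard i).filter P).card : ℝ) * (M : ℝ) ^ (r - i)) := by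
          ring
      _ ≤ (1 / (M : ℝ)) ^ r * (F * (1 / 2 : ℝ) ^ (r - i)) := mul_le_mul_of_nonneg_left h9 h10
      _ = _ := by ring
  refine (sum_le_sum h1).trans ?_
  rw [← mul_sum]
  have h2 : (0 : ℝ) ≤ F * (1 / (M : ℝ)) ^ r := by positivity
  calc F * (1 / (M : ℝ)) ^ r * ∑ i ∈ Icc 1 r, (1 / 2 : ℝ) ^ (r - i)
      ≤ F * (1 / (M : ℝ)) ^ r * 2 := mul_le_mul_of_nonneg_left (sum_half_range r) h2
    _ = _ := by ring

end upset

open Classical in
/-- **Few hazards with exactly `r` unstable inputs, a general family of sets.** -/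
theorem Circuit.few_hazards_exact {ι κ : Type} [Fintype ι] [DecidableEq ι] [DecidableEq κ]
    (C : Circuit ι κ) (x : ι → Bool) (K : Finset κ) (A : κ → Finset ι) (X0 : Finset ι)
    (hAX : ∀ k ∈ K, A k ⊆ X0) {M r t q s : ℕ} (hM : 1 ≤ M) (hr : 1 ≤ r)
    (hs : ∀ k ∈ K, s ≤ (A k).card) (ht : ∀ k ∈ K, ∀ l ∈ K, k ≠ l → (A k ∩ A l).card ≤ t)
    (hnum : 4 * K.card ^ 2 * t.choose q ≤ M ^ q) (hq : 32 ≤ q) (hbig : 2 * (q * M) * (r + 1) < s)
    (hA : ∀ k ∈ K, ∀ i ∈ A k, C.val (flipAt x i) (C.out k) ≠ C.val x (C.out k))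
    (hconst : ∀ k ∈ K, ∀ U ⊆ X0, Disjoint U (A k) → U.card ≤ r → ∀ y : ι → Bool,
      (∀ i, i ∉ U → y i = x i) → C.val y (C.out k) = C.val x (C.out k))
    (hX : ∀ k ∈ K, 2 * M * r + r ≤ (X0 \ A k).card)
    (hsum : 16 * ∑ k ∈ K, (((X0 \ A k).powersetCard r).filter (C.IsHazard x k)).card ≤
      K.card * M ^ r) :
    K.card * (r + 1) ≤ 2 * C.wires ∧ ((∀ g, C.ar g ≤ 2) → K.card * r ≤ 2 * C.size) := by
  have hM0 : (0 : ℝ) < (M : ℝ) := by exact_mod_cast hM
  refine C.few_hazards_disjoint x K A X0 hAX hM hr hs ht hnum hq hbig hA hconst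
    (fun k => (X0 \ A k).powerset.filter fun z => z.card ≤ r ∧ C.IsHazard x k z) ?_ ?_
  · intro k hk U hU hdis hUr hz
    refine mem_filter.2 ⟨mem_powerset.2 ?_, hUr, hz⟩
    intro i hi
    exact mem_sdiff.2 ⟨hU hi, fun h => disjoint_left.1 hdis hi h⟩
  · have h1 : ∀ k ∈ K, ∑ z ∈ (X0 \ A k).powerset.filter
        (fun z => z.card ≤ r ∧ C.IsHazard x k z), (1 / (M : ℝ)) ^ z.card ≤
        2 * ((((X0 \ A k).powersetCard r).filter (C.IsHazard x k)).card : ℝ) *
          (1 / (M : ℝ)) ^ r := by
      intro k hk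
      refine le_trans (le_of_eq ?_) (upset_sum (X0 \ A k) (C.IsHazard x k) hr hM ?_ (hX k hk))
      · rw [← sum_fiberwise_of_maps_to (s := (X0 \ A k).powerset.filter
          (fun z => z.card ≤ r ∧ C.IsHazard x k z)) (t := Icc 1 r)
          (g := fun z => z.card) ?_]
        · refine sum_congr rfl fun i hi => ?_
          have h2 : ((X0 \ A k).powerset.filter
              (fun z => z.card ≤ r ∧ C.IsHazard x k z)).filter (fun z => z.card = i) =
              ((X0 \ A k).powersetCard i).filter (C.IsHazard x k) := by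
            ext z
            rw [mem_Icc] at hi
            simp only [mem_filter, mem_powerset, mem_powersetCard]
            constructor
            · rintro ⟨⟨h3, h4, h5⟩, h6⟩
              exact ⟨⟨h3, h6⟩, h5⟩
            · rintro ⟨⟨h3, h6⟩, h5⟩
              exact ⟨⟨h3, by omega, h5⟩, h6⟩
          rw [h2, sum_congr rfl (fun z hz => by
            rw [(mem_powersetCard.1 (mem_filter.1 hz).1).2] :
            ∀ z ∈ ((X0 \ A k).powersetCard i).filter (C.IsHazard x k),
              (1 / (M : ℝ)) ^ z.card = (1 / (M : ℝ)) ^ i), sum_const, nsmul_eq_mul]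
        · intro z hz
          obtain ⟨-, h3, h4⟩ := mem_filter.1 hz
          rw [mem_Icc]
          refine ⟨?_, h3⟩
          rw [Nat.one_le_iff_ne_zero]
          intro h5
          rw [card_eq_zero] at h5
          rw [h5] at h4
          exact C.not_isHazard_empty _ _ h4
      · intro z hz hzr hzh v hv hvz
        have h3 : ∀ w, w ∈ insert v z → w ∈ X0 \ A k := by
          intro w hw
          rcases mem_insert.1 hw with rfl | h
          · exact hv
          · exact hz h
        refine ⟨hconst k hk (insert v z) (fun w hw => (mem_sdiff.1 (h3 w hw)).1) ?_ ?_,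
          C.tval_none_mono x (subset_insert _ _) _ hzh.2⟩
        · rw [disjoint_left]
          exact fun w hw => (mem_sdiff.1 (h3 w hw)).2
        · rw [card_insert_of_notMem hvz]
          omega
    refine (sum_le_sum h1).trans ?_
    rw [← sum_mul, ← mul_sum]
    have h2 : (16 : ℝ) * ∑ k ∈ K,
        ((((X0 \ A k).powersetCard r).filter (C.IsHazard x k)).card : ℝ) ≤
          K.card * (M : ℝ) ^ r := by exact_mod_cast hsum
    have h3 : (1 / (M : ℝ)) ^ r * (M : ℝ) ^ r = 1 := by
      rw [← mul_pow, one_div, inv_mul_cancel₀ hM0.ne', one_pow]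
    have h4 : (0 : ℝ) ≤ (1 / (M : ℝ)) ^ r := by positivity
    nlinarith

/-- **Circuits for integer multiplication with few hazards.** -/
theorem mul_few_exact {n r M : ℕ} (hr : 1 ≤ r) (hM : 1 ≤ M)
    (hn : 2 ^ 20 * M * r ^ 2 * (Nat.log 2 n + 1) * (Nat.log 2 r + 1) ≤ n) :
    ∃ y : Fin n → Bool, ∀ C : Circuit (Fin n ⊕ Fin n) (Fin (2 * n)), C.MulNat →
      64 * (Nat.log 2 r + 1) * C.hazards (fun _ => false) y r ≤ n * M ^ r →
      n * (r + 1) ≤ 8 * (Nat.log 2 r + 1) * C.wires ∧
        ((∀ g, C.ar g ≤ 2) → n * r ≤ 8 * (Nat.log 2 r + 1) * C.size) := by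
  classical
  obtain ⟨hm1, hm2, hm3⟩ := Lib_MP_22d2c8_few.size_m hr hM hn
  set L := Nat.log 2 r + 1 with hL
  set m := n / (2 * L) with hm
  have hL1 : 1 ≤ L := by omega
  have hrL : r < 2 ^ L := Nat.lt_pow_succ_log_self (by norm_num) r
  have hnm : 2 * L * m ≤ n := Nat.mul_div_le n (2 * L)
  obtain ⟨p, hp, hp2, hpm, hpm2⟩ := HazConv2.exists_prime m (by omega)
  have hp3 : 3 ≤ p := by
    have := hp.two_le
    omega
  obtain ⟨hq, hbig⟩ := params2 hr hM hn hp3 hpm2
  set q := 2 * Nat.log 2 n + 4 with hqdef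
  obtain ⟨t, ht1, ht2, ht3, ht4⟩ := Lib_MP_22d2c8_few.exists_s (p := p) (a := q) (M := M)
    (r := r + 1) (by omega) (by nlinarith) hbig
  have htp : t < p := by omega
  have : NeZero m := ⟨by omega⟩
  set T := HazConv2.convSet p m t with hT
  refine ⟨ybits n L T, fun C hC hsum => ?_⟩
  set y := ybits n L T with hy
  -- the grid and the outputs
  have hgridlt : ∀ i : ZMod m, L * i.val < n := by
    intro i
    have h1 := ZMod.val_lt i
    have h2 : L * i.val < L * m := Nat.mul_lt_mul_of_pos_left h1 (by omega)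
    nlinarith
  set grid : ZMod m → Fin n ⊕ Fin n := fun i => Sum.inl ⟨L * i.val, hgridlt i⟩ with hgrid
  have hgridinj : Function.Injective grid := by
    intro i j h
    simp only [hgrid, Sum.inl.injEq, Fin.mk.injEq] at h
    exact ZMod.val_injective m (Nat.eq_of_mul_eq_mul_left (by omega) h)
  have hidxlt : ∀ k : ZMod m, L * (m + k.val) < 2 * n := by
    intro k
    have h1 := ZMod.val_lt k
    have h2 : L * (m + k.val) < L * (2 * m) := Nat.mul_lt_mul_of_pos_left (by omega) (by omega)
    nlinarith
  set idx : ZMod m → Fin (2 * n) := fun k => ⟨L * (m + k.val), hidxlt k⟩ with hidx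
  have hidxinj : Function.Injective idx := by
    intro i j h
    simp only [hidx, Fin.mk.injEq] at h
    have h1 := Nat.eq_of_mul_eq_mul_left (by omega) h
    exact ZMod.val_injective m (by omega)
  set A : ZMod m → Finset (Fin n ⊕ Fin n) := fun k => (HazConv2.outSet p m t k).image grid with hA
  set X0 : Finset (Fin n ⊕ Fin n) := univ.image grid with hX0
  set x0 : Fin n ⊕ Fin n → Bool := two (fun _ => false) y with hx0'
  have hx0 : x0 = Sum.elim (fun _ => false) y := hx0'
  -- the value of an output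
  have hval : ∀ z ⊆ X0, z.card ≤ r → ∀ x' : Fin n ⊕ Fin n → Bool, (∀ i, i ∉ z → x' i = x0 i) →
      ∀ k, C.val x' (C.out (idx k)) =
        decide (((univ.filter fun i : ZMod m => x' (grid i) = true).filter
          fun i => k - i ∈ T).card % 2 = 1) := by
    intro z hz hzr x' hx' k
    set S := univ.filter fun i : ZMod m => x' (grid i) = true with hS
    have hScard : S.card < 2 ^ L := by
      refine lt_of_le_of_lt ?_ hrL
      refine le_trans ?_ hzr
      rw [← card_image_of_injective S hgridinj]
      refine card_le_card ?_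
      intro v hv
      obtain ⟨i, hi, rfl⟩ := mem_image.1 hv
      by_contra hne
      have h1 := hx' _ hne
      rw [(mem_filter.1 hi).2] at h1
      simp [hx0, hgrid] at h1
    have hx'eq : x' = two (xbits n L S) y := by
      unfold two
      funext v
      rcases v with b | b
      · rw [Sum.elim_inl]
        rw [Bool.eq_iff_iff, xbits, decide_eq_true_eq]
        constructor
        · intro hb
          have h1 : (Sum.inl b : Fin n ⊕ Fin n) ∈ z := by
            by_contra hne
            have h1 := hx' _ hne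
            rw [hb] at h1
            simp [hx0] at h1
          obtain ⟨i, -, hi⟩ := mem_image.1 (hz h1)
          refine ⟨i, ?_, ?_⟩
          · rw [hS, mem_filter]
            exact ⟨mem_univ _, by rw [hi]; exact hb⟩
          · simp only [hgrid, Sum.inl.injEq] at hi
            rw [← hi]
        · rintro ⟨i, hi, hib⟩
          have h1 : grid i = Sum.inl b := by
            simp only [hgrid, Sum.inl.injEq]
            exact Fin.ext hib
          rw [← h1]
          exact (mem_filter.1 hi).2
      · rw [Sum.elim_inr]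
        have h1 : (Sum.inr b : Fin n ⊕ Fin n) ∉ z := by
          intro h
          obtain ⟨i, -, hi⟩ := mem_image.1 (hz h)
          simp [hgrid] at hi
        rw [hx' _ h1, hx0, Sum.elim_inr]
    rw [hx'eq, hC _ _ (idx k)]
    exact prod_bit hL1 hnm S T hScard k
  -- the value at the base point
  have hbase : ∀ k, C.val x0 (C.out (idx k)) = false := by
    intro k
    rw [hval ∅ (empty_subset _) (by simp) x0 (fun _ _ => rfl) k]
    have h1 : (univ.filter fun i : ZMod m => x0 (grid i) = true) = ∅ := by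
      rw [filter_eq_empty_iff]
      intro i _
      simp [hx0, hgrid]
    rw [h1]
    simp
  have hmemA : ∀ k i, grid i ∈ A k ↔ k - i ∈ T := by
    intro k i
    rw [hA]
    simp only [mem_image]
    constructor
    · rintro ⟨j, hj, h⟩
      rw [← hgridinj h]
      exact HazConv2.mem_outSet.1 hj
    · intro h
      exact ⟨i, HazConv2.mem_outSet.2 h, rfl⟩
  have hcardA : ∀ k, (A k).card = (p - 1) * t := by
    intro k
    rw [hA]
    simp only
    rw [card_image_of_injective _ hgridinj, HazConv2.card_outSet hp hpm htp]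
  set Ko : Finset (Fin (2 * n)) := univ.image idx with hKo
  have hKcard : Ko.card = m := by
    rw [hKo, card_image_of_injective _ hidxinj, card_univ, ZMod.card]
  -- the inverse of `idx`
  set dec : Fin (2 * n) → ZMod m := Function.invFun idx with hdec
  have hdeci : ∀ k, dec (idx k) = k := Function.leftInverse_invFun hidxinj
  have hmain := C.few_hazards_exact x0 Ko (fun o => A (dec o)) X0 ?_
    (M := M) (r := r) (t := 2 * t ^ 2) (q := q) (s := (p - 1) * t) hM hr
    (fun k _ => (hcardA _).ge) ?_ ?_ hq ht4 ?_ ?_ ?_ ?_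
  · rw [hKcard] at hmain
    constructor
    · calc n * (r + 1) ≤ 4 * L * m * (r + 1) := Nat.mul_le_mul_right _ hm3
        _ = 4 * L * (m * (r + 1)) := by ring
        _ ≤ 4 * L * (2 * C.wires) := Nat.mul_le_mul_left _ hmain.1
        _ = 8 * L * C.wires := by ring
    · intro har
      calc n * r ≤ 4 * L * m * r := Nat.mul_le_mul_right _ hm3
        _ = 4 * L * (m * r) := by ring
        _ ≤ 4 * L * (2 * C.size) := Nat.mul_le_mul_left _ (hmain.2 har)
        _ = 8 * L * C.size := by ring
  · intro k _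
    exact image_subset_image (subset_univ _)
  · intro o ho o' ho' hoo
    obtain ⟨k, -, rfl⟩ := mem_image.1 ho
    obtain ⟨l, -, rfl⟩ := mem_image.1 ho'
    have hkl : k ≠ l := fun h => hoo (by rw [h])
    rw [hdeci, hdeci, hA]
    simp only
    rw [← image_inter _ _ hgridinj, card_image_of_injective _ hgridinj]
    exact HazConv2.card_inter hp hp2 hpm htp hkl
  · rw [hKcard]
    exact Lib_MP_22d2c8_few.num_bound (Nat.div_le_self _ _) le_rfl ht3
  · -- an input of `A k` changes the output
    intro o ho v hv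
    obtain ⟨k, -, rfl⟩ := mem_image.1 ho
    rw [hdeci] at hv
    obtain ⟨i, hi, rfl⟩ := mem_image.1 hv
    have hfl : flipAt x0 (grid i) = Function.update x0 (grid i) true := by
      have h0 : x0 (grid i) = false := by
        rw [hx0]
        rfl
      rw [flipAt, h0]
      rfl
    rw [hfl]
    have hz : ∀ w, w ∉ ({grid i} : Finset (Fin n ⊕ Fin n)) →
        Function.update x0 (grid i) true w = x0 w := by
      intro w hw
      rw [Function.update_of_ne (by simpa using hw)]
    rw [hbase k, hval {grid i} (by simp [hX0]) (by simpa using hr) _ hz k]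
    have h1 : ((univ.filter fun j : ZMod m =>
        Function.update x0 (grid i) true (grid j) = true).filter fun j => k - j ∈ T) = {i} := by
      ext j
      rw [mem_filter, mem_filter, mem_singleton]
      constructor
      · rintro ⟨⟨-, h⟩, -⟩
        by_contra hne
        rw [Function.update_of_ne (fun h => hne (hgridinj h))] at h
        simp [hx0, hgrid] at h
      · rintro rfl
        exact ⟨⟨mem_univ _, by simp⟩, HazConv2.mem_outSet.1 hi⟩
    rw [h1]
    simp
  · -- the outputs are constant off `A k`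
    intro o ho z hzX hdis hzr x' hx'
    obtain ⟨k, -, rfl⟩ := mem_image.1 ho
    rw [hdeci] at hdis
    rw [hbase k, hval z hzX hzr x' hx' k]
    have h1 : ((univ.filter fun j : ZMod m => x' (grid j) = true).filter fun j => k - j ∈ T) =
        ∅ := by
      rw [filter_eq_empty_iff]
      intro j hj hT'
      have h2 : grid j ∉ z := fun h => disjoint_left.1 hdis h ((hmemA k j).2 hT')
      have h3 := hx' _ h2
      rw [(mem_filter.1 hj).2] at h3
      simp [hx0, hgrid] at h3
    rw [h1]
    simp
  · -- the size of the complement of `A k`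
    intro o _
    have h1 : A (dec o) ⊆ X0 := image_subset_image (subset_univ _)
    have h2 : X0.card = m := by
      rw [hX0, card_image_of_injective _ hgridinj, card_univ, ZMod.card]
    rw [card_sdiff_of_subset h1, h2, hcardA]
    have h3 : (p - 1) * t ≤ p ^ 2 := by
      rw [pow_two]
      exact Nat.mul_le_mul (Nat.sub_le _ _) htp.le
    have h4 : M * r ≤ M * r ^ 2 * (Nat.log 2 n + 1) := by
      calc M * r = M * r * 1 := (mul_one _).symm
        _ ≤ M * r * (r * (Nat.log 2 n + 1)) :=
            Nat.mul_le_mul_left _ (Nat.mul_pos (by omega) (by omega))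
        _ = _ := by ring
    have h5 : r ≤ M * r := Nat.le_mul_of_pos_left r (by omega)
    have h6 : 2 * M * r = 2 * (M * r) := by ring
    rw [h6]
    omega
  · -- the number of hazards
    rw [hKcard]
    have hX0b : ∀ z ⊆ X0, ∀ v ∈ z, ∃ b, v = Sum.inl b := by
      intro z hz v hv
      obtain ⟨i, -, rfl⟩ := mem_image.1 (hz hv)
      exact ⟨_, rfl⟩
    have h1 : ∑ o ∈ Ko, (((X0 \ A (dec o)).powersetCard r).filter (C.IsHazard x0 o)).card ≤
        C.hazards (fun _ => false) y r := by
      rw [← card_sigma, Circuit.hazards]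
      refine card_le_card_of_injOn (fun u => (u.1, toX u.2)) ?_ ?_
      · rintro ⟨o, z⟩ hu
        obtain ⟨h2, h3⟩ := mem_filter.1 (mem_sigma.1 (mem_coe.1 hu)).2
        obtain ⟨h4, h5⟩ := mem_powersetCard.1 h2
        simp only at h3 h4 h5
        have h6 : z ⊆ X0 := h4.trans sdiff_subset
        refine mem_coe.2 (mem_filter.2 ⟨mem_univ _, ?_, ?_⟩)
        · simp only
          rw [card_toX (hX0b z h6), h5]
        · simp only
          rw [toX_map (hX0b z h6)]
          exact h3
      · rintro ⟨o, z⟩ hu ⟨o', z'⟩ hu' h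
        have h2 := (mem_powersetCard.1 (mem_filter.1 (mem_sigma.1 (mem_coe.1 hu)).2).1).1
        have h2' := (mem_powersetCard.1 (mem_filter.1 (mem_sigma.1 (mem_coe.1 hu')).2).1).1
        simp only at h2 h2'
        simp only [Prod.mk.injEq] at h
        obtain ⟨h7, h8⟩ := h
        have h9 : z = z' := by
          rw [← toX_map (hX0b z (h2.trans sdiff_subset)),
            ← toX_map (hX0b z' (h2'.trans sdiff_subset)), h8]
        rw [h7, h9]
    have h2 : 4 * L * (16 * ∑ o ∈ Ko,
        (((X0 \ A (dec o)).powersetCard r).filter (C.IsHazard x0 o)).card) ≤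
          4 * L * (m * M ^ r) := by
      calc 4 * L * (16 * ∑ o ∈ Ko,
            (((X0 \ A (dec o)).powersetCard r).filter (C.IsHazard x0 o)).card)
          ≤ 4 * L * (16 * C.hazards (fun _ => false) y r) :=
            Nat.mul_le_mul_left _ (Nat.mul_le_mul_left _ h1)
        _ = 64 * L * C.hazards (fun _ => false) y r := by ring
        _ ≤ n * M ^ r := hsum
        _ ≤ 4 * L * m * M ^ r := Nat.mul_le_mul_right _ hm3
        _ = 4 * L * (m * M ^ r) := by ring
    exact Nat.le_of_mul_le_mul_left h2 (by omega)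

end Pool.Agent.Lib_MP_22d2c8_hz
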