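import Mathlib

/-!
# Numbers: the binomial bound and the choice of the parameters
-/

set_option autoImplicit false

open Finset

namespace Pool.Agent.Lib_MP_22d2c8_few

theorem pow_self_le (a : ℕ) : a ^ a ≤ 4 ^ a * a.factorial := by
  have h1 : a.factorial * (a + 1) ^ a ≤ (a + a).factorial := Nat.factorial_mul_pow_le_factorial
  have h2 : (a + a).choose a * a.factorial * a.factorial = (a + a).factorial :=
    Nat.add_choose_mul_factorial_mul_factorial a a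
  have h3 : (a + a).choose a ≤ 4 ^ a := by
    calc (a + a).choose a ≤ 2 ^ (a + a) := Nat.choose_le_two_pow _ _
      _ = 4 ^ a := by rw [← two_mul, pow_mul]; norm_num
  have h4 : 0 < a.factorial := a.factorial_pos
  have h5 : a.factorial * a ^ a ≤ a.factorial * (4 ^ a * a.factorial) := by
    calc a.factorial * a ^ a ≤ a.factorial * (a + 1) ^ a :=
          Nat.mul_le_mul_left _ (Nat.pow_le_pow_left (Nat.le_succ a) a)
      _ ≤ (a + a).factorial := h1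
      _ = (a + a).choose a * a.factorial * a.factorial := h2.symm
      _ ≤ 4 ^ a * a.factorial * a.factorial :=
          Nat.mul_le_mul_right _ (Nat.mul_le_mul_right _ h3)
      _ = _ := by ring
  exact Nat.le_of_mul_le_mul_left h5 h4

theorem two_pow_mul_choose_le {t a M : ℕ} (h : 8 * t ≤ a * M) : 2 ^ a * t.choose a ≤ M ^ a := by
  have h1 : t.choose a * a.factorial ≤ t ^ a := by
    rw [mul_comm, ← Nat.descFactorial_eq_factorial_mul_choose]
    exact Nat.descFactorial_le_pow t a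
  have h2 : (8 * t) ^ a ≤ 4 ^ a * a.factorial * M ^ a := by
    calc (8 * t) ^ a ≤ (a * M) ^ a := Nat.pow_le_pow_left h a
      _ = a ^ a * M ^ a := mul_pow _ _ _
      _ ≤ _ := Nat.mul_le_mul_right _ (pow_self_le a)
  have h3 : (8 * t) ^ a = 4 ^ a * (2 ^ a * t ^ a) := by
    rw [← mul_pow, ← mul_pow]
    congr 1
    ring
  rw [h3, mul_assoc] at h2
  have h4 : 2 ^ a * t ^ a ≤ a.factorial * M ^ a := Nat.le_of_mul_le_mul_left h2 (by positivity)
  have h5 : a.factorial * (2 ^ a * t.choose a) ≤ a.factorial * M ^ a := by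
    calc a.factorial * (2 ^ a * t.choose a) = 2 ^ a * (t.choose a * a.factorial) := by ring
      _ ≤ 2 ^ a * t ^ a := Nat.mul_le_mul_left _ h1
      _ ≤ _ := h4
  exact Nat.le_of_mul_le_mul_left h5 a.factorial_pos

/-- The union bound. -/
theorem num_bound {m n t a M : ℕ} (hmn : m ≤ n) (ha : 2 * Nat.log 2 n + 4 ≤ a)
    (h : 8 * t ≤ a * M) : 4 * m ^ 2 * t.choose a ≤ M ^ a := by
  have h1 : n < 2 ^ (Nat.log 2 n + 1) := Nat.lt_pow_succ_log_self (by norm_num) n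
  have h2 : 4 * m ^ 2 ≤ 2 ^ a := by
    calc 4 * m ^ 2 ≤ 2 ^ 2 * (2 ^ (Nat.log 2 n + 1)) ^ 2 := by
          have : m ^ 2 ≤ (2 ^ (Nat.log 2 n + 1)) ^ 2 := Nat.pow_le_pow_left (by omega) 2
          omega
      _ = 2 ^ (2 * Nat.log 2 n + 4) := by rw [← pow_mul, ← pow_add]; congr 1; ring
      _ ≤ 2 ^ a := Nat.pow_le_pow_right (by norm_num) ha
  exact (Nat.mul_le_mul_right _ h2).trans (two_pow_mul_choose_le h)

/-- The choice of `s`. -/
theorem exists_s {p r a M : ℕ} (hr : 1 ≤ r) (haM : 16 ≤ a * M)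
    (hp : 256 * r ^ 2 * (a * M) < (p - 1) ^ 2) :
    ∃ s, 1 ≤ s ∧ s ≤ p - 1 ∧ 8 * (2 * s ^ 2) ≤ a * M ∧ 2 * (a * M) * r < (p - 1) * s := by
  set B := a * M with hB
  set q := Nat.sqrt B with hq
  have h1 : q * q ≤ B := Nat.sqrt_le B
  have h2 : B < (q + 1) * (q + 1) := Nat.lt_succ_sqrt B
  have h3 : 4 ≤ q := by
    by_contra h
    have : q + 1 ≤ 4 := by omega
    have : (q + 1) * (q + 1) ≤ 4 * 4 := Nat.mul_le_mul this this
    omega
  obtain ⟨s, hs⟩ : ∃ s, s = q / 4 := ⟨_, rfl⟩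
  have hs1 : 1 ≤ s := by omega
  have hs2 : 4 * s ≤ q := by omega
  have hs3 : q + 1 ≤ 8 * s := by omega
  have h4 : 16 * s ^ 2 ≤ B := by
    have := Nat.mul_le_mul hs2 hs2
    nlinarith
  have h5 : B < 64 * s ^ 2 := by
    have := Nat.mul_le_mul hs3 hs3
    nlinarith
  have hr2 : 1 ≤ r ^ 2 := Nat.one_le_pow _ _ hr
  refine ⟨s, hs1, ?_, by omega, ?_⟩
  · by_contra h
    have h6 : (p - 1) ^ 2 ≤ s ^ 2 := Nat.pow_le_pow_left (by omega) 2
    have h7 : B ≤ 256 * r ^ 2 * B := Nat.le_mul_of_pos_left B (by positivity)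
    omega
  · by_contra h
    push Not at h
    have h6 : ((p - 1) * s) ^ 2 ≤ (2 * B * r) ^ 2 := Nat.pow_le_pow_left h 2
    have h7 : 256 * r ^ 2 * B * s ^ 2 < (p - 1) ^ 2 * s ^ 2 :=
      Nat.mul_lt_mul_of_pos_right hp (by positivity)
    have h8 : 4 * r ^ 2 * B * B ≤ 4 * r ^ 2 * B * (64 * s ^ 2) := Nat.mul_le_mul_left _ h5.le
    nlinarith

/-- The size of `m = n / (2 L)`, `L = log r + 1`. -/
theorem size_m {n r M : ℕ} (hr : 1 ≤ r) (hM : 1 ≤ M)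
    (hn : 2 ^ 20 * M * r ^ 2 * (Nat.log 2 n + 1) * (Nat.log 2 r + 1) ≤ n) :
    2 ^ 19 * (M * r ^ 2 * (Nat.log 2 n + 1)) ≤ n / (2 * (Nat.log 2 r + 1)) ∧
      2 ^ 19 ≤ n / (2 * (Nat.log 2 r + 1)) ∧
      n ≤ 4 * (Nat.log 2 r + 1) * (n / (2 * (Nat.log 2 r + 1))) := by
  set L := Nat.log 2 r + 1 with hL
  set l := Nat.log 2 n + 1 with hl
  set m := n / (2 * L) with hm
  have hL1 : 1 ≤ L := by omega
  have hl1 : 1 ≤ l := by omega
  have h1 : n < 2 * L * (m + 1) := by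
    have := Nat.lt_mul_div_succ n (show 0 < 2 * L by omega)
    rwa [← hm] at this
  have h2 : 2 ^ 19 * (M * r ^ 2 * l) < m + 1 := by
    have h3 : 2 * L * (2 ^ 19 * (M * r ^ 2 * l)) < 2 * L * (m + 1) := by
      calc 2 * L * (2 ^ 19 * (M * r ^ 2 * l)) = 2 ^ 20 * M * r ^ 2 * l * L := by ring
        _ ≤ n := hn
        _ < _ := h1
    exact Nat.lt_of_mul_lt_mul_left h3
  have h4 : 1 ≤ M * r ^ 2 * l := Nat.mul_pos (Nat.mul_pos hM (by positivity)) hl1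
  refine ⟨by omega, by omega, ?_⟩
  have h5 : m + 1 ≤ 2 * m := by omega
  calc n ≤ 2 * L * (m + 1) := h1.le
    _ ≤ 2 * L * (2 * m) := Nat.mul_le_mul_left _ h5
    _ = 4 * L * m := by ring

/-- The choice of all parameters, `L = log r + 1`, `m = n / (2 L)`, `a = 2 log n + 4`. -/
theorem params {n r M p : ℕ} (hr : 1 ≤ r) (hM : 1 ≤ M)
    (hn : 2 ^ 20 * M * r ^ 2 * (Nat.log 2 n + 1) * (Nat.log 2 r + 1) ≤ n)
    (hp3 : 3 ≤ p) (hp : n / (2 * (Nat.log 2 r + 1)) ≤ 64 * p ^ 2) :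
    32 ≤ 2 * Nat.log 2 n + 4 ∧
      256 * r ^ 2 * ((2 * Nat.log 2 n + 4) * M) < (p - 1) ^ 2 := by
  obtain ⟨h1, h2, h3⟩ := size_m hr hM hn
  have hn2 : 2 ^ 19 ≤ n := by
    refine h2.trans (Nat.div_le_self _ _)
  have hlog : 19 ≤ Nat.log 2 n := by
    calc 19 = Nat.log 2 (2 ^ 19) := (Nat.log_pow (by norm_num) 19).symm
      _ ≤ Nat.log 2 n := Nat.log_mono_right hn2
  refine ⟨by omega, ?_⟩
  obtain ⟨q, rfl⟩ : ∃ q, p = q + 1 := ⟨p - 1, by omega⟩
  simp only [Nat.add_sub_cancel]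
  set X := M * r ^ 2 with hX
  have hX1 : 1 ≤ X := Nat.mul_pos hM (by positivity)
  have h4 : 2 ^ 19 * (X * (Nat.log 2 n + 1)) ≤ 64 * (q + 1) ^ 2 := h1.trans hp
  have h5 : 4 * (q + 1) ^ 2 ≤ 9 * q ^ 2 := by
    have : 2 ≤ q := by omega
    nlinarith
  have h6 : 256 * r ^ 2 * ((2 * Nat.log 2 n + 4) * M) = 512 * (X * (Nat.log 2 n + 2)) := by
    rw [hX]; ring
  rw [h6]
  have h7 : X * (Nat.log 2 n + 2) ≤ 2 * (X * (Nat.log 2 n + 1)) := by nlinarith
  have h8 : 1 ≤ X * (Nat.log 2 n + 1) := Nat.mul_pos hX1 (by omega)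
  omega

end Pool.Agent.Lib_MP_22d2c8_few
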