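import Pool.Agent.Lib_MP_22d2c8_hz.Haz
import Pool.Agent.Lib_MP_22d2c8_few.FewRand
import Pool.Agent.Lib_MP_22d2c8_few.Num
import Pool.Agent.Lib_MP_22d2c8_hzc.Arith
import Pool.Agent.Lib_MP_22d2c8_hzc.ConvSet2

/-!
# Integer multiplication: circuits with few hazards (in the model of `Lib_MP_22d2c8_hz`)
-/

set_option autoImplicit false

namespace Pool.Agent.Lib_MP_22d2c8_hz

open Finset

theorem Circuit.not_isHazard_empty {ι κ : Type} [DecidableEq ι] (C : Circuit ι κ) (x : ι → Bool)
    (k : κ) : ¬ C.IsHazard x k ∅ := by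
  rintro ⟨-, h⟩
  have key : ∀ w, C.tval (unst x ∅) w = some (C.val x w) := by
    intro w
    refine C.induct (p := fun w => C.tval (unst x ∅) w = some (C.val x w)) ?_ ?_ w
    · intro i
      rw [C.tval_inl, C.val_inl]
      simp [unst]
    · intro g hg
      rw [C.tval_inr, C.val_inr]
      have h1 : ∀ y : Fin (C.ar g) → Bool,
          (∀ j, C.tval (unst x ∅) (C.src g j) = none ∨
            C.tval (unst x ∅) (C.src g j) = some (y j)) →
          C.op g y = C.op g fun j => C.val x (C.src g j) := by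
        intro y hy
        congr 1
        funext j
        rcases hy j with h2 | h2
        · rw [hg j] at h2
          exact absurd h2 (by simp)
        · rw [hg j] at h2
          exact (Option.some.inj h2).symm
      unfold kleene
      rcases hb : C.op g fun j => C.val x (C.src g j) with _ | _
      · rw [if_neg, if_pos]
        · intro y hy
          rw [h1 y hy, hb]
        · intro h3
          have := h3 (fun j => C.val x (C.src g j)) fun j => Or.inr (hg j)
          rw [hb] at this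
          exact absurd this (by simp)
      · rw [if_pos]
        intro y hy
        rw [h1 y hy, hb]
  rw [key] at h
  exact absurd h (by simp)

/-- **Few hazards, a general family of sets.** -/
theorem Circuit.few_hazards_disjoint {ι κ : Type} [Fintype ι] [DecidableEq ι] [DecidableEq κ]
    (C : Circuit ι κ) (x : ι → Bool) (K : Finset κ) (A : κ → Finset ι) (X0 : Finset ι)
    (hAX : ∀ k ∈ K, A k ⊆ X0) {M r t q s : ℕ} (hM : 1 ≤ M) (hr : 1 ≤ r)
    (hs : ∀ k ∈ K, s ≤ (A k).card) (ht : ∀ k ∈ K, ∀ l ∈ K, k ≠ l → (A k ∩ A l).card ≤ t)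
    (hnum : 4 * K.card ^ 2 * t.choose q ≤ M ^ q) (hq : 32 ≤ q) (hbig : 2 * (q * M) * (r + 1) < s)
    (hA : ∀ k ∈ K, ∀ i ∈ A k, C.val (flipAt x i) (C.out k) ≠ C.val x (C.out k))
    (hconst : ∀ k ∈ K, ∀ U ⊆ X0, Disjoint U (A k) → U.card ≤ r → ∀ y : ι → Bool,
      (∀ i, i ∉ U → y i = x i) → C.val y (C.out k) = C.val x (C.out k))
    (H : κ → Finset (Finset ι))
    (hH : ∀ k ∈ K, ∀ U ⊆ X0, Disjoint U (A k) → U.card ≤ r → C.IsHazard x k U → U ∈ H k)
    (hsum : ∑ k ∈ K, ∑ z ∈ H k, (1 / (M : ℝ)) ^ z.card ≤ (K.card : ℝ) / 8) :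
    K.card * (r + 1) ≤ 2 * C.wires ∧ ((∀ g, C.ar g ≤ 2) → K.card * r ≤ 2 * C.size) := by
  classical
  have h64 : 64 * M ≤ s := by
    have h1 : 32 * M ≤ q * M := Nat.mul_le_mul_right _ hq
    have h2 : 2 * (q * M) * 1 ≤ 2 * (q * M) * (r + 1) := Nat.mul_le_mul_left _ (by omega)
    omega
  obtain ⟨N, K', hK', hcard, hint, hbigN, hno⟩ :=
    Lib_MP_22d2c8_few.exists_good hM K A H hs ht hnum h64 hsum
  have hAN : ∀ k ∈ K', (A k ∩ N) ∩ (N ∩ X0) = N ∩ A k := by
    intro k hk
    ext i
    simp only [mem_inter]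
    constructor
    · rintro ⟨⟨h1, h2⟩, -⟩
      exact ⟨h2, h1⟩
    · rintro ⟨h1, h2⟩
      exact ⟨⟨h2, h1⟩, h1, hAX k (hK' hk) h2⟩
  have hlarge : ∀ k ∈ K', q * (r + 1) < (N ∩ A k).card := by
    intro k hk
    have h2 := hbigN k hk
    have h3 : 2 * M * (q * (r + 1)) < 2 * M * (N ∩ A k).card := by
      calc 2 * M * (q * (r + 1)) = 2 * (q * M) * (r + 1) := by ring
        _ < s := hbig
        _ ≤ _ := h2
    exact Nat.lt_of_mul_lt_mul_left h3
  have hmain := C.hazard_bound x (N ∩ X0) K' (fun k => A k ∩ N) (fun _ => r) (e := q) (m := 1)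
    (by omega) ?_ ?_ ?_ (fun _ _ => hr) ?_
  · obtain ⟨h1, h2⟩ := hmain
    have hq0 : 0 < q := by omega
    constructor
    · have h3 : K'.card * (q * (r + 1)) ≤ q * (1 * C.wires) := by
        refine le_trans ?_ h1
        rw [← smul_eq_mul, ← sum_const]
        refine sum_le_sum fun k hk => ?_
        rw [hAN k hk]
        exact le_min (hlarge k hk).le le_rfl
      have h4 : q * (K'.card * (r + 1)) ≤ q * C.wires := by
        calc q * (K'.card * (r + 1)) = K'.card * (q * (r + 1)) := by ring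
          _ ≤ q * (1 * C.wires) := h3
          _ = q * C.wires := by ring
      have h5 : K'.card * (r + 1) ≤ C.wires := Nat.le_of_mul_le_mul_left h4 hq0
      calc K.card * (r + 1) ≤ 2 * K'.card * (r + 1) := Nat.mul_le_mul_right _ hcard
        _ = 2 * (K'.card * (r + 1)) := by ring
        _ ≤ 2 * C.wires := Nat.mul_le_mul_left _ h5
    · intro har
      have h3 : K'.card * (q * r) ≤ q * (1 * C.size) := by
        refine le_trans ?_ (h2 har)
        rw [← smul_eq_mul, ← sum_const]
        refine sum_le_sum fun k hk => ?_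
        rw [hAN k hk]
        refine le_min ?_ le_rfl
        have h6 := hlarge k hk
        have h7 : q * (r + 1) = q * r + q := by ring
        omega
      have h4 : q * (K'.card * r) ≤ q * C.size := by
        calc q * (K'.card * r) = K'.card * (q * r) := by ring
          _ ≤ q * (1 * C.size) := h3
          _ = q * C.size := by ring
      have h5 : K'.card * r ≤ C.size := Nat.le_of_mul_le_mul_left h4 hq0
      calc K.card * r ≤ 2 * K'.card * r := Nat.mul_le_mul_right _ hcard
        _ = 2 * (K'.card * r) := by ring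
        _ ≤ 2 * C.size := Nat.mul_le_mul_left _ h5
  · intro k hk
    rw [hAN k hk]
    have h6 := hlarge k hk
    have h7 : q * (r + 1) = q * r + q := by ring
    omega
  · intro S hS
    rw [card_le_one]
    intro k hk l hl
    by_contra hkl
    obtain ⟨hk1, hk2⟩ := mem_filter.1 hk
    obtain ⟨hl1, hl2⟩ := mem_filter.1 hl
    have h1 : S ⊆ N ∩ (A k ∩ A l) := fun i hi => by
      have h2 := mem_inter.1 (hk2 hi)
      have h3 := mem_inter.1 (hl2 hi)
      exact mem_inter.2 ⟨h2.2, mem_inter.2 ⟨h2.1, h3.1⟩⟩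
    have := card_le_card h1
    have := hint k hk1 l hl1 hkl
    omega
  · intro k hk i hi
    exact hA k (hK' hk) i (mem_inter.1 hi).1
  · intro k hk U hU hUr hdis hu
    have h1 : U ⊆ X0 := hU.trans inter_subset_right
    have h2 : U ⊆ N := hU.trans inter_subset_left
    have h3 : Disjoint U (A k) := by
      rw [disjoint_left]
      intro i hi hi'
      exact disjoint_left.1 hdis hi (mem_inter.2 ⟨hi', h2 hi⟩)
    exact hno k hk U (hH k (hK' hk) U h1 h3 hUr ⟨hconst k (hK' hk) U h1 h3 hUr, hu⟩) h2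

/-- **Few hazards, a general family of sets.** -/
theorem Circuit.few_hazards {ι κ : Type} [Fintype ι] [DecidableEq ι] [DecidableEq κ]
    (C : Circuit ι κ) (x : ι → Bool) (K : Finset κ) (A : κ → Finset ι) (X0 : Finset ι)
    (hAX : ∀ k ∈ K, A k ⊆ X0) {M r t q s : ℕ} (hM : 1 ≤ M) (hr : 1 ≤ r)
    (hs : ∀ k ∈ K, s ≤ (A k).card) (ht : ∀ k ∈ K, ∀ l ∈ K, k ≠ l → (A k ∩ A l).card ≤ t)
    (hnum : 4 * K.card ^ 2 * t.choose q ≤ M ^ q) (hq : 32 ≤ q) (hbig : 2 * (q * M) * (r + 1) < s)
    (hA : ∀ k ∈ K, ∀ i ∈ A k, C.val (flipAt x i) (C.out k) ≠ C.val x (C.out k))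
    (hconst : ∀ k ∈ K, ∀ U ⊆ X0, Disjoint U (A k) → U.card ≤ r → ∀ y : ι → Bool,
      (∀ i, i ∉ U → y i = x i) → C.val y (C.out k) = C.val x (C.out k))
    (H : κ → Finset (Finset ι))
    (hH : ∀ k ∈ K, ∀ U ⊆ X0, U.card ≤ r → C.IsHazard x k U → U ∈ H k)
    (hsum : ∑ k ∈ K, ∑ z ∈ H k, (1 / (M : ℝ)) ^ z.card ≤ (K.card : ℝ) / 8) :
    K.card * (r + 1) ≤ 2 * C.wires ∧ ((∀ g, C.ar g ≤ 2) → K.card * r ≤ 2 * C.size) :=
  C.few_hazards_disjoint x K A X0 hAX hM hr hs ht hnum hq hbig hA hconst H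
    (fun k hk U hU _ hUr hz => hH k hk U hU hUr hz) hsum

/-- the bits of `x` in a set of inputs -/
def toX {n : ℕ} (z : Finset (Fin n ⊕ Fin n)) : Finset (Fin n) :=
  univ.filter fun b => Sum.inl b ∈ z

theorem toX_map {n : ℕ} {z : Finset (Fin n ⊕ Fin n)} (hz : ∀ v ∈ z, ∃ b, v = Sum.inl b) :
    (toX z).map Function.Embedding.inl = z := by
  ext v
  rw [mem_map]
  constructor
  · rintro ⟨b, hb, rfl⟩
    exact (mem_filter.1 hb).2
  · intro hv
    obtain ⟨b, rfl⟩ := hz v hv
    exact ⟨b, mem_filter.2 ⟨mem_univ _, hv⟩, rfl⟩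

theorem card_toX {n : ℕ} {z : Finset (Fin n ⊕ Fin n)} (hz : ∀ v ∈ z, ∃ b, v = Sum.inl b) :
    (toX z).card = z.card := by
  conv_rhs => rw [← toX_map hz]
  rw [card_map]

/-- The choice of the parameters. -/
theorem params2 {n r M p : ℕ} (hr : 1 ≤ r) (hM : 1 ≤ M)
    (hn : 2 ^ 20 * M * r ^ 2 * (Nat.log 2 n + 1) * (Nat.log 2 r + 1) ≤ n)
    (hp3 : 3 ≤ p) (hp : n / (2 * (Nat.log 2 r + 1)) ≤ 64 * p ^ 2) :
    32 ≤ 2 * Nat.log 2 n + 4 ∧
      256 * (r + 1) ^ 2 * ((2 * Nat.log 2 n + 4) * M) < (p - 1) ^ 2 := by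
  obtain ⟨h1, h2, h3⟩ := Lib_MP_22d2c8_few.size_m hr hM hn
  have hn2 : 2 ^ 19 ≤ n := h2.trans (Nat.div_le_self _ _)
  have hlog : 19 ≤ Nat.log 2 n := by
    calc 19 = Nat.log 2 (2 ^ 19) := (Nat.log_pow (by norm_num) 19).symm
      _ ≤ Nat.log 2 n := Nat.log_mono_right hn2
  refine ⟨by omega, ?_⟩
  obtain ⟨q, rfl⟩ : ∃ q, p = q + 1 := ⟨p - 1, by omega⟩
  simp only [Nat.add_sub_cancel]
  have hX1 : 1 ≤ M * r ^ 2 := Nat.mul_pos hM (by positivity)
  have h4 : 2 ^ 19 * (M * r ^ 2 * (Nat.log 2 n + 1)) ≤ 64 * (q + 1) ^ 2 := h1.trans hp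
  have h8 : 20 ≤ M * r ^ 2 * (Nat.log 2 n + 1) := by
    calc 20 = 1 * 20 := rfl
      _ ≤ _ := Nat.mul_le_mul hX1 (by omega)
  have h5 : 400 * (q + 1) ^ 2 ≤ 441 * q ^ 2 := by
    have h9 : 400 ^ 2 ≤ (q + 1) ^ 2 := by
      have h10 : 2 ^ 19 * 20 ≤ 64 * (q + 1) ^ 2 := le_trans (Nat.mul_le_mul_left _ h8) h4
      omega
    have h11 : 400 ≤ q + 1 := by
      by_contra h
      have : (q + 1) ^ 2 < 400 ^ 2 := Nat.pow_lt_pow_left (by omega) (by norm_num)
      omega
    obtain ⟨u, rfl⟩ : ∃ u, q = 399 + u := ⟨q - 399, by omega⟩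
    nlinarith
  have h6 : 256 * (r + 1) ^ 2 * ((2 * Nat.log 2 n + 4) * M) ≤
      2560 * (M * r ^ 2 * (Nat.log 2 n + 1)) := by
    have h9 : (r + 1) ^ 2 ≤ 4 * r ^ 2 := by nlinarith
    have h10 : 2 * (2 * Nat.log 2 n + 4) ≤ 5 * (Nat.log 2 n + 1) := by omega
    calc 256 * (r + 1) ^ 2 * ((2 * Nat.log 2 n + 4) * M)
        ≤ 256 * (4 * r ^ 2) * ((2 * Nat.log 2 n + 4) * M) :=
          Nat.mul_le_mul_right _ (Nat.mul_le_mul_left _ h9)
      _ = 512 * (M * r ^ 2) * (2 * (2 * Nat.log 2 n + 4)) := by ring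
      _ ≤ 512 * (M * r ^ 2) * (5 * (Nat.log 2 n + 1)) := Nat.mul_le_mul_left _ h10
      _ = _ := by ring
  omega

open Pool.Agent.HazConv (val per testBit_cyclic sum_bits)

section digits

variable {n L m : ℕ}

/-- ones at the positions `L i`, `i ∈ S` -/
def xbits (n L : ℕ) {m : ℕ} (S : Finset (ZMod m)) : Fin n → Bool :=
  fun b => decide (∃ i ∈ S, L * i.val = (b : ℕ))

/-- ones at the positions `L j`, `j < 2 m`, `j mod m` in `T` -/
def ybits (n L : ℕ) {m : ℕ} (T : Finset (ZMod m)) : Fin n → Bool :=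
  fun b => decide (∃ j ∈ per m T, L * j = (b : ℕ))

theorem num_xbits [NeZero m] (hL : 1 ≤ L) (hn : 2 * L * m ≤ n) (S : Finset (ZMod m)) :
    num (xbits n L S) = val L (S.image ZMod.val) := by
  refine sum_bits L hL _ ?_ _ ?_
  · intro i hi
    obtain ⟨j, -, rfl⟩ := mem_image.1 hi
    have h1 := ZMod.val_lt j
    have h2 : L * j.val < L * m := Nat.mul_lt_mul_of_pos_left h1 (by omega)
    nlinarith
  · intro b
    rw [xbits, decide_eq_true_eq]
    constructor
    · rintro ⟨i, hi, h⟩
      exact ⟨i.val, mem_image_of_mem _ hi, h⟩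
    · rintro ⟨i, hi, h⟩
      obtain ⟨j, hj, rfl⟩ := mem_image.1 hi
      exact ⟨j, hj, h⟩

theorem num_ybits (hL : 1 ≤ L) (hn : 2 * L * m ≤ n) (T : Finset (ZMod m)) :
    num (ybits n L T) = val L (per m T) := by
  refine sum_bits L hL _ ?_ _ ?_
  · intro j hj
    have h1 : j < 2 * m := mem_range.1 (mem_filter.1 hj).1
    have h2 : L * j < L * (2 * m) := Nat.mul_lt_mul_of_pos_left h1 (by omega)
    nlinarith
  · intro b
    rw [ybits, decide_eq_true_eq]

/-- The bit `L (m + k)` of the product is the parity of the number of `i ∈ S` with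
`k - i ∈ T`. -/
theorem prod_bit [NeZero m] (hL : 1 ≤ L) (hn : 2 * L * m ≤ n) (S T : Finset (ZMod m))
    (hS : S.card < 2 ^ L) (k : ZMod m) :
    Nat.testBit (num (xbits n L S) * num (ybits n L T)) (L * (m + k.val)) =
      decide ((S.filter fun i => k - i ∈ T).card % 2 = 1) := by
  have hinj : Function.Injective (ZMod.val : ZMod m → ℕ) := ZMod.val_injective m
  rw [num_xbits hL hn, num_ybits hL hn, testBit_cyclic L hL T (S.image ZMod.val) ?_ ?_
    (Nat.le_add_right _ _) ?_]
  · have h1 : ((S.image ZMod.val).filter fun i : ℕ =>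
        (((m + k.val : ℕ) : ZMod m)) - ((i : ℕ) : ZMod m) ∈ T).card =
          (S.filter fun i => k - i ∈ T).card := by
      rw [← card_image_of_injective (S.filter fun i => k - i ∈ T) hinj]
      congr 1
      ext i
      simp only [mem_filter, mem_image]
      constructor
      · rintro ⟨⟨j, hj, rfl⟩, h⟩
        refine ⟨j, ⟨hj, ?_⟩, rfl⟩
        simpa using h
      · rintro ⟨j, ⟨hj, h⟩, rfl⟩
        refine ⟨⟨j, hj, rfl⟩, ?_⟩
        simpa using h
    rw [h1]
  · intro i hi
    obtain ⟨j, -, rfl⟩ := mem_image.1 hi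
    exact ZMod.val_lt j
  · rwa [card_image_of_injective _ hinj]
  · have := ZMod.val_lt k
    omega

end digits

/-- The bound for a weighted number of hazards. -/
theorem mul_few_sum {n r M : ℕ} (hr : 1 ≤ r) (hM : 1 ≤ M)
    (hn : 2 ^ 20 * M * r ^ 2 * (Nat.log 2 n + 1) * (Nat.log 2 r + 1) ≤ n) :
    ∃ y : Fin n → Bool, ∀ C : Circuit (Fin n ⊕ Fin n) (Fin (2 * n)), C.MulNat →
      (∑ i ∈ Icc 1 r, (C.hazards (fun _ => false) y i : ℝ) * (1 / (M : ℝ)) ^ i ≤
        (n : ℝ) / (32 * (Nat.log 2 r + 1))) →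
      n * (r + 1) ≤ 8 * (Nat.log 2 r + 1) * C.wires ∧
        ((∀ g, C.ar g ≤ 2) → n * r ≤ 8 * (Nat.log 2 r + 1) * C.size) := by
  classical
  obtain ⟨hm1, hm2, hm3⟩ := Lib_MP_22d2c8_few.size_m hr hM hn
  set L := Nat.log 2 r + 1 with hL
  set m := n / (2 * L) with hm
  have hL1 : 1 ≤ L := by omega
  have hrL : r < 2 ^ L := Nat.lt_pow_succ_log_self (by norm_num) r
  have hnm : 2 * L * m ≤ n := Nat.mul_div_le n (2 * L)
  obtain ⟨p, hp, hp2, hpm, hpm2⟩ := HazConv2.exists_prime m (by omega)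
  have hp3 : 3 ≤ p := by
    have := hp.two_le
    omega
  obtain ⟨hq, hbig⟩ := params2 hr hM hn hp3 hpm2
  set q := 2 * Nat.log 2 n + 4 with hqdef
  obtain ⟨t, ht1, ht2, ht3, ht4⟩ := Lib_MP_22d2c8_few.exists_s (p := p) (a := q) (M := M)
    (r := r + 1) (by omega) (by nlinarith) hbig
  have htp : t < p := by omega
  have : NeZero m := ⟨by omega⟩
  set T := HazConv2.convSet p m t with hT
  refine ⟨ybits n L T, fun C hC hsum => ?_⟩
  set y := ybits n L T with hy
  -- the grid and the outputs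
  have hgridlt : ∀ i : ZMod m, L * i.val < n := by
    intro i
    have h1 := ZMod.val_lt i
    have h2 : L * i.val < L * m := Nat.mul_lt_mul_of_pos_left h1 (by omega)
    nlinarith
  set grid : ZMod m → Fin n ⊕ Fin n := fun i => Sum.inl ⟨L * i.val, hgridlt i⟩ with hgrid
  have hgridinj : Function.Injective grid := by
    intro i j h
    simp only [hgrid, Sum.inl.injEq, Fin.mk.injEq] at h
    exact ZMod.val_injective m (Nat.eq_of_mul_eq_mul_left (by omega) h)
  have hidxlt : ∀ k : ZMod m, L * (m + k.val) < 2 * n := by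
    intro k
    have h1 := ZMod.val_lt k
    have h2 : L * (m + k.val) < L * (2 * m) := Nat.mul_lt_mul_of_pos_left (by omega) (by omega)
    nlinarith
  set idx : ZMod m → Fin (2 * n) := fun k => ⟨L * (m + k.val), hidxlt k⟩ with hidx
  have hidxinj : Function.Injective idx := by
    intro i j h
    simp only [hidx, Fin.mk.injEq] at h
    have h1 := Nat.eq_of_mul_eq_mul_left (by omega) h
    exact ZMod.val_injective m (by omega)
  set A : ZMod m → Finset (Fin n ⊕ Fin n) := fun k => (HazConv2.outSet p m t k).image grid with hA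
  set X0 : Finset (Fin n ⊕ Fin n) := univ.image grid with hX0
  set x0 : Fin n ⊕ Fin n → Bool := two (fun _ => false) y with hx0'
  have hx0 : x0 = Sum.elim (fun _ => false) y := hx0'
  -- the value of an output
  have hval : ∀ z ⊆ X0, z.card ≤ r → ∀ x' : Fin n ⊕ Fin n → Bool, (∀ i, i ∉ z → x' i = x0 i) →
      ∀ k, C.val x' (C.out (idx k)) =
        decide (((univ.filter fun i : ZMod m => x' (grid i) = true).filter
          fun i => k - i ∈ T).card % 2 = 1) := by
    intro z hz hzr x' hx' k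
    set S := univ.filter fun i : ZMod m => x' (grid i) = true with hS
    have hScard : S.card < 2 ^ L := by
      refine lt_of_le_of_lt ?_ hrL
      refine le_trans ?_ hzr
      rw [← card_image_of_injective S hgridinj]
      refine card_le_card ?_
      intro v hv
      obtain ⟨i, hi, rfl⟩ := mem_image.1 hv
      by_contra hne
      have h1 := hx' _ hne
      rw [(mem_filter.1 hi).2] at h1
      simp [hx0, hgrid] at h1
    have hx'eq : x' = two (xbits n L S) y := by
      unfold two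
      funext v
      rcases v with b | b
      · rw [Sum.elim_inl]
        rw [Bool.eq_iff_iff, xbits, decide_eq_true_eq]
        constructor
        · intro hb
          have h1 : (Sum.inl b : Fin n ⊕ Fin n) ∈ z := by
            by_contra hne
            have h1 := hx' _ hne
            rw [hb] at h1
            simp [hx0] at h1
          obtain ⟨i, -, hi⟩ := mem_image.1 (hz h1)
          refine ⟨i, ?_, ?_⟩
          · rw [hS, mem_filter]
            exact ⟨mem_univ _, by rw [hi]; exact hb⟩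
          · simp only [hgrid, Sum.inl.injEq] at hi
            rw [← hi]
        · rintro ⟨i, hi, hib⟩
          have h1 : grid i = Sum.inl b := by
            simp only [hgrid, Sum.inl.injEq]
            exact Fin.ext hib
          rw [← h1]
          exact (mem_filter.1 hi).2
      · rw [Sum.elim_inr]
        have h1 : (Sum.inr b : Fin n ⊕ Fin n) ∉ z := by
          intro h
          obtain ⟨i, -, hi⟩ := mem_image.1 (hz h)
          simp [hgrid] at hi
        rw [hx' _ h1, hx0, Sum.elim_inr]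
    rw [hx'eq, hC _ _ (idx k)]
    exact prod_bit hL1 hnm S T hScard k
  -- the value at the base point
  have hbase : ∀ k, C.val x0 (C.out (idx k)) = false := by
    intro k
    rw [hval ∅ (empty_subset _) (by simp) x0 (fun _ _ => rfl) k]
    have h1 : (univ.filter fun i : ZMod m => x0 (grid i) = true) = ∅ := by
      rw [filter_eq_empty_iff]
      intro i _
      simp [hx0, hgrid]
    rw [h1]
    simp
  have hmemA : ∀ k i, grid i ∈ A k ↔ k - i ∈ T := by
    intro k i
    rw [hA]
    simp only [mem_image]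
    constructor
    · rintro ⟨j, hj, h⟩
      rw [← hgridinj h]
      exact HazConv2.mem_outSet.1 hj
    · intro h
      exact ⟨i, HazConv2.mem_outSet.2 h, rfl⟩
  have hcardA : ∀ k, (A k).card = (p - 1) * t := by
    intro k
    rw [hA]
    simp only
    rw [card_image_of_injective _ hgridinj, HazConv2.card_outSet hp hpm htp]
  set Ko : Finset (Fin (2 * n)) := univ.image idx with hKo
  have hKcard : Ko.card = m := by
    rw [hKo, card_image_of_injective _ hidxinj, card_univ, ZMod.card]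
  -- the inverse of `idx`
  set dec : Fin (2 * n) → ZMod m := Function.invFun idx with hdec
  have hdeci : ∀ k, dec (idx k) = k := Function.leftInverse_invFun hidxinj
  have hmain := C.few_hazards x0 Ko (fun o => A (dec o)) X0 ?_
    (M := M) (r := r) (t := 2 * t ^ 2) (q := q) (s := (p - 1) * t) hM hr
    (fun k _ => (hcardA _).ge) ?_ ?_ hq ht4 ?_ ?_
    (fun o => univ.filter fun z : Finset (Fin n ⊕ Fin n) =>
      z ⊆ X0 ∧ z.card ≤ r ∧ C.IsHazard x0 o z) ?_ ?_
  · rw [hKcard] at hmain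
    constructor
    · calc n * (r + 1) ≤ 4 * L * m * (r + 1) := Nat.mul_le_mul_right _ hm3
        _ = 4 * L * (m * (r + 1)) := by ring
        _ ≤ 4 * L * (2 * C.wires) := Nat.mul_le_mul_left _ hmain.1
        _ = 8 * L * C.wires := by ring
    · intro har
      calc n * r ≤ 4 * L * m * r := Nat.mul_le_mul_right _ hm3
        _ = 4 * L * (m * r) := by ring
        _ ≤ 4 * L * (2 * C.size) := Nat.mul_le_mul_left _ (hmain.2 har)
        _ = 8 * L * C.size := by ring
  · intro k _
    exact image_subset_image (subset_univ _)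
  · intro o ho o' ho' hoo
    obtain ⟨k, -, rfl⟩ := mem_image.1 ho
    obtain ⟨l, -, rfl⟩ := mem_image.1 ho'
    have hkl : k ≠ l := fun h => hoo (by rw [h])
    rw [hdeci, hdeci, hA]
    simp only
    rw [← image_inter _ _ hgridinj, card_image_of_injective _ hgridinj]
    exact HazConv2.card_inter hp hp2 hpm htp hkl
  · rw [hKcard]
    exact Lib_MP_22d2c8_few.num_bound (Nat.div_le_self _ _) le_rfl ht3
  · -- an input of `A k` changes the output
    intro o ho v hv
    obtain ⟨k, -, rfl⟩ := mem_image.1 ho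
    rw [hdeci] at hv
    obtain ⟨i, hi, rfl⟩ := mem_image.1 hv
    have hfl : flipAt x0 (grid i) = Function.update x0 (grid i) true := by
      have h0 : x0 (grid i) = false := by
        rw [hx0]
        rfl
      rw [flipAt, h0]
      rfl
    rw [hfl]
    have hz : ∀ w, w ∉ ({grid i} : Finset (Fin n ⊕ Fin n)) →
        Function.update x0 (grid i) true w = x0 w := by
      intro w hw
      rw [Function.update_of_ne (by simpa using hw)]
    rw [hbase k, hval {grid i} (by simp [hX0]) (by simpa using hr) _ hz k]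
    have h1 : ((univ.filter fun j : ZMod m =>
        Function.update x0 (grid i) true (grid j) = true).filter fun j => k - j ∈ T) = {i} := by
      ext j
      rw [mem_filter, mem_filter, mem_singleton]
      constructor
      · rintro ⟨⟨-, h⟩, -⟩
        by_contra hne
        rw [Function.update_of_ne (fun h => hne (hgridinj h))] at h
        simp [hx0, hgrid] at h
      · rintro rfl
        exact ⟨⟨mem_univ _, by simp⟩, HazConv2.mem_outSet.1 hi⟩
    rw [h1]
    simp
  · -- the outputs are constant off `A k`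
    intro o ho z hzX hdis hzr x' hx'
    obtain ⟨k, -, rfl⟩ := mem_image.1 ho
    rw [hdeci] at hdis
    rw [hbase k, hval z hzX hzr x' hx' k]
    have h1 : ((univ.filter fun j : ZMod m => x' (grid j) = true).filter fun j => k - j ∈ T) =
        ∅ := by
      rw [filter_eq_empty_iff]
      intro j hj hT'
      have h2 : grid j ∉ z := fun h => disjoint_left.1 hdis h ((hmemA k j).2 hT')
      have h3 := hx' _ h2
      rw [(mem_filter.1 hj).2] at h3
      simp [hx0, hgrid] at h3
    rw [h1]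
    simp
  · intro k _ z hzX hzr hz
    exact mem_filter.2 ⟨mem_univ _, hzX, hzr, hz⟩
  · -- the number of hazards
    rw [hKcard]
    have hX0b : ∀ z ⊆ X0, ∀ v ∈ z, ∃ b, v = Sum.inl b := by
      intro z hz v hv
      obtain ⟨i, -, rfl⟩ := mem_image.1 (hz hv)
      exact ⟨_, rfl⟩
    have h1 : ∑ o ∈ Ko, ∑ z ∈ univ.filter (fun z : Finset (Fin n ⊕ Fin n) =>
        z ⊆ X0 ∧ z.card ≤ r ∧ C.IsHazard x0 o z), (1 / (M : ℝ)) ^ z.card ≤
        ∑ i ∈ Icc 1 r, (C.hazards (fun _ => false) y i : ℝ) * (1 / (M : ℝ)) ^ i := by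
      have h2 : ∑ o ∈ Ko, ∑ z ∈ univ.filter (fun z : Finset (Fin n ⊕ Fin n) =>
          z ⊆ X0 ∧ z.card ≤ r ∧ C.IsHazard x0 o z), (1 / (M : ℝ)) ^ z.card =
          ∑ u ∈ Ko.sigma (fun o => univ.filter
            (fun z : Finset (Fin n ⊕ Fin n) =>
              z ⊆ X0 ∧ z.card ≤ r ∧ C.IsHazard x0 o z)),
            (1 / (M : ℝ)) ^ (toX u.2).card := by
        rw [sum_sigma]
        refine sum_congr rfl fun k _ => sum_congr rfl fun z hz => ?_
        rw [card_toX (hX0b z (mem_filter.1 hz).2.1)]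
      rw [h2]
      set P : ℕ → Fin (2 * n) × Finset (Fin n) → Prop := fun i u => u.2.card = i ∧
        C.IsHazard x0 u.1 (u.2.map Function.Embedding.inl) with hP
      have h3 : ∀ i ∈ Icc 1 r, (C.hazards (fun _ => false) y i : ℝ) * (1 / (M : ℝ)) ^ i =
          ∑ u ∈ univ.filter (P i), (1 / (M : ℝ)) ^ u.2.card := by
        intro i _
        rw [sum_congr rfl (fun u hu => by rw [(mem_filter.1 hu).2.1] :
          ∀ u ∈ univ.filter (P i), (1 / (M : ℝ)) ^ u.2.card =
              (1 / (M : ℝ)) ^ i), sum_const, nsmul_eq_mul, Circuit.hazards]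
      rw [sum_congr rfl h3]
      have h4 : ∑ i ∈ Icc 1 r, ∑ u ∈ univ.filter (P i), (1 / (M : ℝ)) ^ u.2.card =
          ∑ u ∈ univ.filter (fun u : Fin (2 * n) × Finset (Fin n) =>
            u.2.card ∈ Icc 1 r ∧ C.IsHazard x0 u.1 (u.2.map Function.Embedding.inl)),
            (1 / (M : ℝ)) ^ u.2.card := by
        rw [← sum_fiberwise_of_maps_to (s := univ.filter
          (fun u : Fin (2 * n) × Finset (Fin n) =>
            u.2.card ∈ Icc 1 r ∧ C.IsHazard x0 u.1 (u.2.map Function.Embedding.inl)))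
          (t := Icc 1 r) (g := fun u => u.2.card) (fun u hu => (mem_filter.1 hu).2.1)]
        refine sum_congr rfl fun i hi => ?_
        congr 1
        ext u
        simp only [mem_filter, mem_univ, true_and, hP]
        constructor
        · rintro ⟨h5, h6⟩
          exact ⟨⟨by rw [h5]; exact hi, h6⟩, h5⟩
        · rintro ⟨⟨-, h6⟩, h5⟩
          exact ⟨h5, h6⟩
      rw [h4]
      rw [← sum_image (s := Ko.sigma (fun o => univ.filter
            (fun z : Finset (Fin n ⊕ Fin n) =>
              z ⊆ X0 ∧ z.card ≤ r ∧ C.IsHazard x0 o z)))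
            (g := fun u => ((u.1, toX u.2) : Fin (2 * n) × Finset (Fin n)))
            (f := fun u => (1 / (M : ℝ)) ^ u.2.card)]
      · refine sum_le_sum_of_subset_of_nonneg ?_ (fun _ _ _ => by positivity)
        intro u hu
        obtain ⟨⟨k, z⟩, hk, rfl⟩ := mem_image.1 hu
        have h5 := (mem_filter.1 (mem_sigma.1 hk).2).2
        simp only at h5
        refine mem_filter.2 ⟨mem_univ _, ?_, ?_⟩
        · simp only
          rw [mem_Icc, card_toX (hX0b z h5.1)]
          refine ⟨?_, h5.2.1⟩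
          rw [Nat.one_le_iff_ne_zero]
          intro h6
          rw [card_eq_zero] at h6
          rw [h6] at h5
          exact C.not_isHazard_empty _ _ h5.2.2
        · simp only
          rw [toX_map (hX0b z h5.1)]
          exact h5.2.2
      · rintro ⟨k, z⟩ hu ⟨k', z'⟩ hu' h
        have h5 := (mem_filter.1 (mem_sigma.1 (mem_coe.1 hu)).2).2
        have h6 := (mem_filter.1 (mem_sigma.1 (mem_coe.1 hu')).2).2
        simp only at h5 h6
        simp only [Prod.mk.injEq] at h
        obtain ⟨h7, h8⟩ := h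
        have h9 : z = z' := by
          rw [← toX_map (hX0b z h5.1), ← toX_map (hX0b z' h6.1), h8]
        rw [h7, h9]
    refine h1.trans (hsum.trans ?_)
    have h2 : (n : ℝ) ≤ 4 * L * m := by exact_mod_cast hm3
    have h3 : (0 : ℝ) < L := by exact_mod_cast hL1
    have h4 : ((Nat.log 2 r : ℝ) + 1) = (L : ℝ) := by rw [hL]; push_cast; ring
    rw [h4, div_le_div_iff₀ (by positivity) (by norm_num)]
    nlinarith

theorem sum_half_pow (r : ℕ) : ∑ i ∈ Icc 1 r, (1 / 2 : ℝ) ^ i = 1 - (1 / 2) ^ r := by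
  induction r with
  | zero => simp
  | succ r ih =>
    rw [sum_Icc_succ_top (by omega), ih, pow_succ]
    ring

/-- **Circuits for integer multiplication with few hazards.** -/
theorem mul_few {n r M : ℕ} (hr : 1 ≤ r) (hM : 1 ≤ M)
    (hn : 2 ^ 21 * M * r ^ 2 * (Nat.log 2 n + 1) * (Nat.log 2 r + 1) ≤ n) :
    ∃ y : Fin n → Bool, ∀ C : Circuit (Fin n ⊕ Fin n) (Fin (2 * n)), C.MulNat →
      (∀ i, 1 ≤ i → i ≤ r → 32 * (Nat.log 2 r + 1) * C.hazards (fun _ => false) y i ≤ n * M ^ i) →
      n * (r + 1) ≤ 8 * (Nat.log 2 r + 1) * C.wires ∧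
        ((∀ g, C.ar g ≤ 2) → n * r ≤ 8 * (Nat.log 2 r + 1) * C.size) := by
  obtain ⟨y, hy⟩ := mul_few_sum (n := n) (r := r) (M := 2 * M) hr (by omega)
    (le_trans (le_of_eq (by ring)) hn)
  refine ⟨y, fun C hC hh => hy C hC ?_⟩
  set L := Nat.log 2 r + 1 with hL
  have hL0 : (0 : ℝ) < (L : ℝ) := by
    have : 1 ≤ L := by omega
    exact_mod_cast this
  have hLc : ((Nat.log 2 r : ℝ) + 1) = (L : ℝ) := by rw [hL]; push_cast; ring
  have hM0 : (0 : ℝ) < (M : ℝ) := by exact_mod_cast hM
  rw [hLc]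
  calc ∑ i ∈ Icc 1 r, (C.hazards (fun _ => false) y i : ℝ) * (1 / ((2 * M : ℕ) : ℝ)) ^ i
      ≤ ∑ i ∈ Icc 1 r, ((n : ℝ) / (32 * L)) * (1 / 2 : ℝ) ^ i := by
        refine sum_le_sum fun i hi => ?_
        rw [mem_Icc] at hi
        have h1 : (32 * L * C.hazards (fun _ => false) y i : ℝ) ≤ n * M ^ i := by
          exact_mod_cast hh i hi.1 hi.2
        have h2 : (C.hazards (fun _ => false) y i : ℝ) ≤ (n : ℝ) / (32 * L) * M ^ i := by
          rw [div_mul_eq_mul_div, le_div_iff₀ (by positivity)]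
          linarith
        calc (C.hazards (fun _ => false) y i : ℝ) * (1 / ((2 * M : ℕ) : ℝ)) ^ i
            ≤ (n : ℝ) / (32 * L) * M ^ i * (1 / ((2 * M : ℕ) : ℝ)) ^ i :=
              mul_le_mul_of_nonneg_right h2 (by positivity)
          _ = (n : ℝ) / (32 * L) * (1 / 2 : ℝ) ^ i := by
              rw [mul_assoc, ← mul_pow]
              congr 2
              push_cast
              field_simp
    _ = (n : ℝ) / (32 * L) * (1 - (1 / 2) ^ r) := by
        rw [← mul_sum, sum_half_pow]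
    _ ≤ (n : ℝ) / (32 * L) := by
        have h1 : (0 : ℝ) < (1 / 2) ^ r := by positivity
        have h2 : (0 : ℝ) ≤ (n : ℝ) / (32 * L) := by positivity
        nlinarith

end Pool.Agent.Lib_MP_22d2c8_hz
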