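import Pool.Agent.Lib_MP_22d2c8_few.FewMain
import Pool.Agent.Lib_MP_22d2c8_few.Num
import Pool.Agent.Lib_MP_22d2c8_hzc.Arith
import Pool.Agent.Lib_MP_22d2c8_hzc.ConvSet2

/-!
# Integer multiplication: circuits with few hazards
-/

set_option autoImplicit false

open Finset

namespace Pool.Agent.Lib_MP_22d2c8_few

open Pool.Agent.HazConv (val per testBit_cyclic sum_bits)

/-- the number with the binary digits `x` -/
def num {n : ℕ} (x : Fin n → Bool) : ℕ := ∑ b : Fin n, if x b = true then 2 ^ (b : ℕ) else 0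

/-- `C` computes the product of two `n`-bit numbers; the output bit `j` is at the vertex `out j`. -/
def Multiplies {n s : ℕ} (C : Circuit (Fin n ⊕ Fin n) s)
    (out : Fin (2 * n) → (Fin n ⊕ Fin n) ⊕ Fin s) : Prop :=
  ∀ x y : Fin n → Bool, ∀ a, C.IsRun (Sum.elim x y) a →
    ∀ j : Fin (2 * n), a (out j) = Nat.testBit (num x * num y) j

open Classical in
/-- The number of hazards with `i` unstable bits of `x`, at the input `(0, y)`: pairs of an output
bit `j` and a set `z` of `i` bits of `x`. -/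
noncomputable def hazards {n s : ℕ} (C : Circuit (Fin n ⊕ Fin n) s)
    (out : Fin (2 * n) → (Fin n ⊕ Fin n) ⊕ Fin s) (y : Fin n → Bool) (i : ℕ) : ℕ :=
  (univ.filter fun q : Fin (2 * n) × Finset (Fin n) => q.2.card = i ∧
    C.IsHazard (Sum.elim (fun _ => false) y) (out q.1) (q.2.map Function.Embedding.inl)).card

/-- the bits of `x` in a set of inputs -/
def toX {n : ℕ} (z : Finset (Fin n ⊕ Fin n)) : Finset (Fin n) :=
  univ.filter fun b => Sum.inl b ∈ z

theorem toX_map {n : ℕ} {z : Finset (Fin n ⊕ Fin n)} (hz : ∀ v ∈ z, ∃ b, v = Sum.inl b) :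
    (toX z).map Function.Embedding.inl = z := by
  ext v
  rw [mem_map]
  constructor
  · rintro ⟨b, hb, rfl⟩
    exact (mem_filter.1 hb).2
  · intro hv
    obtain ⟨b, rfl⟩ := hz v hv
    exact ⟨b, mem_filter.2 ⟨mem_univ _, hv⟩, rfl⟩

theorem card_toX {n : ℕ} {z : Finset (Fin n ⊕ Fin n)} (hz : ∀ v ∈ z, ∃ b, v = Sum.inl b) :
    (toX z).card = z.card := by
  conv_rhs => rw [← toX_map hz]
  rw [card_map]

section digits

variable {n L m : ℕ}

/-- ones at the positions `L i`, `i ∈ S` -/
def xbits (n L : ℕ) {m : ℕ} (S : Finset (ZMod m)) : Fin n → Bool :=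
  fun b => decide (∃ i ∈ S, L * i.val = (b : ℕ))

/-- ones at the positions `L j`, `j < 2 m`, `j mod m` in `T` -/
def ybits (n L : ℕ) {m : ℕ} (T : Finset (ZMod m)) : Fin n → Bool :=
  fun b => decide (∃ j ∈ per m T, L * j = (b : ℕ))

theorem num_xbits [NeZero m] (hL : 1 ≤ L) (hn : 2 * L * m ≤ n) (S : Finset (ZMod m)) :
    num (xbits n L S) = val L (S.image ZMod.val) := by
  refine sum_bits L hL _ ?_ _ ?_
  · intro i hi
    obtain ⟨j, -, rfl⟩ := mem_image.1 hi
    have h1 := ZMod.val_lt j
    have h2 : L * j.val < L * m := Nat.mul_lt_mul_of_pos_left h1 (by omega)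
    nlinarith
  · intro b
    rw [xbits, decide_eq_true_eq]
    constructor
    · rintro ⟨i, hi, h⟩
      exact ⟨i.val, mem_image_of_mem _ hi, h⟩
    · rintro ⟨i, hi, h⟩
      obtain ⟨j, hj, rfl⟩ := mem_image.1 hi
      exact ⟨j, hj, h⟩

theorem num_ybits (hL : 1 ≤ L) (hn : 2 * L * m ≤ n) (T : Finset (ZMod m)) :
    num (ybits n L T) = val L (per m T) := by
  refine sum_bits L hL _ ?_ _ ?_
  · intro j hj
    have h1 : j < 2 * m := mem_range.1 (mem_filter.1 hj).1
    have h2 : L * j < L * (2 * m) := Nat.mul_lt_mul_of_pos_left h1 (by omega)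
    nlinarith
  · intro b
    rw [ybits, decide_eq_true_eq]

/-- The bit `L (m + k)` of the product is the parity of the number of `i ∈ S` with
`k - i ∈ T`. -/
theorem prod_bit [NeZero m] (hL : 1 ≤ L) (hn : 2 * L * m ≤ n) (S T : Finset (ZMod m))
    (hS : S.card < 2 ^ L) (k : ZMod m) :
    Nat.testBit (num (xbits n L S) * num (ybits n L T)) (L * (m + k.val)) =
      decide ((S.filter fun i => k - i ∈ T).card % 2 = 1) := by
  have hinj : Function.Injective (ZMod.val : ZMod m → ℕ) := ZMod.val_injective m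
  rw [num_xbits hL hn, num_ybits hL hn, testBit_cyclic L hL T (S.image ZMod.val) ?_ ?_
    (Nat.le_add_right _ _) ?_]
  · have h1 : ((S.image ZMod.val).filter fun i : ℕ =>
        (((m + k.val : ℕ) : ZMod m)) - ((i : ℕ) : ZMod m) ∈ T).card =
          (S.filter fun i => k - i ∈ T).card := by
      rw [← card_image_of_injective (S.filter fun i => k - i ∈ T) hinj]
      congr 1
      ext i
      simp only [mem_filter, mem_image]
      constructor
      · rintro ⟨⟨j, hj, rfl⟩, h⟩
        refine ⟨j, ⟨hj, ?_⟩, rfl⟩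
        simpa using h
      · rintro ⟨j, ⟨hj, h⟩, rfl⟩
        refine ⟨⟨j, hj, rfl⟩, ?_⟩
        simpa using h
    rw [h1]
  · intro i hi
    obtain ⟨j, -, rfl⟩ := mem_image.1 hi
    exact ZMod.val_lt j
  · rwa [card_image_of_injective _ hinj]
  · have := ZMod.val_lt k
    omega

end digits

/-- The bound for a weighted number of hazards. -/
theorem mult_sum {n r M : ℕ} (hr : 1 ≤ r) (hM : 1 ≤ M)
    (hn : 2 ^ 20 * M * r ^ 2 * (Nat.log 2 n + 1) * (Nat.log 2 r + 1) ≤ n) :
    ∃ y : Fin n → Bool, ∀ (s : ℕ) (C : Circuit (Fin n ⊕ Fin n) s)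
      (out : Fin (2 * n) → (Fin n ⊕ Fin n) ⊕ Fin s), Multiplies C out →
      (∑ i ∈ Icc 1 r, (hazards C out y i : ℝ) * (1 / (M : ℝ)) ^ i ≤
        (n : ℝ) / (32 * (Nat.log 2 r + 1))) →
      n * (r + 1) ≤ 8 * (Nat.log 2 r + 1) * C.wires := by
  classical
  obtain ⟨hm1, hm2, hm3⟩ := size_m hr hM hn
  set L := Nat.log 2 r + 1 with hL
  set m := n / (2 * L) with hm
  have hL1 : 1 ≤ L := by omega
  have hrL : r < 2 ^ L := Nat.lt_pow_succ_log_self (by norm_num) r
  have hnm : 2 * L * m ≤ n := Nat.mul_div_le n (2 * L)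
  obtain ⟨p, hp, hp2, hpm, hpm2⟩ := HazConv2.exists_prime m (by omega)
  have hp3 : 3 ≤ p := by
    have := hp.two_le
    omega
  obtain ⟨hq, hbig⟩ := params hr hM hn hp3 hpm2
  set q := 2 * Nat.log 2 n + 4 with hqdef
  obtain ⟨t, ht1, ht2, ht3, ht4⟩ := exists_s (p := p) (a := q) (M := M) hr
    (by nlinarith) hbig
  have htp : t < p := by omega
  have : NeZero m := ⟨by omega⟩
  set T := HazConv2.convSet p m t with hT
  refine ⟨ybits n L T, fun s C out hC hsum => ?_⟩
  set y := ybits n L T with hy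
  -- the grid and the outputs
  have hgridlt : ∀ i : ZMod m, L * i.val < n := by
    intro i
    have h1 := ZMod.val_lt i
    have h2 : L * i.val < L * m := Nat.mul_lt_mul_of_pos_left h1 (by omega)
    nlinarith
  set grid : ZMod m → Fin n ⊕ Fin n := fun i => Sum.inl ⟨L * i.val, hgridlt i⟩ with hgrid
  have hgridinj : Function.Injective grid := by
    intro i j h
    simp only [hgrid, Sum.inl.injEq, Fin.mk.injEq] at h
    exact ZMod.val_injective m (Nat.eq_of_mul_eq_mul_left (by omega) h)
  have hidxlt : ∀ k : ZMod m, L * (m + k.val) < 2 * n := by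
    intro k
    have h1 := ZMod.val_lt k
    have h2 : L * (m + k.val) < L * (2 * m) := Nat.mul_lt_mul_of_pos_left (by omega) (by omega)
    nlinarith
  set idx : ZMod m → Fin (2 * n) := fun k => ⟨L * (m + k.val), hidxlt k⟩ with hidx
  have hidxinj : Function.Injective idx := by
    intro i j h
    simp only [hidx, Fin.mk.injEq] at h
    have h1 := Nat.eq_of_mul_eq_mul_left (by omega) h
    exact ZMod.val_injective m (by omega)
  set A : ZMod m → Finset (Fin n ⊕ Fin n) := fun k => (HazConv2.outSet p m t k).image grid with hA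
  set X0 : Finset (Fin n ⊕ Fin n) := univ.image grid with hX0
  set x0 : Fin n ⊕ Fin n → Bool := Sum.elim (fun _ => false) y with hx0
  obtain ⟨a, ha⟩ := C.exists_run x0
  -- the value of an output
  have hval : ∀ z ⊆ X0, z.card ≤ r → ∀ x' a', (∀ i, i ∉ z → x' i = x0 i) → C.IsRun x' a' →
      ∀ k, a' (out (idx k)) = decide (((univ.filter fun i : ZMod m => x' (grid i) = true).filter
        fun i => k - i ∈ T).card % 2 = 1) := by
    intro z hz hzr x' a' hx' ha' k
    set S := univ.filter fun i : ZMod m => x' (grid i) = true with hS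
    have hScard : S.card < 2 ^ L := by
      refine lt_of_le_of_lt ?_ hrL
      refine le_trans ?_ hzr
      rw [← card_image_of_injective S hgridinj]
      refine card_le_card ?_
      intro v hv
      obtain ⟨i, hi, rfl⟩ := mem_image.1 hv
      by_contra hne
      have h1 := hx' _ hne
      rw [(mem_filter.1 hi).2] at h1
      simp [hx0, hgrid] at h1
    have hx'eq : x' = Sum.elim (xbits n L S) y := by
      funext v
      rcases v with b | b
      · rw [Sum.elim_inl]
        rw [Bool.eq_iff_iff, xbits, decide_eq_true_eq]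
        constructor
        · intro hb
          have h1 : (Sum.inl b : Fin n ⊕ Fin n) ∈ z := by
            by_contra hne
            have h1 := hx' _ hne
            rw [hb] at h1
            simp [hx0] at h1
          obtain ⟨i, -, hi⟩ := mem_image.1 (hz h1)
          refine ⟨i, ?_, ?_⟩
          · rw [hS, mem_filter]
            exact ⟨mem_univ _, by rw [hi]; exact hb⟩
          · simp only [hgrid, Sum.inl.injEq] at hi
            rw [← hi]
        · rintro ⟨i, hi, hib⟩
          have h1 : grid i = Sum.inl b := by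
            simp only [hgrid, Sum.inl.injEq]
            exact Fin.ext hib
          rw [← h1]
          exact (mem_filter.1 hi).2
      · rw [Sum.elim_inr]
        have h1 : (Sum.inr b : Fin n ⊕ Fin n) ∉ z := by
          intro h
          obtain ⟨i, -, hi⟩ := mem_image.1 (hz h)
          simp [hgrid] at hi
        rw [hx' _ h1, hx0, Sum.elim_inr]
    rw [hx'eq] at ha'
    rw [hC _ _ a' ha' (idx k)]
    exact prod_bit hL1 hnm S T hScard k
  -- the value at the base point
  have hbase : ∀ k, a (out (idx k)) = false := by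
    intro k
    rw [hval ∅ (empty_subset _) (by simp) x0 a (fun _ _ => rfl) ha k]
    have h1 : (univ.filter fun i : ZMod m => x0 (grid i) = true) = ∅ := by
      rw [filter_eq_empty_iff]
      intro i _
      simp [hx0, hgrid]
    rw [h1]
    simp
  have hmemA : ∀ k i, grid i ∈ A k ↔ k - i ∈ T := by
    intro k i
    rw [hA]
    simp only [mem_image]
    constructor
    · rintro ⟨j, hj, h⟩
      rw [← hgridinj h]
      exact HazConv2.mem_outSet.1 hj
    · intro h
      exact ⟨i, HazConv2.mem_outSet.2 h, rfl⟩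
  have hcardA : ∀ k, (A k).card = (p - 1) * t := by
    intro k
    rw [hA]
    simp only
    rw [card_image_of_injective _ hgridinj, HazConv2.card_outSet hp hpm htp]
  have hmain := few_hazards C (univ : Finset (ZMod m)) A X0 ?_ (fun k => out (idx k)) x0 a ha
    (M := M) (r := r) (t := 2 * t ^ 2) (q := q) (s := (p - 1) * t) hM hr
    (fun k _ => (hcardA k).ge) ?_ ?_ hq ht4 ?_ ?_
    (fun k => univ.filter fun z : Finset (Fin n ⊕ Fin n) =>
      z ⊆ X0 ∧ z.card ≤ r ∧ C.IsHazard x0 (out (idx k)) z) ?_ ?_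
  · rw [card_univ, ZMod.card] at hmain
    calc n * (r + 1) ≤ 4 * L * m * (r + 1) := Nat.mul_le_mul_right _ hm3
      _ = 4 * L * (m * (r + 1)) := by ring
      _ ≤ 4 * L * (2 * C.wires) := Nat.mul_le_mul_left _ hmain
      _ = 8 * L * C.wires := by ring
  · intro k _
    exact image_subset_image (subset_univ _)
  · intro k _ l _ hkl
    rw [hA]
    simp only
    rw [← image_inter _ _ hgridinj, card_image_of_injective _ hgridinj]
    exact HazConv2.card_inter hp hp2 hpm htp hkl
  · rw [card_univ, ZMod.card]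
    exact num_bound (Nat.div_le_self _ _) le_rfl ht3
  · -- an input of `A k` changes the output
    intro k _ v hv
    obtain ⟨i, hi, rfl⟩ := mem_image.1 hv
    obtain ⟨a', ha'⟩ := C.exists_run (Function.update x0 (grid i) true)
    have hz : ∀ w, w ∉ ({grid i} : Finset (Fin n ⊕ Fin n)) →
        Function.update x0 (grid i) true w = x0 w := by
      intro w hw
      rw [Function.update_of_ne (by simpa using hw)]
    refine C.unst_of_ne ha ha' hz _ ?_
    rw [hbase k, hval {grid i} (by simp [hX0]) (by simpa using hr) _ a' hz ha' k]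
    have h1 : ((univ.filter fun j : ZMod m =>
        Function.update x0 (grid i) true (grid j) = true).filter fun j => k - j ∈ T) = {i} := by
      ext j
      rw [mem_filter, mem_filter, mem_singleton]
      constructor
      · rintro ⟨⟨-, h⟩, -⟩
        by_contra hne
        rw [Function.update_of_ne (fun h => hne (hgridinj h))] at h
        simp [hx0, hgrid] at h
      · rintro rfl
        exact ⟨⟨mem_univ _, by simp⟩, HazConv2.mem_outSet.1 hi⟩
    rw [h1]
    simp
  · -- the outputs are constant off `A k`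
    intro k _ z hz hzr x' a' hx' ha'
    have hzX : z ⊆ X0 := fun v hv => (mem_sdiff.1 (hz hv)).1
    rw [hbase k, hval z hzX hzr x' a' hx' ha' k]
    have h1 : ((univ.filter fun j : ZMod m => x' (grid j) = true).filter fun j => k - j ∈ T) =
        ∅ := by
      rw [filter_eq_empty_iff]
      intro j hj hT'
      have h2 : grid j ∉ z := fun h => (mem_sdiff.1 (hz h)).2 ((hmemA k j).2 hT')
      have h3 := hx' _ h2
      rw [(mem_filter.1 hj).2] at h3
      simp [hx0, hgrid] at h3
    rw [h1]
    simp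
  · intro k _ z hzX hzr hz
    exact mem_filter.2 ⟨mem_univ _, hzX, hzr, hz⟩
  · -- the number of hazards
    rw [card_univ, ZMod.card]
    have hX0b : ∀ z ⊆ X0, ∀ v ∈ z, ∃ b, v = Sum.inl b := by
      intro z hz v hv
      obtain ⟨i, -, rfl⟩ := mem_image.1 (hz hv)
      exact ⟨_, rfl⟩
    have h1 : ∑ k : ZMod m, ∑ z ∈ univ.filter (fun z : Finset (Fin n ⊕ Fin n) =>
        z ⊆ X0 ∧ z.card ≤ r ∧ C.IsHazard x0 (out (idx k)) z), (1 / (M : ℝ)) ^ z.card ≤
        ∑ i ∈ Icc 1 r, (hazards C out y i : ℝ) * (1 / (M : ℝ)) ^ i := by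
      have h2 : ∑ k : ZMod m, ∑ z ∈ univ.filter (fun z : Finset (Fin n ⊕ Fin n) =>
          z ⊆ X0 ∧ z.card ≤ r ∧ C.IsHazard x0 (out (idx k)) z), (1 / (M : ℝ)) ^ z.card =
          ∑ u ∈ (univ : Finset (ZMod m)).sigma (fun k => univ.filter
            (fun z : Finset (Fin n ⊕ Fin n) =>
              z ⊆ X0 ∧ z.card ≤ r ∧ C.IsHazard x0 (out (idx k)) z)),
            (1 / (M : ℝ)) ^ (toX u.2).card := by
        rw [sum_sigma]
        refine sum_congr rfl fun k _ => sum_congr rfl fun z hz => ?_
        rw [card_toX (hX0b z (mem_filter.1 hz).2.1)]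
      rw [h2]
      set P : ℕ → Fin (2 * n) × Finset (Fin n) → Prop := fun i u => u.2.card = i ∧
        C.IsHazard x0 (out u.1) (u.2.map Function.Embedding.inl) with hP
      have h3 : ∀ i ∈ Icc 1 r, (hazards C out y i : ℝ) * (1 / (M : ℝ)) ^ i =
          ∑ u ∈ univ.filter (P i), (1 / (M : ℝ)) ^ u.2.card := by
        intro i _
        rw [sum_congr rfl (fun u hu => by rw [(mem_filter.1 hu).2.1] :
          ∀ u ∈ univ.filter (P i), (1 / (M : ℝ)) ^ u.2.card =
              (1 / (M : ℝ)) ^ i), sum_const, nsmul_eq_mul, hazards]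
      rw [sum_congr rfl h3]
      have h4 : ∑ i ∈ Icc 1 r, ∑ u ∈ univ.filter (P i), (1 / (M : ℝ)) ^ u.2.card =
          ∑ u ∈ univ.filter (fun u : Fin (2 * n) × Finset (Fin n) =>
            u.2.card ∈ Icc 1 r ∧ C.IsHazard x0 (out u.1) (u.2.map Function.Embedding.inl)),
            (1 / (M : ℝ)) ^ u.2.card := by
        rw [← sum_fiberwise_of_maps_to (s := univ.filter
          (fun u : Fin (2 * n) × Finset (Fin n) =>
            u.2.card ∈ Icc 1 r ∧ C.IsHazard x0 (out u.1) (u.2.map Function.Embedding.inl)))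
          (t := Icc 1 r) (g := fun u => u.2.card) (fun u hu => (mem_filter.1 hu).2.1)]
        refine sum_congr rfl fun i hi => ?_
        congr 1
        ext u
        simp only [mem_filter, mem_univ, true_and, hP]
        constructor
        · rintro ⟨h5, h6⟩
          exact ⟨⟨by rw [h5]; exact hi, h6⟩, h5⟩
        · rintro ⟨⟨-, h6⟩, h5⟩
          exact ⟨h5, h6⟩
      rw [h4]
      rw [← sum_image (s := (univ : Finset (ZMod m)).sigma (fun k => univ.filter
            (fun z : Finset (Fin n ⊕ Fin n) =>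
              z ⊆ X0 ∧ z.card ≤ r ∧ C.IsHazard x0 (out (idx k)) z)))
            (g := fun u => ((idx u.1, toX u.2) : Fin (2 * n) × Finset (Fin n)))
            (f := fun u => (1 / (M : ℝ)) ^ u.2.card)]
      · refine sum_le_sum_of_subset_of_nonneg ?_ (fun _ _ _ => by positivity)
        intro u hu
        obtain ⟨⟨k, z⟩, hk, rfl⟩ := mem_image.1 hu
        have h5 := (mem_filter.1 (mem_sigma.1 hk).2).2
        simp only at h5
        refine mem_filter.2 ⟨mem_univ _, ?_, ?_⟩
        · simp only
          rw [mem_Icc, card_toX (hX0b z h5.1)]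
          refine ⟨?_, h5.2.1⟩
          rw [Nat.one_le_iff_ne_zero]
          intro h6
          rw [card_eq_zero] at h6
          rw [h6] at h5
          exact C.not_isHazard_empty _ _ h5.2.2
        · simp only
          rw [toX_map (hX0b z h5.1)]
          exact h5.2.2
      · rintro ⟨k, z⟩ hu ⟨k', z'⟩ hu' h
        have h5 := (mem_filter.1 (mem_sigma.1 (mem_coe.1 hu)).2).2
        have h6 := (mem_filter.1 (mem_sigma.1 (mem_coe.1 hu')).2).2
        simp only at h5 h6
        simp only [Prod.mk.injEq] at h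
        obtain ⟨h7, h8⟩ := h
        have h9 : z = z' := by
          rw [← toX_map (hX0b z h5.1), ← toX_map (hX0b z' h6.1), h8]
        rw [hidxinj h7, h9]
    refine h1.trans (hsum.trans ?_)
    have h2 : (n : ℝ) ≤ 4 * L * m := by exact_mod_cast hm3
    have h3 : (0 : ℝ) < L := by exact_mod_cast hL1
    have h4 : ((Nat.log 2 r : ℝ) + 1) = (L : ℝ) := by rw [hL]; push_cast; ring
    rw [h4, div_le_div_iff₀ (by positivity) (by norm_num)]
    nlinarith

theorem sum_half_pow (r : ℕ) : ∑ i ∈ Icc 1 r, (1 / 2 : ℝ) ^ i = 1 - (1 / 2) ^ r := by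
  induction r with
  | zero => simp
  | succ r ih =>
    rw [sum_Icc_succ_top (by omega), ih, pow_succ]
    ring

/-- **Circuits for integer multiplication with few hazards.** -/
theorem mult {n r M : ℕ} (hr : 1 ≤ r) (hM : 1 ≤ M)
    (hn : 2 ^ 21 * M * r ^ 2 * (Nat.log 2 n + 1) * (Nat.log 2 r + 1) ≤ n) :
    ∃ y : Fin n → Bool, ∀ (s : ℕ) (C : Circuit (Fin n ⊕ Fin n) s)
      (out : Fin (2 * n) → (Fin n ⊕ Fin n) ⊕ Fin s), Multiplies C out →
      (∀ i, 1 ≤ i → i ≤ r → 32 * (Nat.log 2 r + 1) * hazards C out y i ≤ n * M ^ i) →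
      n * (r + 1) ≤ 8 * (Nat.log 2 r + 1) * C.wires := by
  obtain ⟨y, hy⟩ := mult_sum (n := n) (r := r) (M := 2 * M) hr (by omega)
    (le_trans (le_of_eq (by ring)) hn)
  refine ⟨y, fun s C out hC hh => hy s C out hC ?_⟩
  set L := Nat.log 2 r + 1 with hL
  have hL0 : (0 : ℝ) < (L : ℝ) := by
    have : 1 ≤ L := by omega
    exact_mod_cast this
  have hLc : ((Nat.log 2 r : ℝ) + 1) = (L : ℝ) := by rw [hL]; push_cast; ring
  have hM0 : (0 : ℝ) < (M : ℝ) := by exact_mod_cast hM
  rw [hLc]
  calc ∑ i ∈ Icc 1 r, (hazards C out y i : ℝ) * (1 / ((2 * M : ℕ) : ℝ)) ^ i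
      ≤ ∑ i ∈ Icc 1 r, ((n : ℝ) / (32 * L)) * (1 / 2 : ℝ) ^ i := by
        refine sum_le_sum fun i hi => ?_
        rw [mem_Icc] at hi
        have h1 : (32 * L * hazards C out y i : ℝ) ≤ n * M ^ i := by
          exact_mod_cast hh i hi.1 hi.2
        have h2 : (hazards C out y i : ℝ) ≤ (n : ℝ) / (32 * L) * M ^ i := by
          rw [div_mul_eq_mul_div, le_div_iff₀ (by positivity)]
          linarith
        calc (hazards C out y i : ℝ) * (1 / ((2 * M : ℕ) : ℝ)) ^ i
            ≤ (n : ℝ) / (32 * L) * M ^ i * (1 / ((2 * M : ℕ) : ℝ)) ^ i :=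
              mul_le_mul_of_nonneg_right h2 (by positivity)
          _ = (n : ℝ) / (32 * L) * (1 / 2 : ℝ) ^ i := by
              rw [mul_assoc, ← mul_pow]
              congr 2
              push_cast
              field_simp
    _ = (n : ℝ) / (32 * L) * (1 - (1 / 2) ^ r) := by
        rw [← mul_sum, sum_half_pow]
    _ ≤ (n : ℝ) / (32 * L) := by
        have h1 : (0 : ℝ) < (1 / 2) ^ r := by positivity
        have h2 : (0 : ℝ) ≤ (n : ℝ) / (32 * L) := by positivity
        nlinarith

end Pool.Agent.Lib_MP_22d2c8_few
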