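import Pool.Agent.Lib_MP_22d2c8_few.FewCore

/-!
# Circuits, runs, ternary evaluation, hazards

`Circuit V s`: inputs `V`, gates `Fin s` in topological order, gate `g` applies an arbitrary
Boolean function to the values of the vertices in `preds g` (inputs and earlier gates).
`Unst C a z v`: at the run `a` the vertex `v` is unstable when the inputs in `z` are.
-/

set_option autoImplicit false

open Finset

namespace Pool.Agent.Lib_MP_22d2c8_few

/-- A circuit with inputs `V` and `s` gates. -/
structure Circuit (V : Type) (s : ℕ) where
  /-- the vertices read by a gate -/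
  preds : Fin s → Finset (V ⊕ Fin s)
  /-- the function of the gate -/
  fn : Fin s → (V ⊕ Fin s → Bool) → Bool
  /-- it only depends on the vertices that the gate reads -/
  fn_local : ∀ g a b, (∀ w ∈ preds g, a w = b w) → fn g a = fn g b
  /-- a gate reads inputs and earlier gates -/
  order : ∀ g h, Sum.inr h ∈ preds g → h < g

variable {V : Type} {s : ℕ}

namespace Circuit

/-- the number of wires -/
def wires (C : Circuit V s) : ℕ := ∑ g, (C.preds g).card

/-- `a` gives the values of all vertices when the input is `x` -/
def IsRun (C : Circuit V s) (x : V → Bool) (a : V ⊕ Fin s → Bool) : Prop :=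
  (∀ i, a (Sum.inl i) = x i) ∧ ∀ g, a (Sum.inr g) = C.fn g a

open Classical in
/-- `T` is the ternary (Kleene) evaluation, `none` = unstable, when the input is `x` and the
inputs in `z` are unstable: a gate is stable if and only if its function is constant on the
arguments compatible with the values of the other vertices. -/
def IsTernary (C : Circuit V s) (x : V → Bool) (z : Finset V) (T : V ⊕ Fin s → Option Bool) :
    Prop :=
  (∀ i, T (Sum.inl i) = if i ∈ z then none else some (x i)) ∧
    ∀ g b, T (Sum.inr g) = some b ↔ ∀ a, (∀ w c, T w = some c → a w = c) → C.fn g a = b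

/-- The vertex `v` has a hazard at the input `x` with unstable set `z`: its value does not depend
on the inputs in `z`, but it is unstable in the ternary evaluation. -/
def IsHazard (C : Circuit V s) (x : V → Bool) (v : V ⊕ Fin s) (z : Finset V) : Prop :=
  (∃ b, ∀ y a, (∀ i, i ∉ z → y i = x i) → C.IsRun y a → a v = b) ∧
    ∃ T, C.IsTernary x z T ∧ T v = none

theorem exists_run (C : Circuit V s) (x : V → Bool) : ∃ a, C.IsRun x a := by
  set f : ℕ → V ⊕ Fin s → Bool := fun t =>
    (fun a : V ⊕ Fin s → Bool => Sum.elim x (fun g => C.fn g a))^[t]
      (Sum.elim x fun _ => false) with hf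
  have hsucc : ∀ t, f (t + 1) = Sum.elim x (fun g => C.fn g (f t)) := by
    intro t
    rw [hf]
    simp only [Function.iterate_succ_apply']
  have hin : ∀ t i, f t (Sum.inl i) = x i := by
    intro t i
    cases t with
    | zero => rfl
    | succ t => rw [hsucc]; rfl
  have hst : ∀ t, ∀ g : Fin s, (g : ℕ) < t → f (t + 1) (Sum.inr g) = f t (Sum.inr g) := by
    intro t
    induction t with
    | zero => exact fun g hg => absurd hg (Nat.not_lt_zero _)
    | succ t ih =>
      intro g hg
      rw [hsucc (t + 1), hsucc t, Sum.elim_inr, Sum.elim_inr, ← hsucc t]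
      refine C.fn_local g _ _ fun w hw => ?_
      rcases w with i | h
      · rw [hin, hin]
      · have h1 : (h : ℕ) < g := C.order g h hw
        exact ih h (by omega)
  refine ⟨f s, hin s, fun g => ?_⟩
  have h1 := hst s g g.2
  rw [hsucc s, Sum.elim_inr] at h1
  exact h1.symm

/-- instability -/
inductive Unst (C : Circuit V s) (a : V ⊕ Fin s → Bool) (z : Finset V) : V ⊕ Fin s → Prop
  | input (i : V) : i ∈ z → Unst C a z (Sum.inl i)
  | gate (g : Fin s) (b b' : V ⊕ Fin s → Bool) : (∀ w, b w ≠ a w → Unst C a z w) →
      (∀ w, b' w ≠ a w → Unst C a z w) → C.fn g b ≠ C.fn g b' → Unst C a z (Sum.inr g)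

theorem unst_infl [DecidableEq V] (C : Circuit V s) (a : V ⊕ Fin s → Bool) :
    Infl C.preds (fun v z => C.Unst a z v) where
  acyclic := by
    refine ⟨fun v => Sum.elim (fun _ => 0) (fun g : Fin s => (g : ℕ) + 1) v, fun g u hu => ?_⟩
    rcases u with i | h
    · simp
    · have := C.order g h hu
      simpa using this
  input := by
    intro i z h
    cases h with
    | input _ h => exact h
  inputMono := by
    intro i z z' hz h
    cases h with
    | input _ h => exact .input i (hz h)
  gate := by
    classical
    intro g z z' hu h
    cases h with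
    | gate _ b b' h1 h2 h3 =>
      refine .gate g (fun w => if w ∈ C.preds g then b w else a w)
        (fun w => if w ∈ C.preds g then b' w else a w) ?_ ?_ ?_
      · intro w hw
        by_cases hp : w ∈ C.preds g
        · simp only [hp, if_true] at hw
          exact hu w hp (h1 w hw)
        · simp [hp] at hw
      · intro w hw
        by_cases hp : w ∈ C.preds g
        · simp only [hp, if_true] at hw
          exact hu w hp (h2 w hw)
        · simp [hp] at hw
      · have e1 : C.fn g (fun w => if w ∈ C.preds g then b w else a w) = C.fn g b :=
          C.fn_local g _ _ (fun w hw => by simp [hw])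
        have e2 : C.fn g (fun w => if w ∈ C.preds g then b' w else a w) = C.fn g b' :=
          C.fn_local g _ _ (fun w hw => by simp [hw])
        rw [e1, e2]
        exact h3

/-- A vertex whose value changes is unstable. -/
theorem unst_of_ne (C : Circuit V s) {x y : V → Bool} {a a' : V ⊕ Fin s → Bool} {z : Finset V}
    (ha : C.IsRun x a) (ha' : C.IsRun y a') (hz : ∀ i, i ∉ z → y i = x i) :
    ∀ v, a' v ≠ a v → C.Unst a z v := by
  classical
  have key : ∀ k : ℕ, ∀ g : Fin s, (g : ℕ) < k → a' (Sum.inr g) ≠ a (Sum.inr g) →
      C.Unst a z (Sum.inr g) := by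
    intro k
    induction k with
    | zero => exact fun g hg => absurd hg (Nat.not_lt_zero _)
    | succ k ih =>
      intro g hg hne
      refine .gate g (fun w => if w ∈ C.preds g then a' w else a w) a ?_ ?_ ?_
      · intro w hw
        by_cases hp : w ∈ C.preds g
        · simp only [hp, if_true] at hw
          rcases w with i | h
          · refine .input i ?_
            by_contra hi
            exact hw (by rw [ha.1, ha'.1, hz i hi])
          · have h1 : (h : ℕ) < g := C.order g h hp
            exact ih h (by omega) hw
        · simp [hp] at hw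
      · intro w hw
        exact absurd rfl hw
      · rw [C.fn_local g _ a' (fun w hw => by simp [hw]), ← ha'.2, ← ha.2]
        exact hne
  intro v hv
  rcases v with i | g
  · refine .input i ?_
    by_contra hi
    exact hv (by rw [ha.1, ha'.1, hz i hi])
  · exact key _ g (Nat.lt_succ_self _) hv

open Classical in
theorem isTernary_unst (C : Circuit V s) {x : V → Bool} {a : V ⊕ Fin s → Bool} {z : Finset V}
    (ha : C.IsRun x a) :
    C.IsTernary x z (fun v => if C.Unst a z v then none else some (a v)) := by
  have hin : ∀ i, C.Unst a z (Sum.inl i) ↔ i ∈ z := by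
    intro i
    constructor
    · intro h
      cases h with
      | input _ h => exact h
    · exact .input i
  have hcomp : ∀ b : V ⊕ Fin s → Bool,
      (∀ w c, (if C.Unst a z w then none else some (a w)) = some c → b w = c) ↔
        ∀ w, b w ≠ a w → C.Unst a z w := by
    intro b
    constructor
    · intro h w hw
      by_contra hu
      exact hw (h w (a w) (by simp [hu]))
    · intro h w c hc
      by_cases hu : C.Unst a z w
      · simp [hu] at hc
      · simp only [hu, if_false, Option.some.injEq] at hc
        rw [← hc]
        by_contra hne
        exact hu (h w hne)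
  refine ⟨fun i => ?_, fun g b => ?_⟩
  · by_cases hi : i ∈ z
    · simp [hi, hin]
    · simp [hi, hin, ha.1]
  · simp only [hcomp]
    constructor
    · intro h b' hb'
      by_cases hu : C.Unst a z (Sum.inr g)
      · simp [hu] at h
      · simp only [hu, if_false, Option.some.injEq] at h
        rw [← h, ha.2]
        by_contra hne
        exact hu (.gate g b' a hb' (fun w hw => absurd rfl hw) hne)
    · intro h
      by_cases hu : C.Unst a z (Sum.inr g)
      · exfalso
        cases hu with
        | gate _ b1 b2 h1 h2 h3 => exact h3 ((h b1 h1).trans (h b2 h2).symm)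
      · simp only [hu, if_false, Option.some.injEq]
        rw [ha.2]
        exact h a fun w hw => absurd rfl hw

/-- An unstable vertex of constant value has a hazard. -/
theorem isHazard_of_unst (C : Circuit V s) {x : V → Bool} {a : V ⊕ Fin s → Bool} {z : Finset V}
    {v : V ⊕ Fin s} (ha : C.IsRun x a) (hu : C.Unst a z v)
    (hc : ∀ y a', (∀ i, i ∉ z → y i = x i) → C.IsRun y a' → a' v = a v) :
    C.IsHazard x v z := by
  classical
  exact ⟨⟨a v, hc⟩, _, C.isTernary_unst ha, by simp [hu]⟩

end Circuit

end Pool.Agent.Lib_MP_22d2c8_few
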